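import Pool.Agent.K3h96.SD.Alg

/-!
# Algebraic elements
-/

set_option autoImplicit false

namespace Pool.Agent.K3h19.CKD

open Polynomial

variable {A : Type*} [Ring A] [Algebra ℚ A]

omit [Algebra ℚ A] in
lemma pow_add_orth {x y : A} (h1 : x * y = 0) (h2 : y * x = 0) (n : ℕ) :
    (x + y) ^ (n + 1) = x ^ (n + 1) + y ^ (n + 1) := by
  induction n with
  | zero => simp
  | succ n ih =>
    rw [pow_succ, ih, add_mul, mul_add, mul_add, pow_succ x n, mul_assoc _ x y, h1, mul_zero,
      pow_succ y n, mul_assoc _ y x, h2, mul_zero, add_zero, zero_add, ← pow_succ, ← pow_succ,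
      ← pow_succ, ← pow_succ]

lemma aeval_add_orth {x y : A} (h1 : x * y = 0) (h2 : y * x = 0) (P : ℚ[X]) :
    aeval (x + y) (X * P) = aeval x (X * P) + aeval y (X * P) := by
  induction P using Polynomial.induction_on' with
  | add f g hf hg => rw [mul_add, map_add, map_add, map_add, hf, hg]; abel
  | monomial n a =>
    rw [X_mul_monomial, aeval_monomial, aeval_monomial, aeval_monomial, pow_add_orth h1 h2,
      mul_add]

/-- The sum of two orthogonal algebraic elements is algebraic. -/
lemma isAlgebraic_add_orth {x y : A} (h1 : x * y = 0) (h2 : y * x = 0) (hx : IsAlgebraic ℚ x)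
    (hy : IsAlgebraic ℚ y) : IsAlgebraic ℚ (x + y) := by
  obtain ⟨P, hP, hPx⟩ := hx
  obtain ⟨Q, hQ, hQy⟩ := hy
  refine ⟨X * (P * Q), mul_ne_zero X_ne_zero (mul_ne_zero hP hQ), ?_⟩
  rw [aeval_add_orth h1 h2]
  simp only [map_mul, hPx, hQy, mul_zero, zero_mul, add_zero]

/-- An element of a corner killed up to nilpotents by a polynomial is algebraic. -/
lemma isAlgebraic_corner {f x : A} (hfx : f * x = x) (hxf : x * f = x) {P : ℚ[X]} (hP : P ≠ 0)
    (h : IsNilpotent (f * aeval x P)) : IsAlgebraic ℚ x := by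
  obtain ⟨k, hk⟩ := h
  refine ⟨(X * P) ^ k, pow_ne_zero _ (mul_ne_zero X_ne_zero hP), ?_⟩
  have h1 : aeval x (X * P) = x * (f * aeval x P) := by
    rw [map_mul, aeval_X, ← mul_assoc, hxf]
  have h2 : Commute x (f * aeval x P) := by
    have h3 : Commute x (aeval x P) := by
      rw [commute_iff_eq]
      have : aeval x (X * P) = aeval x (P * X) := by rw [mul_comm]
      rwa [map_mul, map_mul, aeval_X] at this
    have h4 : Commute x f := by rw [commute_iff_eq, hfx, hxf]
    exact h4.mul_right h3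
  rw [map_pow, h1, h2.mul_pow, hk, mul_zero]

/-- The images of polynomials under a multiplicative map on the powers. -/
lemma map_aeval_of_pow {B : Type*} [Ring B] [Algebra ℚ B] (ψ : A →ₗ[ℚ] B) {s : A}
    (h : ∀ n : ℕ, ψ (s ^ (n + 1)) = ψ s ^ (n + 1)) (P : ℚ[X]) :
    ψ (aeval s (X * P)) = aeval (ψ s) (X * P) := by
  induction P using Polynomial.induction_on' with
  | add f g hf hg => rw [mul_add, map_add, map_add, map_add, hf, hg]
  | monomial n a =>
    rw [X_mul_monomial, aeval_monomial, aeval_monomial, ← Algebra.smul_def, ← Algebra.smul_def,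
      map_smul, h]

lemma isAlgebraic_map {B : Type*} [Ring B] [Algebra ℚ B] (ψ : A →ₗ[ℚ] B) {s : A}
    (h : ∀ n : ℕ, ψ (s ^ (n + 1)) = ψ s ^ (n + 1)) (hs : IsAlgebraic ℚ s) :
    IsAlgebraic ℚ (ψ s) := by
  obtain ⟨P, hP, hPs⟩ := hs
  refine ⟨X * P, mul_ne_zero X_ne_zero hP, ?_⟩
  rw [← map_aeval_of_pow ψ h, map_mul, hPs, mul_zero, map_zero]

lemma aeval_sum_orth {ι : Type*} [Fintype ι] [DecidableEq ι] {p : ι → A} {c : ι → ℚ}
    (hpp : ∀ i j, p i * p j = if i = j then p i else 0) (Q : ℚ[X]) :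
    aeval (∑ i, c i • p i) (X * Q) = ∑ i, (X * Q).eval (c i) • p i := by
  have h1 : ∀ n : ℕ, (∑ i, c i • p i) ^ (n + 1) = ∑ i, (c i) ^ (n + 1) • p i := by
    intro n
    induction n with
    | zero => simp
    | succ n ih =>
      rw [pow_succ, ih, Finset.sum_mul]
      apply Finset.sum_congr rfl
      intro i _
      rw [Finset.mul_sum, Finset.sum_eq_single i]
      · rw [smul_mul_smul_comm, hpp, if_pos rfl, pow_succ _ (n + 1)]
      · intro j _ hj
        rw [smul_mul_smul_comm, hpp, if_neg hj.symm, smul_zero]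
      · intro h; exact absurd (Finset.mem_univ i) h
  induction Q using Polynomial.induction_on' with
  | add f g hf hg =>
    rw [mul_add, map_add, hf, hg, ← Finset.sum_add_distrib]
    exact Finset.sum_congr rfl fun i _ => by rw [eval_add, add_smul]
  | monomial n a =>
    rw [X_mul_monomial, aeval_monomial, ← Algebra.smul_def, h1, Finset.smul_sum]
    apply Finset.sum_congr rfl
    intro i _
    rw [smul_smul, eval_monomial]

lemma isAlgebraic_sum_orth {ι : Type*} [Fintype ι] [DecidableEq ι] {p : ι → A} (c : ι → ℚ)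
    (hpp : ∀ i j, p i * p j = if i = j then p i else 0) : IsAlgebraic ℚ (∑ i, c i • p i) := by
  refine ⟨X * ∏ i, (X - C (c i)), mul_ne_zero X_ne_zero
    (Polynomial.monic_prod_of_monic _ _ fun i _ => Polynomial.monic_X_sub_C _).ne_zero, ?_⟩
  rw [aeval_sum_orth hpp, Finset.sum_eq_zero]
  intro i _
  rw [eval_mul, eval_prod, Finset.prod_eq_zero (Finset.mem_univ i), mul_zero, zero_smul]
  rw [eval_sub, eval_X, eval_C, sub_self]

end Pool.Agent.K3h19.CKD
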