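import Pool.Agent.K3h19.CKD.Main

/-!
# Ascent of self-dual Chow-Kunneth decompositions; the equivalences
-/

open CategoryTheory AlgebraicGeometry

universe u v w

namespace Pool.Agent.K3h19.CKD

open Pool.Agent.H914 Pool.Agent.H914.VarClass Pool.Agent.H914.VarClass.Obj Pool.Agent.W492.BB
  Pool.Agent.W550.Corr Pool.Agent.TH133 Pool.Agent.Y107 Pool.Agent.K3h96.SD

set_option linter.unusedSectionVars false

variable {k : Type u} [Field k] {𝒱 : VarClass k}
  {C : TheoryData.{u, v, 0} 𝒱 ℚ} [hC : IsChowProj C] {X Y : 𝒱.Obj}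
  {K : Type w} [Field K] {H : WeilTheoryData.{u, v, w} C K} [hH : IsWeilProj H]

include hC hH

/-- The Kunneth components of `(Y, q)` from an algebraic element acting by the weight. -/
lemma kunneth_of_weight {q s : Cor C Y} (hq0 : q ∈ cor0 C Y) (hqq : q * q = q)
    (hs0 : s ∈ cor0 C Y)
    (hw : ∀ (m : ℤ) (v : H.A Y), v ∈ H.gr Y m →
      actH C Y H s v = (((Y.dim : ℤ) - m : ℤ) : K) • actH C Y H q v)
    (hs : IsAlgebraic ℚ s) (n : ℕ) : ∃ p ∈ cor0 C Y, ∀ (m : ℤ) (v : H.A Y), v ∈ H.gr Y m →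
      actH C Y H p v = if m = n then actH C Y H q v else 0 := by
  obtain ⟨P, hP, hPs⟩ := hs
  refine ⟨Polynomial.aeval s (idp P hP ((Y.dim : ℚ) - n)) * q, (cor0 C Y).mul_mem
    ((Algebra.adjoin_le (by simpa using hs0) : Algebra.adjoin ℚ {s} ≤ cor0 C Y)
      (Polynomial.aeval_mem_adjoin_singleton ℚ s)) hq0, ?_⟩
  intro m v hv
  rw [map_mul, Module.End.mul_apply]
  by_cases hv0 : actH C Y H q v = 0
  · rw [hv0, map_zero]
    split_ifs <;> rfl
  have hv1 : actH C Y H q v ∈ H.gr Y m := actH_mem0 hq0 hv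
  have hsm : actH C Y H s (actH C Y H q v) = (((Y.dim : ℚ) - m : ℚ) : K) • actH C Y H q v := by
    rw [hw m _ hv1, ← Module.End.mul_apply (actH C Y H q), ← map_mul, hqq,
      show ((Y.dim : ℚ) - m : ℚ) = (((Y.dim : ℤ) - m : ℤ) : ℚ) by push_cast; rfl, Rat.cast_intCast]
  have hf : ∀ f : Polynomial ℚ, actH C Y H (Polynomial.aeval s f) (actH C Y H q v) =
      ((f.eval ((Y.dim : ℚ) - m) : ℚ) : K) • actH C Y H q v := fun f =>
    (act_aeval (actH C Y H) hv0 hsm f).1
  have hK : CharZero K := (act_aeval (actH C Y H) hv0 hsm 0).2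
  have hPc : P.eval ((Y.dim : ℚ) - m) = 0 := by
    have h := hf P
    rw [hPs, map_zero] at h
    rcases smul_eq_zero.1 h.symm with h | h
    · exact_mod_cast h
    · exact absurd h hv0
  rw [hf]
  by_cases hm : m = n
  · rw [if_pos hm]
    have h1 : (Y.dim : ℚ) - m = (Y.dim : ℚ) - n := by
      rw [hm, Int.cast_natCast]
    rw [h1] at hPc ⊢
    rw [eval_idp_self P hP _ hPc, Rat.cast_one, one_smul]
  · rw [if_neg hm, eval_idp_ne P hP _ hPc, Rat.cast_zero, zero_smul]
    intro h
    apply hm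
    have h1 : (m : ℚ) = ((n : ℤ) : ℚ) := by
      rw [Int.cast_natCast]; linarith
    exact_mod_cast h1

/-- **Ascent**: from an algebraic element acting by the weight on `(Y, q)` to one acting by the
weight on `Y`. -/
theorem ascend {q s : Cor C Y} (hq0 : q ∈ cor0 C Y) (hqq : q * q = q)
    (hs0 : s ∈ cor0 C Y) (hqs : q * s = s) (hsq : s * q = s)
    (hw : ∀ (m : ℤ) (v : H.A Y), v ∈ H.gr Y m →
      actH C Y H s v = (((Y.dim : ℤ) - m : ℤ) : K) • actH C Y H q v)
    (hs : IsAlgebraic ℚ s) (hnil : NilpotentEnd H (Y := Y) ((1 : Cor C Y) - q))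
    (hK : AlgebraicKunneth H (Y := Y) ((1 : Cor C Y) - q)) :
    ∃ s' ∈ cor0 C Y, ActsByWeight H (X := Y) s' ∧ IsAlgebraic ℚ s' ∧
      (tpR C Y q = q → tpR C Y s = -s → tpR C Y s' = -s') := by
  have hlift : ∀ n < Y.dim, ∃ p ∈ cor0 C Y, ActsAsProjector H (X := Y) n p := by
    intro n _
    obtain ⟨p1, hp10, hp1⟩ := kunneth_of_weight (H := H) hq0 hqq hs0 hw hs n
    obtain ⟨p2, hp20, hp2⟩ : ∃ p : Cor C Y, p ∈ cor0 C Y ∧ ∀ (m : ℤ) (v : H.A Y), v ∈ H.gr Y m →
      actH C Y H p v = if m = n then actH C Y H ((1 : Cor C Y) - q) v else 0 := hK n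
    refine ⟨p1 + p2, (cor0 C Y).add_mem hp10 hp20, ?_⟩
    intro m v hv
    change actH C Y H (p1 + p2) v = _
    rw [map_add, LinearMap.add_apply, hp1 m v hv, hp2 m v hv]
    by_cases hmn : m = n
    · rw [if_pos hmn, if_pos hmn, if_pos hmn, map_sub, map_one, LinearMap.sub_apply,
        Module.End.one_apply, add_sub_cancel]
    · rw [if_neg hmn, if_neg hmn, if_neg hmn, add_zero]
  have : Nonempty (Cor C Y) := ⟨0⟩
  choose! p hp0 hp using hlift
  obtain ⟨u, hu⟩ : ∃ u : Cor C Y, u = ∑ n ∈ Finset.range Y.dim,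
    ((Y.dim : ℚ) - n) • (p n - tpR C Y (p n)) := ⟨_, rfl⟩
  have hu0 : u ∈ cor0 C Y := by
    rw [hu]
    exact (cor0 C Y).sum_mem fun n hn => (cor0 C Y).smul_mem ((cor0 C Y).sub_mem
      (hp0 n (Finset.mem_range.1 hn)) (tpR_mem (hp0 n (Finset.mem_range.1 hn)))) _
  have huw : ActsByWeight H (X := Y) u := by
    rw [hu]
    exact weight_of_lifts p fun n hn => hp n hn
  have hut : tpR C Y u = -u := by
    rw [hu, map_sum, ← Finset.sum_neg_distrib]
    apply Finset.sum_congr rfl
    intro n _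
    rw [tpR_smul, map_sub, tpR_tpR, ← smul_neg, neg_sub]
  obtain ⟨f, hf⟩ : ∃ f : Cor C Y, f = 1 - q := ⟨_, rfl⟩
  rw [← hf] at hnil
  have hff : f * f = f := by
    rw [hf, mul_sub, sub_mul, sub_mul, hqq, one_mul, mul_one, one_mul, sub_self, sub_zero]
  have hf0 : f ∈ cor0 C Y := by rw [hf]; exact (cor0 C Y).sub_mem (cor0 C Y).one_mem hq0
  have hsf : s * f = 0 := by rw [hf, mul_sub, mul_one, hsq, sub_self]
  have hfs : f * s = 0 := by rw [hf, sub_mul, one_mul, hqs, sub_self]
  have huv : ∀ (m : ℤ) (v : H.A Y), v ∈ H.gr Y m →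
      actH C Y H u v = (((Y.dim : ℤ) - m : ℤ) : K) • v := fun m v hv => huw m v hv
  refine ⟨s + f * u * f, ?_, ?_, ?_, ?_⟩
  · exact (cor0 C Y).add_mem hs0
      ((cor0 C Y).mul_mem ((cor0 C Y).mul_mem hf0 hu0) hf0)
  · intro m v hv
    change actH C Y H (s + f * u * f) v = _
    rw [map_add, LinearMap.add_apply, hw m v hv, map_mul, map_mul,
      Module.End.mul_apply, Module.End.mul_apply, huv m _ (actH_mem0 hf0 hv), map_smul,
      ← Module.End.mul_apply (actH C Y H f), ← map_mul, hff, ← smul_add, ← LinearMap.add_apply,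
      ← map_add, hf, add_sub_cancel, map_one, Module.End.one_apply]
  · apply isAlgebraic_add_orth
    · rw [← mul_assoc, ← mul_assoc, hsf, zero_mul, zero_mul]
    · rw [mul_assoc, hfs, mul_zero]
    · exact hs
    · obtain ⟨x, hx⟩ : ∃ x : Cor C Y, x = f * u * f := ⟨_, rfl⟩
      rw [← hx]
      have hfx : f * x = x := by rw [hx, ← mul_assoc, ← mul_assoc, hff]
      have hxf : x * f = x := by rw [hx, mul_assoc, hff]
      have hx0 : x ∈ cor0 C Y := by
        rw [hx]; exact (cor0 C Y).mul_mem ((cor0 C Y).mul_mem hf0 hu0) hf0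
      have hcx : ∀ P : Polynomial ℚ, Commute f (Polynomial.aeval x P) := fun P =>
        commute_aeval (by rw [commute_iff_eq, hfx, hxf]) P
      refine isAlgebraic_corner (f := f) (x := x) hfx hxf (P := ∏ i : Fin (2 * Y.dim + 1),
        (Polynomial.X - Polynomial.C ((Y.dim : ℚ) - (i : ℕ)))) ?_ ?_
      · exact (Polynomial.monic_prod_of_monic _ _ fun i _ => Polynomial.monic_X_sub_C _).ne_zero
      · apply nil_of_act hnil
        · refine (cor0 C Y).mul_mem hf0 ?_
          exact (Algebra.adjoin_le (by simpa using hx0) :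
            Algebra.adjoin ℚ {x} ≤ cor0 C Y) (Polynomial.aeval_mem_adjoin_singleton ℚ x)
        · rw [← mul_assoc f f, hff, mul_assoc, ← (hcx _).eq, ← mul_assoc, hff]
        · apply ext_gr H
          intro m v hv
          rw [LinearMap.zero_apply]
          rw [(hcx _).eq, map_mul, Module.End.mul_apply]
          by_cases hv0 : actH C Y H f v = 0
          · rw [hv0, map_zero]
          have hv1 : actH C Y H f v ∈ H.gr Y m := actH_mem0 hf0 hv
          have hm0 := nonneg_of_mem H hv1 hv0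
          have hm1 : m ≤ 2 * Y.dim := by
            by_contra hcon
            rw [gr_top H (by omega)] at hv1
            exact hv0 ((Submodule.mem_bot _).1 hv1)
          obtain ⟨m, rfl⟩ := Int.eq_ofNat_of_zero_le hm0
          have h2 : actH C Y H x (actH C Y H f v) =
              (((Y.dim : ℚ) - m : ℚ) : K) • actH C Y H f v := by
            rw [hx, map_mul, map_mul, Module.End.mul_apply, Module.End.mul_apply,
              ← Module.End.mul_apply (actH C Y H f) (actH C Y H f), ← map_mul, hff,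
              huv m _ hv1, map_smul, ← Module.End.mul_apply, ← map_mul, hff,
              show ((Y.dim : ℚ) - m : ℚ) = (((Y.dim : ℤ) - m : ℤ) : ℚ) by push_cast; rfl,
              Rat.cast_intCast]
          rw [(act_aeval (actH C Y H) hv0 h2 _).1, Polynomial.eval_prod,
            Finset.prod_eq_zero (Finset.mem_univ (⟨m, by omega⟩ : Fin (2 * Y.dim + 1))),
            Rat.cast_zero, zero_smul]
          rw [Polynomial.eval_sub, Polynomial.eval_X, Polynomial.eval_C, sub_self]
  · intro htq hts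
    have htf : tpR C Y f = f := by rw [hf, map_sub, tpR_one, htq]
    rw [map_add, hts, tpR_mul, tpR_mul, htf, hut, neg_add, neg_mul, mul_neg, mul_assoc]

/-- A Chow-Kunneth decomposition from an algebraic correspondence acting by the weight. -/
theorem exists_CK_of_weight {s : Cor C X} (hs0 : s ∈ cor0 C X) (hw : ActsByWeight H (X := X) s)
    (hs : IsAlgebraic ℚ s) : ∃ π, IsCK H X π := by
  obtain ⟨P, hP, hPs⟩ := hs
  have hd : ∀ f : Polynomial ℚ, P ∣ f → Polynomial.aeval s f = 0 := by
    rintro f ⟨g, rfl⟩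
    rw [map_mul, hPs, zero_mul]
  have hmem : ∀ f : Polynomial ℚ, Polynomial.aeval s f ∈ cor0 C X := fun f =>
    (Algebra.adjoin_le (by simpa using hs0) :
      Algebra.adjoin ℚ {s} ≤ cor0 C X) (Polynomial.aeval_mem_adjoin_singleton ℚ s)
  obtain ⟨E, hE⟩ : ∃ E : ℕ → Cor C X, E = fun n => Polynomial.aeval s
    (idp P hP ((X.dim : ℚ) - ((n + 1 : ℕ) : ℚ))) := ⟨_, rfl⟩
  have hEE : ∀ i j, E i * E j = if i = j then E i else 0 := by
    intro i j
    rw [hE]
    by_cases hij : i = j
    · subst hij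
      rw [if_pos rfl]
      have h := hd _ (dvd_idp_sub P hP ((X.dim : ℚ) - ((i + 1 : ℕ) : ℚ)))
      rw [map_sub, map_mul, sub_eq_zero] at h
      exact h
    · rw [if_neg hij]
      have h := hd _ (dvd_idp_mul P hP ((X.dim : ℚ) - ((i + 1 : ℕ) : ℚ))
        (c' := (X.dim : ℚ) - ((j + 1 : ℕ) : ℚ)) (by
          intro h
          apply hij
          have h1 : ((i + 1 : ℕ) : ℚ) = ((j + 1 : ℕ) : ℚ) := by linarith
          have h2 : i + 1 = j + 1 := by exact_mod_cast h1
          omega))
      rw [map_mul] at h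
      exact h
  have hEact : ∀ (i : ℕ) (m : ℤ) (v : H.A X), v ∈ H.gr X m →
      actH C X H (E i) v = if m = (i + 1 : ℕ) then v else 0 := by
    intro i m v hv
    by_cases hv0 : v = 0
    · subst hv0
      rw [map_zero]
      split_ifs <;> rfl
    have hsm : actH C X H s v = (((X.dim : ℚ) - m : ℚ) : K) • v := by
      have h := hw m v hv
      rw [actH_apply, h, show ((X.dim : ℚ) - m : ℚ) = (((X.dim : ℤ) - m : ℤ) : ℚ) by
        push_cast; rfl, Rat.cast_intCast]
    have hf : ∀ f : Polynomial ℚ, actH C X H (Polynomial.aeval s f) v =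
      ((f.eval ((X.dim : ℚ) - m) : ℚ) : K) • v := fun f => (act_aeval (actH C X H) hv0 hsm f).1
    have hK : CharZero K := (act_aeval (actH C X H) hv0 hsm 0).2
    have hPc : P.eval ((X.dim : ℚ) - m) = 0 := by
      have h := hf P
      rw [hPs, map_zero] at h
      rcases smul_eq_zero.1 h.symm with h | h
      · exact_mod_cast h
      · exact absurd h hv0
    rw [hE]
    change actH C X H (Polynomial.aeval s (idp P hP ((X.dim : ℚ) - ((i + 1 : ℕ) : ℚ)))) v = _
    rw [hf]
    by_cases hm : m = (i + 1 : ℕ)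
    · rw [if_pos hm]
      have h1 : (X.dim : ℚ) - m = (X.dim : ℚ) - ((i + 1 : ℕ) : ℚ) := by
        rw [hm, Int.cast_natCast]
      rw [h1] at hPc ⊢
      rw [eval_idp_self P hP _ hPc, Rat.cast_one, one_smul]
    · rw [if_neg hm, eval_idp_ne P hP _ hPc, Rat.cast_zero, zero_smul]
      intro h
      apply hm
      have h1 : (m : ℚ) = (((i + 1 : ℕ) : ℤ) : ℚ) := by
        rw [Int.cast_natCast]; linarith
      exact_mod_cast h1
  obtain ⟨T, hT⟩ : ∃ T : Cor C X, T = ∑ n ∈ Finset.range (2 * X.dim), E n := ⟨_, rfl⟩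
  have hET : ∀ i < 2 * X.dim, E i * T = E i := by
    intro i hi
    rw [hT, Finset.mul_sum, Finset.sum_eq_single i]
    · rw [hEE, if_pos rfl]
    · intro j _ hj; rw [hEE, if_neg hj.symm]
    · intro h; exact absurd (Finset.mem_range.2 hi) h
  have hTE : ∀ i < 2 * X.dim, T * E i = E i := by
    intro i hi
    rw [hT, Finset.sum_mul, Finset.sum_eq_single i]
    · rw [hEE, if_pos rfl]
    · intro j _ hj; rw [hEE, if_neg hj]
    · intro h; exact absurd (Finset.mem_range.2 hi) h
  have hTT : T * T = T := by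
    conv_lhs => rw [hT, Finset.sum_mul]
    rw [Finset.sum_congr rfl fun i hi => hT ▸ hET i (Finset.mem_range.1 hi), hT]
  obtain ⟨Q, hQ⟩ : ∃ Q : ℕ → Cor C X, Q = fun n => if n = 0 then 1 - T else
    if n ≤ 2 * X.dim then E (n - 1) else 0 := ⟨_, rfl⟩
  have Q0 : Q 0 = 1 - T := by rw [hQ]; simp
  have Q1 : ∀ n, n < 2 * X.dim → Q (n + 1) = E n := by
    intro n hn
    rw [hQ]
    simp only [Nat.add_one_ne_zero, if_false, Nat.add_sub_cancel]
    rw [if_pos (by omega)]
  have Q2 : ∀ n, 2 * X.dim ≤ n → Q (n + 1) = 0 := by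
    intro n hn
    rw [hQ]
    simp only [Nat.add_one_ne_zero, if_false]
    rw [if_neg (by omega)]
  refine ⟨Q, isCK_of (P := Q) ?_ ?_ ?_ ?_ ?_⟩
  · intro i
    rcases i with _ | i
    · rw [Q0, hT]
      refine (cor0 C X).sub_mem (cor0 C X).one_mem ((cor0 C X).sum_mem fun n _ => ?_)
      rw [hE]; exact hmem _
    · by_cases hi : i < 2 * X.dim
      · rw [Q1 i hi, hE]; exact hmem _
      · rw [Q2 i (by omega)]; exact (cor0 C X).zero_mem
  · intro i hi
    obtain ⟨j, rfl⟩ : ∃ j, i = j + 1 := ⟨i - 1, by omega⟩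
    exact Q2 j (by omega)
  · intro i j
    rcases i with _ | i
    · rcases j with _ | j
      · rw [if_pos rfl, Q0, mul_sub, sub_mul, sub_mul, hTT, one_mul, mul_one, one_mul, sub_self,
          sub_zero]
      · rw [if_neg (by omega)]
        by_cases hj : j < 2 * X.dim
        · rw [Q0, Q1 j hj, sub_mul, one_mul, hTE j hj, sub_self]
        · rw [Q2 j (by omega), mul_zero]
    · rcases j with _ | j
      · rw [if_neg (by omega)]
        by_cases hi : i < 2 * X.dim
        · rw [Q0, Q1 i hi, mul_sub, mul_one, hET i hi, sub_self]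
        · rw [Q2 i (by omega), zero_mul]
      · by_cases hi : i < 2 * X.dim
        · by_cases hj : j < 2 * X.dim
          · rw [Q1 i hi, Q1 j hj, hEE]
            by_cases hij : i = j
            · rw [if_pos hij, if_pos (by omega)]
            · rw [if_neg hij, if_neg (by omega)]
          · rw [Q2 j (by omega), mul_zero, if_neg (by omega)]
        · rw [Q2 i (by omega), zero_mul]
          split_ifs <;> rfl
  · rw [Finset.sum_range_succ', Q0, Finset.sum_congr rfl fun i hi => Q1 i (Finset.mem_range.1 hi),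
      ← hT, add_sub_cancel]
  · intro i m v hv
    by_cases hv0 : v = 0
    · subst hv0
      rw [map_zero]
      split_ifs <;> rfl
    have hm0 := nonneg_of_mem H hv hv0
    have hm1 : m ≤ 2 * X.dim := by
      by_contra hcon
      rw [gr_top H (by omega)] at hv
      exact hv0 ((Submodule.mem_bot _).1 hv)
    obtain ⟨m, rfl⟩ := Int.eq_ofNat_of_zero_le hm0
    rcases i with _ | i
    · rw [Q0, map_sub, map_one, LinearMap.sub_apply, Module.End.one_apply, hT, map_sum,
        LinearMap.sum_apply, Finset.sum_congr rfl fun n _ => hEact n _ v hv]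
      rcases m with _ | m
      · rw [Finset.sum_eq_zero, sub_zero, if_pos (by simp)]
        intro n _
        rw [if_neg (by omega)]
      · rw [Finset.sum_eq_single m, if_pos rfl, sub_self, if_neg (by omega)]
        · intro n _ hn
          rw [if_neg (by omega)]
        · intro h
          exfalso; apply h
          rw [Finset.mem_range]; omega
    · by_cases hi : i < 2 * X.dim
      · rw [Q1 i hi, hEact i _ v hv]
      · rw [Q2 i (by omega), map_zero, LinearMap.zero_apply, if_neg (by omega)]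


/-- The Kunneth components of a motive `(Y, f)` are algebraic if `Y` has a Chow-Kunneth
decomposition. -/
lemma algebraicKunneth_of_isCK {π : ℕ → Cor C Y} (hπ : IsCK H Y π) {f : Cor C Y}
    (hf0 : f ∈ cor0 C Y) : AlgebraicKunneth H (Y := Y) f := by
  intro n
  refine ⟨(f * π n : Cor C Y), (cor0 C Y).mul_mem hf0 (hπ.deg n), ?_⟩
  intro m v hv
  change actH C Y H (f * π n) v = if m = n then actH C Y H f v else 0
  rw [map_mul, Module.End.mul_apply, hπ.actH_eq' n m hv]
  split_ifs
  · rfl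
  · rw [map_zero]

end Pool.Agent.K3h19.CKD
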