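import Pool.Agent.K3h19.CKD.Ring

/-!
# Conjugation of complete systems of idempotents
-/

set_option autoImplicit false

namespace Pool.Agent.K3h19.CKD

open Polynomial

section comm

variable {A : Type*} [Ring A] {S : Type*} [Ring S] {φ : A →+* S} {f : A}
  {ι : Type*} [Fintype ι] [DecidableEq ι] {p F : ι → A}

/-- A projector `g` equivalent to `f` commuting with all `p i`. -/
lemma exists_commuting
    (hpp : ∀ i j, p i * p j = if i = j then p i else 0) (hp1 : ∑ i, p i = 1)
    (hcomm : ∀ i, φ (p i) * φ f = φ f * φ (p i))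
    (hnil : ∀ x, f * x * f = x → φ x = 0 → IsNilpotent x)
    (hFF : ∀ i j, F i * F j = if i = j then F i else 0) (hF1 : ∑ i, F i = f)
    (hFφ : ∀ i, φ (F i) = φ f * φ (p i)) :
    ∃ g : A, g * g = g ∧ (∀ i, g * p i = p i * g) ∧ φ g = φ f ∧
      (∀ x, g * x * g = x → φ x = 0 → IsNilpotent x) ∧
      ∀ (t : A →+ A) (σ : ι → ι), AntiInv t → t f = f → (∀ i, t (p i) = p (σ i)) →
        (∀ i, t (F i) = F (σ i)) → Function.Involutive σ → t g = g := by
  have hfF : ∀ i, f * F i = F i := by
    intro i
    rw [← hF1, Finset.sum_mul, Finset.sum_eq_single i]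
    · rw [hFF, if_pos rfl]
    · intro j _ hj; rw [hFF, if_neg hj]
    · intro h; exact absurd (Finset.mem_univ i) h
  have hFf : ∀ i, F i * f = F i := by
    intro i
    rw [← hF1, Finset.mul_sum, Finset.sum_eq_single i]
    · rw [hFF, if_pos rfl]
    · intro j _ hj; rw [hFF, if_neg hj.symm]
    · intro h; exact absurd (Finset.mem_univ i) h
  have hff : f * f = f := by
    conv_lhs => rw [← hF1, Finset.sum_mul]
    rw [Finset.sum_congr rfl fun i _ => hF1 ▸ hFf i, hF1]
  have hG : φ f * φ f = φ f := by rw [← map_mul, hff]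
  -- the two maps
  obtain ⟨b, hb⟩ : ∃ b : A, b = ∑ i, F i * p i := ⟨_, rfl⟩
  obtain ⟨b', hb'⟩ : ∃ b' : A, b' = ∑ i, p i * F i := ⟨_, rfl⟩
  obtain ⟨h, hh⟩ : ∃ h : A, h = ∑ i, F i * p i * F i := ⟨_, rfl⟩
  have hpb : ∀ i, p i * b' = p i * F i := by
    intro i
    rw [hb', Finset.mul_sum, Finset.sum_eq_single i]
    · rw [← mul_assoc, hpp, if_pos rfl]
    · intro j _ hj; rw [← mul_assoc, hpp, if_neg hj.symm, zero_mul]
    · intro h; exact absurd (Finset.mem_univ i) h
  have hbp : ∀ i, b * p i = F i * p i := by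
    intro i
    rw [hb, Finset.sum_mul, Finset.sum_eq_single i]
    · rw [mul_assoc, hpp, if_pos rfl]
    · intro j _ hj; rw [mul_assoc, hpp, if_neg hj, mul_zero]
    · intro h; exact absurd (Finset.mem_univ i) h
  have hFb : ∀ i, F i * b = F i * p i := by
    intro i
    rw [hb, Finset.mul_sum, Finset.sum_eq_single i]
    · rw [← mul_assoc, hFF, if_pos rfl]
    · intro j _ hj; rw [← mul_assoc, hFF, if_neg hj.symm, zero_mul]
    · intro h; exact absurd (Finset.mem_univ i) h
  have hbF : ∀ i, b' * F i = p i * F i := by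
    intro i
    rw [hb', Finset.sum_mul, Finset.sum_eq_single i]
    · rw [mul_assoc, hFF, if_pos rfl]
    · intro j _ hj; rw [mul_assoc, hFF, if_neg hj, mul_zero]
    · intro h; exact absurd (Finset.mem_univ i) h
  have hbb : b * b' = h := by
    rw [hb, Finset.sum_mul, hh]
    apply Finset.sum_congr rfl
    intro i _
    rw [mul_assoc, hpb, mul_assoc]
  have hfb : f * b = b := by
    rw [hb, Finset.mul_sum]
    exact Finset.sum_congr rfl fun i _ => by rw [← mul_assoc, hfF]
  have hbf : b' * f = b' := by
    rw [hb', Finset.sum_mul]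
    exact Finset.sum_congr rfl fun i _ => by rw [mul_assoc, hFf]
  have hfh : f * h = h := by rw [← hbb, ← mul_assoc, hfb]
  have hhf : h * f = h := by rw [← hbb, mul_assoc, hbf]
  have hφb : φ b = φ f := by
    have e1 : φ b = φ f * φ (∑ i, p i) := by
      rw [hb, map_sum, map_sum, Finset.mul_sum]
      apply Finset.sum_congr rfl
      intro i _
      rw [map_mul, hFφ, mul_assoc, ← map_mul, hpp, if_pos rfl]
    rw [e1, hp1, map_one, mul_one]
  have hφb' : φ b' = φ f := by
    have e1 : φ b' = φ (∑ i, p i) * φ f := by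
      rw [hb', map_sum, map_sum, Finset.sum_mul]
      apply Finset.sum_congr rfl
      intro i _
      rw [map_mul, hFφ, ← hcomm, ← mul_assoc, ← map_mul, hpp, if_pos rfl]
    rw [e1, hp1, map_one, one_mul]
  -- the nilpotent part and the inverse
  obtain ⟨n, hn⟩ : ∃ n : A, n = f - h := ⟨_, rfl⟩
  have hfn : f * n = n := by rw [hn, mul_sub, hff, hfh]
  have hnf : n * f = n := by rw [hn, sub_mul, hff, hhf]
  have hφn : φ n = 0 := by rw [hn, map_sub, ← hbb, map_mul, hφb, hφb', hG, sub_self]
  obtain ⟨k, hk⟩ : ∃ k, n ^ (k + 1) = 0 := by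
    obtain ⟨k, hk⟩ := hnil n (by rw [hfn, hnf]) hφn
    exact ⟨k, by rw [pow_succ, hk, zero_mul]⟩
  have hcfn : Commute f n := by rw [commute_iff_eq, hfn, hnf]
  obtain ⟨w, hw⟩ : ∃ w : A, w = f * ∑ j ∈ Finset.range (k + 1), n ^ j := ⟨_, rfl⟩
  have hcw : ∀ x, x * f = x → f * x = x → x * n = n * x → x * w = w * x := by
    intro x h1 h2 h3
    have h4 : Commute x (∑ j ∈ Finset.range (k + 1), n ^ j) :=
      Commute.sum_right _ _ _ fun j _ => Commute.pow_right h3 j
    have h5 : Commute x f := by rw [commute_iff_eq, h1, h2]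
    rw [hw]
    exact (h5.mul_right h4).eq
  have hfw : f * w = w := by rw [hw, ← mul_assoc, hff]
  have hwf : w * f = w := by rw [← hcw f hff hff hcfn.eq, hfw]
  have hhw : h * w = f := by
    have e1 : h = f - n := by rw [hn]; abel
    have e2 : f * n ^ (k + 1) = 0 := by rw [hk, mul_zero]
    have e3 : (1 - n) * ∑ j ∈ Finset.range (k + 1), n ^ j = 1 := by
      have := mul_neg_geom_sum n (k + 1)
      rw [this, hk, sub_zero]
    have e4 : h = f * (1 - n) := by rw [e1, mul_sub, mul_one, hfn]
    have e5 : h * w = h * ∑ j ∈ Finset.range (k + 1), n ^ j := by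
      rw [hw, ← mul_assoc, hhf]
    rw [e5, e4, mul_assoc, e3, mul_one]
  have hwh : w * h = f := by
    rw [← hcw h hhf hfh, hhw]
    rw [hn, mul_sub, sub_mul, hhf, hfh]
  have hφw : φ w = φ f := by
    have e1 : φ f * φ w * φ f = φ f * φ w := by
      rw [mul_assoc, ← map_mul, hwf]
    have e2 : φ (h * w) = φ f := by rw [hhw]
    rw [map_mul, ← hbb, map_mul, hφb, hφb', hG, ← map_mul, hfw] at e2
    exact e2
  have hcFn : ∀ i, F i * n = n * F i := by
    intro i
    have e1 : F i * h = F i * p i * F i := by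
      rw [← hbb, ← mul_assoc, hFb, mul_assoc, hpb, mul_assoc]
    have e2 : h * F i = F i * p i * F i := by
      rw [← hbb, mul_assoc, hbF, ← mul_assoc, hbp]
    rw [hn, mul_sub, sub_mul, hFf, hfF, e1, e2]
  have hcFw : ∀ i, F i * w = w * F i := fun i => hcw _ (hFf i) (hfF i) (hcFn i)
  have hbw : b * (b' * w) = f := by rw [← mul_assoc, hbb, hhw]
  refine ⟨b' * w * b, ?_, ?_, ?_, ?_, ?_⟩
  · calc b' * w * b * (b' * w * b) = b' * (w * (b * b') * w) * b := by simp only [mul_assoc]
      _ = b' * w * b := by rw [hbb, hwh, hfw]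
  · intro i
    have e1 : b' * w * b * p i = p i * F i * w * (F i * p i) := by
      calc b' * w * b * p i = b' * (w * (b * p i)) := by simp only [mul_assoc]
        _ = b' * (w * F i * p i) := by rw [hbp]; simp only [mul_assoc]
        _ = b' * (F i * (F i * w) * p i) := by
            rw [← mul_assoc (F i) (F i), hFF, if_pos rfl, hcFw]
        _ = b' * F i * (w * F i) * p i := by rw [hcFw]; simp only [mul_assoc]
        _ = p i * F i * w * (F i * p i) := by rw [hbF]; simp only [mul_assoc]
    have e2 : p i * (b' * w * b) = p i * F i * w * (F i * p i) := by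
      calc p i * (b' * w * b) = (p i * b') * (w * b) := by simp only [mul_assoc]
        _ = p i * (F i * w) * b := by rw [hpb]; simp only [mul_assoc]
        _ = p i * (F i * F i * w) * b := by rw [hFF, if_pos rfl]
        _ = p i * F i * (F i * w) * b := by simp only [mul_assoc]
        _ = p i * F i * w * (F i * b) := by rw [hcFw]; simp only [mul_assoc]
        _ = p i * F i * w * (F i * p i) := by rw [hFb]
    rw [e1, e2]
  · rw [map_mul, map_mul, hφb, hφb', hφw, hG, hG]
  · intro x hx hφx
    have h1 : IsNilpotent (w * b * x * b') := by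
      apply hnil
      · calc f * (w * b * x * b') * f = (f * w) * b * x * (b' * f) := by simp only [mul_assoc]
          _ = w * b * x * b' := by rw [hfw, hbf]
      · rw [map_mul, map_mul, hφx, mul_zero, zero_mul]
    obtain ⟨m, hm⟩ := h1
    refine ⟨m + 1, ?_⟩
    have h2 : ∀ m : ℕ, x ^ (m + 1) = b' * (w * b * x * b') ^ (m + 1) * (w * b) := by
      intro m
      induction m with
      | zero =>
        rw [zero_add, pow_one, pow_one]
        conv_lhs => rw [← hx]
        simp only [mul_assoc]
      | succ m ih =>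
        rw [pow_succ, ih]
        calc b' * (w * b * x * b') ^ (m + 1) * (w * b) * x
            = b' * (w * b * x * b') ^ (m + 1) * (w * b) * (b' * w * b * x * (b' * w * b)) := by
              rw [hx]
          _ = b' * (w * b * x * b') ^ (m + 1) * (w * (b * b') * w) * (b * x * b' * w * b) := by
              simp only [mul_assoc]
          _ = b' * (w * b * x * b') ^ (m + 1) * (w * b * x * b') * (w * b) := by
              rw [hbb, hwh, hfw]; simp only [mul_assoc]
          _ = b' * (w * b * x * b') ^ (m + 1 + 1) * (w * b) := by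
              rw [pow_succ _ (m + 1)]; simp only [mul_assoc]
    rw [h2, pow_succ, hm, zero_mul, mul_zero, zero_mul]
  · intro t σ ht htf htp htF hσ
    have hbij : Function.Bijective σ := hσ.bijective
    have htb : t b = b' := by
      rw [hb, map_sum, hb', ← Function.Bijective.sum_comp hbij (fun i => p i * F i)]
      exact Finset.sum_congr rfl fun i _ => by rw [ht.mul, htp, htF]
    have htb' : t b' = b := by rw [← htb, ht.inv]
    have hth : t h = h := by rw [← hbb, ht.mul, htb, htb']
    have htn : t n = n := by rw [hn, map_sub, htf, hth]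
    have htw : t w = w := by
      have e1 : t (∑ j ∈ Finset.range (k + 1), n ^ j) = ∑ j ∈ Finset.range (k + 1), n ^ j := by
        rw [map_sum]
        exact Finset.sum_congr rfl fun j _ => by rw [ht.pow, htn]
      have e2 : Commute f (∑ j ∈ Finset.range (k + 1), n ^ j) :=
        Commute.sum_right _ _ _ fun j _ => Commute.pow_right hcfn j
      rw [hw, ht.mul, e1, htf, e2.eq]
    rw [ht.mul, ht.mul, htb, htb', htw, mul_assoc]

end comm

section tau

variable {A : Type*} [Ring A] [Algebra ℚ A] {S : Type*} [Ring S] {φ : A →+* S} {f g : A}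

omit [Ring S] in
lemma commute_aeval {a x : A} (h : Commute a x) (P : ℚ[X]) : Commute a (aeval x P) := by
  induction P using Polynomial.induction_on' with
  | add f g hf hg => rw [map_add]; exact hf.add_right hg
  | monomial n q =>
    rw [aeval_monomial]
    exact Commute.mul_right (Algebra.commutes q a).symm (h.pow_right n)

/-- Projectors with the same image and nilpotent kernels on the corners are conjugate by an
involution. -/
lemma exists_tau (hf : f * f = f) (hg : g * g = g) (hφ : φ g = φ f)
    (hnf : ∀ x, f * x * f = x → φ x = 0 → IsNilpotent x)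
    (hng : ∀ x, g * x * g = x → φ x = 0 → IsNilpotent x) :
    ∃ τ : A, τ * τ = 1 ∧ τ * f = g * τ ∧ φ τ = 2 * φ f - 1 ∧
      ∀ t : A →+ A, AntiInv t → t f = f → t g = g → t τ = τ := by
  obtain ⟨x, hx⟩ : ∃ x : A, x = (f - g) * (f - g) := ⟨_, rfl⟩
  obtain ⟨z, hz⟩ : ∃ z : A, z = f + g - 1 := ⟨_, rfl⟩
  have hx' : x = f - f * g - g * f + g := by
    rw [hx, sub_mul, mul_sub, mul_sub, hf, hg]; abel
  have hfx : f * x = f - f * g * f := by
    rw [hx', mul_add, mul_sub, mul_sub, hf, ← mul_assoc, ← mul_assoc, hf]; abel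
  have hxf : x * f = f - f * g * f := by
    rw [hx', add_mul, sub_mul, sub_mul, hf, mul_assoc g f f, hf]; abel
  have hgx : g * x = g - g * f * g := by
    rw [hx', mul_add, mul_sub, mul_sub, hg, ← mul_assoc, ← mul_assoc, hg]; abel
  have hxg : x * g = g - g * f * g := by
    rw [hx', add_mul, sub_mul, sub_mul, hg, mul_assoc f g g, hg]; abel
  have hcf : Commute f x := by rw [commute_iff_eq, hfx, hxf]
  have hcg : Commute g x := by rw [commute_iff_eq, hgx, hxg]
  have hφx : φ x = 0 := by rw [hx, map_mul, map_sub, hφ, sub_self, zero_mul]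
  have hzf : z * f = g * z := by
    rw [hz, sub_mul, add_mul, mul_sub, mul_add, hf, hg]; simp
  have hzg : z * g = f * z := by
    rw [hz, sub_mul, add_mul, mul_sub, mul_add, hf, hg]; simp
  have hzz : z * z = 1 - x := by
    rw [hx']
    simp only [hz, sub_mul, add_mul, mul_sub, mul_add, hf, hg, one_mul, mul_one]
    abel
  -- nilpotence
  have hN1 : IsNilpotent (f * x) := by
    apply hnf
    · rw [← mul_assoc, hf, mul_assoc, hxf, mul_sub, hf, ← mul_assoc, ← mul_assoc, hf, hfx]
    · rw [map_mul, hφx, mul_zero]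
  have hN2 : IsNilpotent (g * x) := by
    apply hng
    · rw [← mul_assoc, hg, mul_assoc, hxg, mul_sub, hg, ← mul_assoc, ← mul_assoc, hg, hgx]
    · rw [map_mul, hφx, mul_zero]
  have hN3 : IsNilpotent ((1 - f) * x) := by
    obtain ⟨m, hm⟩ := hN2
    have e0 : (1 - f) * (1 - f) = 1 - f := by
      rw [mul_sub, sub_mul, sub_mul, hf]; simp
    have e1 : (1 - f) * x = (1 - f) * g * (g * (1 - f)) := by
      have e2 : (1 - f) * g * (g * (1 - f)) = g - f * g - g * f + f * g * f := by
        rw [← mul_assoc, mul_assoc (1 - f) g g, hg]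
        simp only [sub_mul, mul_sub, one_mul, mul_one]
        abel
      rw [e2, sub_mul, one_mul, hfx, hx']; abel
    have e3 : g * (1 - f) * ((1 - f) * g) = g * x := by
      rw [← mul_assoc, mul_assoc g, e0, hgx, mul_sub, mul_one, sub_mul, hg]
    refine ⟨m + 1, ?_⟩
    have e4 : ∀ m : ℕ, ((1 - f) * g * (g * (1 - f))) ^ (m + 1) =
        (1 - f) * g * (g * x) ^ m * (g * (1 - f)) := by
      intro m
      induction m with
      | zero => simp
      | succ m ih =>
        rw [pow_succ, ih]
        calc (1 - f) * g * (g * x) ^ m * (g * (1 - f)) * ((1 - f) * g * (g * (1 - f)))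
            = (1 - f) * g * (g * x) ^ m * (g * (1 - f) * ((1 - f) * g)) * (g * (1 - f)) := by
              simp only [mul_assoc]
          _ = _ := by rw [e3, pow_succ (g * x) m]; simp only [mul_assoc]
    rw [e1, e4, hm, mul_zero, zero_mul]
  have hN : IsNilpotent x := by
    have e1 : f * x + (1 - f) * x = x := by rw [sub_mul, one_mul]; abel
    rw [← e1]
    apply Commute.isNilpotent_add _ hN1 hN3
    have e2 : f * x * ((1 - f) * x) = 0 := by
      rw [hcf.eq, mul_assoc, ← mul_assoc f, mul_sub, mul_one, hf, sub_self, zero_mul, mul_zero]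
    have e3 : (1 - f) * x * (f * x) = 0 := by
      rw [mul_assoc, ← mul_assoc x, ← hcf.eq, ← mul_assoc, ← mul_assoc, sub_mul, one_mul, hf,
        sub_self, zero_mul, zero_mul]
    rw [commute_iff_eq, e2, e3]
  -- the square root
  obtain ⟨m, hm⟩ := hN
  obtain ⟨P, Q, hP, hP0⟩ := exists_invsqrt m
  have hy : aeval x P * aeval x P * (1 - x) = 1 := by
    have e1 := congrArg (aeval x) hP
    simp only [map_mul, map_pow, map_sub, map_one, aeval_X, map_add] at e1
    rw [pow_succ x m, hm, zero_mul, zero_mul, add_zero, pow_two] at e1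
    exact e1
  have hcxz : Commute z x := by
    have e1 : x = 1 - z * z := by rw [hzz]; abel
    rw [e1]
    exact (Commute.one_right z).sub_right ((Commute.refl z).mul_right (Commute.refl z))
  have hcyz : Commute z (aeval x P) := commute_aeval hcxz P
  have hcyf : Commute f (aeval x P) := commute_aeval hcf P
  refine ⟨z * aeval x P, ?_, ?_, ?_, ?_⟩
  · calc z * aeval x P * (z * aeval x P) = z * (aeval x P * z) * aeval x P := by
          simp only [mul_assoc]
      _ = z * z * (aeval x P * aeval x P) := by rw [← hcyz.eq]; simp only [mul_assoc]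
      _ = (1 - x) * (aeval x P * aeval x P) := by rw [hzz]
      _ = 1 := by
        have e1 : Commute (1 - x) (aeval x P * aeval x P) := by
          have e2 : Commute (1 - x) (aeval x P) :=
            ((Commute.one_left (aeval x P)).sub_left (commute_aeval (Commute.refl x) P))
          exact e2.mul_right e2
        rw [e1.eq, hy]
  · rw [mul_assoc, ← hcyf.eq, ← mul_assoc, hzf, mul_assoc]
  · have e1 : φ (aeval x P) = 1 := by
      have e2 := Polynomial.divX_mul_X_add P
      rw [← e2, map_add, map_mul, aeval_X, aeval_C, map_add, map_mul, hφx, mul_zero, zero_add,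
        coeff_zero_eq_eval_zero, hP0, map_one, map_one]
    rw [map_mul, e1, mul_one, hz, map_sub, map_add, hφ, map_one, two_mul]
  · intro t ht htf htg
    have htz : t z = z := by rw [hz, map_sub, map_add, htf, htg, ht.one]
    have htx : t x = x := by
      have e1 : x = 1 - z * z := by rw [hzz]; abel
      rw [e1, map_sub, ht.mul, htz, ht.one]
    rw [ht.mul, ht.aeval, htx, htz, hcyz.eq]

end tau

section main

variable {A : Type*} [Ring A] [Algebra ℚ A] {S : Type*} [Ring S] {φ : A →+* S} {f : A}
  {ι : Type*} [Fintype ι] [DecidableEq ι] {p : ι → A} {c : ι → ℚ}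

/-- **Conjugation of a complete system of idempotents to one commuting with `f`**, if the kernel of
`φ` is nil on the corner `f A f`. -/
theorem exists_conj [Nonempty ι] (hf : f * f = f)
    (hpp : ∀ i j, p i * p j = if i = j then p i else 0) (hp1 : ∑ i, p i = 1)
    (hcomm : ∀ i, φ (p i) * φ f = φ f * φ (p i))
    (hnil : ∀ x, f * x * f = x → φ x = 0 → IsNilpotent x) (hc : Function.Injective c) :
    ∃ τ : A, τ * τ = 1 ∧ (∀ i, (τ * p i * τ) * f = f * (τ * p i * τ)) ∧
      (∀ i, φ (τ * p i * τ) = φ (p i)) ∧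
      ∀ (t : A →+ A) (σ : ι → ι), AntiInv t → t f = f → (∀ i, t (p i) = p (σ i)) →
        (∀ i, c (σ i) = -c i) → t τ = τ := by
  obtain ⟨F, hFF, hF1, hFφ, hFt⟩ := exists_spectral hf hpp hp1 hcomm hnil hc
  obtain ⟨g, hgg, hgp, hgφ, hgn, hgt⟩ := exists_commuting hpp hp1 hcomm hnil hFF hF1 hFφ
  obtain ⟨τ, h1, h2, h3, h4⟩ := exists_tau hf hgg hgφ hnil hgn
  have h5 : τ * g = f * τ := by
    calc τ * g = τ * (g * τ) * τ := by rw [mul_assoc, mul_assoc, h1, mul_one]
      _ = τ * τ * (f * τ) := by rw [← h2]; simp only [mul_assoc]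
      _ = f * τ := by rw [h1, one_mul]
  refine ⟨τ, h1, ?_, ?_, ?_⟩
  · intro i
    calc τ * p i * τ * f = τ * (p i * g) * τ := by rw [mul_assoc, h2]; simp only [mul_assoc]
      _ = τ * g * (p i * τ) := by rw [← hgp]; simp only [mul_assoc]
      _ = f * (τ * p i * τ) := by rw [h5]; simp only [mul_assoc]
  · intro i
    have h6 : φ τ * φ (p i) = φ (p i) * φ τ := by
      rw [h3, sub_mul, mul_sub, one_mul, mul_one, two_mul, add_mul, mul_add, hcomm]
    rw [map_mul, map_mul, h6, mul_assoc, ← map_mul, h1, map_one, mul_one]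
  · intro t σ ht htf htp hσ
    have hσσ : Function.Involutive σ := by
      intro i
      apply hc
      rw [hσ, hσ, neg_neg]
    exact h4 t ht htf (hgt t σ ht htf htp (hFt t σ ht htf htp hσ) hσσ)

end main

end Pool.Agent.K3h19.CKD
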