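import Pool.Agent.K3h96.SD.Defs

/-!
# Motives with nilpotent homologically trivial endomorphisms: definitions
-/

open CategoryTheory AlgebraicGeometry

universe u v w

namespace Pool.Agent.K3h19.CKD

open Pool.Agent.H914 Pool.Agent.H914.VarClass Pool.Agent.H914.VarClass.Obj Pool.Agent.W492.BB
  Pool.Agent.W550.Corr Pool.Agent.TH133 Pool.Agent.Y107

variable {k : Type u} [Field k] {𝒱 : VarClass k} {C : TheoryData.{u, v, 0} 𝒱 ℚ}
  {K : Type w} [Field K] (H : WeilTheoryData.{u, v, w} C K)

/-- The homologically trivial endomorphisms of the motive `(Y, f)` are nilpotent: each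
self-correspondence `γ = f ∘ γ ∘ f` of degree zero of `Y` which is homologically trivial satisfies
`γ ∘ ⋯ ∘ γ = 0` (`n` factors) for some `n`. This holds for instance if `(Y, f)` is finite dimensional
in the sense of Kimura and O'Sullivan. -/
def NilpotentEnd {Y : 𝒱.Obj} (f : C.A (Y.prod Y)) : Prop :=
  ∀ γ : C.A (Y.prod Y), C.Deg Y.dim γ → C.comp (C.comp f γ) f = γ → H.cl γ = 0 →
    ∃ n : ℕ, corPow C γ n = 0

/-- The Kunneth components of the motive `(Y, f)` are algebraic: for each `n` there is a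
self-correspondence `p` of degree zero of `Y` acting as `f` on `H^n(Y)` and as zero on `H^m(Y)` for
`m ≠ n`. -/
def AlgebraicKunneth {Y : 𝒱.Obj} (f : C.A (Y.prod Y)) : Prop :=
  ∀ n : ℕ, ∃ p : C.A (Y.prod Y), C.Deg Y.dim p ∧ ∀ (m : ℤ) (a : H.A Y), H.Deg m a →
    H.act (H.cl p) a = if m = n then H.act (H.cl f) a else 0

/-- The family `π` is a Chow-Kunneth decomposition of the motive `(Y, q)`: self-correspondences
`π 0, …, π (2 dim Y)` of degree zero of `Y` which are mutually orthogonal idempotents with sum `q`,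
such that `π i` acts as `q` on `H^i(Y)` and as zero on `H^m(Y)` for `m ≠ i`. -/
structure IsCKOf {Y : 𝒱.Obj} (q : C.A (Y.prod Y)) (π : ℕ → C.A (Y.prod Y)) : Prop where
  deg : ∀ i, C.Deg Y.dim (π i)
  out : ∀ i, 2 * Y.dim < i → π i = 0
  idem : ∀ i, C.comp (π i) (π i) = π i
  orth : ∀ i j, i ≠ j → C.comp (π i) (π j) = 0
  sum : ∑ i ∈ Finset.range (2 * Y.dim + 1), π i = q
  act : ∀ (i : ℕ) (m : ℤ) (a : H.A Y), H.Deg m a →
    H.act (H.cl (π i)) a = if m = i then H.act (H.cl q) a else 0

/-- The complement `Δ_Y - N⁻¹ f^* ∘ f_*` of `h(X)` in `h(Y)` for a morphism `f : Y → X` of degree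
`N`. -/
noncomputable def coverComplement (C : TheoryData.{u, v, 0} 𝒱 ℚ) {X Y : 𝒱.Obj} (f : Y ⟶ X)
    (N : ℚ) : C.A (Y.prod Y) :=
  dg C Y - N⁻¹ • C.comp (C.graph f) (C.cograph f)

/-- There is a morphism `f : Y → X` of varieties of the same dimension, of degree `N ≠ 0`, such that
the complement of `h(X)` in `h(Y)` has nilpotent homologically trivial endomorphisms and algebraic
Kunneth components (for instance the blow-up of a threefold in a point or in a smooth curve). -/
def SmallStep (X Y : 𝒱.Obj) : Prop :=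
  ∃ (f : Y ⟶ X) (N : ℚ), Y.dim = X.dim ∧ N ≠ 0 ∧ C.push f 1 = N • 1 ∧
    NilpotentEnd H (coverComplement C f N) ∧ AlgebraicKunneth H (coverComplement C f N)

end Pool.Agent.K3h19.CKD
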