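import Pool.Agent.K3h96.SD.Tfae
import Pool.Agent.K3h19.CKD.Conj
import Pool.Agent.K3h19.CKD.Defs

/-!
# Chow-Kunneth decompositions compatible with a projector
-/

open CategoryTheory AlgebraicGeometry

universe u v w

namespace Pool.Agent.K3h19.CKD

open Pool.Agent.H914 Pool.Agent.H914.VarClass Pool.Agent.H914.VarClass.Obj Pool.Agent.W492.BB
  Pool.Agent.W550.Corr Pool.Agent.TH133 Pool.Agent.Y107 Pool.Agent.K3h96.SD

set_option linter.unusedSectionVars false

variable {k : Type u} [Field k] {𝒱 : VarClass k}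
  {C : TheoryData.{u, v, 0} 𝒱 ℚ} [hC : IsChowProj C] {X Y : 𝒱.Obj}

section ring

include hC

variable (C Y) in
/-- The transpose on the correspondences of degree zero. -/
noncomputable def tp0 : cor0 C Y →+ cor0 C Y where
  toFun a := ⟨tpR C Y a, tpR_mem a.2⟩
  map_zero' := Subtype.ext (map_zero _)
  map_add' _ _ := Subtype.ext (map_add _ _ _)

lemma tp0_anti : AntiInv (tp0 C Y) where
  mul _ _ := Subtype.ext (tpR_mul _ _)
  one := Subtype.ext tpR_one
  inv _ := Subtype.ext (tpR_tpR _)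

end ring

variable {K : Type w} [Field K] {H : WeilTheoryData.{u, v, w} C K} [hH : IsWeilProj H]

include hC hH

/-- The action of a correspondence of degree zero commutes with those of the members of a
Chow-Kunneth decomposition. -/
lemma act_commute {P : ℕ → Cor C Y} (h : IsCK H Y P) {f : Cor C Y} (hf : f ∈ cor0 C Y) (n : ℕ) :
    actH C Y H (P n) * actH C Y H f = actH C Y H f * actH C Y H (P n) := by
  apply ext_gr H
  intro m a ha
  rw [Module.End.mul_apply, Module.End.mul_apply, h.actH_eq' n m (actH_mem0 hf ha),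
    h.actH_eq' n m ha]
  split_ifs
  · rfl
  · rw [map_zero]

lemma nil_of_act {f : Cor C Y} (hN : NilpotentEnd H (Y := Y) f) {x : Cor C Y}
    (hx0 : x ∈ cor0 C Y) (hx : f * x * f = x) (hφ : actH C Y H x = 0) : IsNilpotent x := by
  have h1 : H.cl (X := Y.prod Y) x = 0 :=
    hom_zero_of_act H (X := Y) (Y := Y) fun a => LinearMap.congr_fun hφ a
  obtain ⟨n, hn⟩ := hN x hx0 (by rw [mul_assoc] at hx; exact hx) h1
  refine ⟨n, ?_⟩
  rw [corPow_eq] at hn
  exact hn

/-- The conjugating involution. -/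
theorem exists_conj_cor {P : ℕ → Cor C Y} (h : IsCK H Y P) {f : Cor C Y} (hf0 : f ∈ cor0 C Y)
    (hf : f * f = f) (hN : NilpotentEnd H (Y := Y) f) :
    ∃ τ ∈ cor0 C Y, τ * τ = 1 ∧ (∀ n, (τ * P n * τ) * f = f * (τ * P n * τ)) ∧
      (∀ n, actH C Y H (τ * P n * τ) = actH C Y H (P n)) ∧
      (tpR C Y f = f → IsSelfDual C (X := Y) P → tpR C Y τ = τ) := by
  let A := cor0 C Y
  let φ : A →+* Module.End K (H.A Y) := (actH C Y H).comp (cor0 C Y).subtype
  let p : Fin (2 * Y.dim + 1) → A := fun i => ⟨P i, h.deg i⟩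
  let c : Fin (2 * Y.dim + 1) → ℚ := fun i => (Y.dim : ℚ) - (i : ℕ)
  have hc : Function.Injective c := by
    intro i j hij
    have h1 : ((i : ℕ) : ℚ) = ((j : ℕ) : ℚ) := by
      simp only [c] at hij
      linarith
    exact Fin.ext (by exact_mod_cast h1)
  have hpp : ∀ i j, p i * p j = if i = j then p i else 0 := by
    intro i j
    apply Subtype.ext
    change P i * P j = _
    rw [h.mul_eq]
    by_cases hij : i = j
    · rw [if_pos hij, if_pos (by rw [hij])]
    · rw [if_neg hij, if_neg (fun h => hij (Fin.ext h))]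
      rfl
  have hp1 : ∑ i, p i = 1 := by
    apply Subtype.ext
    change (((∑ i, p i : A)) : Cor C Y) = 1
    rw [AddSubmonoidClass.coe_finsetSum]
    have h1 : ∑ i : Fin (2 * Y.dim + 1), P i = 1 := by
      rw [Fin.sum_univ_eq_sum_range (fun n => P n)]
      exact h.sum_eq
    exact h1
  obtain ⟨τ, h1, h2, h3, h4⟩ := exists_conj (φ := φ) (f := (⟨f, hf0⟩ : A)) (p := p) (c := c)
    (Subtype.ext hf) hpp hp1 (fun i => act_commute h hf0 i) (by
      rintro ⟨x, hx0⟩ hx hφ
      obtain ⟨n, hn⟩ := nil_of_act hN hx0 (congrArg Subtype.val hx) hφ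
      exact ⟨n, Subtype.ext hn⟩) hc
  have hlt : ∀ n : ℕ, ¬ n < 2 * Y.dim + 1 → P n = 0 := fun n hn => h.out n (by omega)
  refine ⟨τ, τ.2, congrArg Subtype.val h1, ?_, ?_, ?_⟩
  · intro n
    by_cases hn : n < 2 * Y.dim + 1
    · exact congrArg Subtype.val (h2 ⟨n, hn⟩)
    · rw [hlt n hn]; simp
  · intro n
    by_cases hn : n < 2 * Y.dim + 1
    · exact h3 ⟨n, hn⟩
    · rw [hlt n hn]; simp
  · intro htf hsd
    have := h4 (tp0 C Y) Fin.rev tp0_anti (Subtype.ext htf) (by
      intro i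
      apply Subtype.ext
      have e1 : tpR C Y (P i) = P (2 * Y.dim - i) := hsd i (by omega)
      change tpR C Y (P i) = P (Fin.rev i)
      rw [e1, Fin.val_rev]
      congr 1
      omega) (by
      intro i
      simp only [c]
      rw [Fin.val_rev, show 2 * Y.dim + 1 - (i + 1 : ℕ) = 2 * Y.dim - i by omega,
        Nat.cast_sub (by omega)]
      push_cast
      ring)
    exact congrArg Subtype.val this

/-- The conjugate decomposition. -/
theorem isCK_conj {P : ℕ → Cor C Y} (h : IsCK H Y P) {τ : Cor C Y} (hτ0 : τ ∈ cor0 C Y)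
    (hτ : τ * τ = 1) (hφ : ∀ n, actH C Y H (τ * P n * τ) = actH C Y H (P n)) :
    IsCK H Y (fun n => τ * P n * τ : ℕ → Cor C Y) := by
  apply isCK_of (P := (fun n => τ * P n * τ : ℕ → Cor C Y))
  · intro i
    exact (cor0 C Y).mul_mem ((cor0 C Y).mul_mem hτ0 (h.deg i)) hτ0
  · intro i hi
    have : P i = 0 := h.out i hi
    simp only [this]
    rw [mul_zero, zero_mul]
  · intro i j
    calc τ * P i * τ * (τ * P j * τ) = τ * P i * (τ * τ) * P j * τ := by simp only [mul_assoc]
      _ = τ * (P i * P j) * τ := by rw [hτ, mul_one, mul_assoc τ]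
      _ = _ := by
        rw [h.mul_eq]
        split_ifs
        · rfl
        · rw [mul_zero, zero_mul]
  · rw [← Finset.sum_mul, ← Finset.mul_sum, h.sum_eq, mul_one, hτ]
  · intro i m a ha
    rw [hφ, h.actH_eq' i m ha]

/-- **A self-dual Chow-Kunneth decomposition compatible with a projector**, if the homologically
trivial endomorphisms of the complement are nilpotent. -/
theorem exists_compatible {P : ℕ → Cor C Y} (h : IsCK H Y P) {q : Cor C Y} (hq0 : q ∈ cor0 C Y)
    (hq : q * q = q) (hN : NilpotentEnd H (Y := Y) ((1 : Cor C Y) - q)) :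
    ∃ P' : ℕ → Cor C Y, IsCK H Y P' ∧ (∀ n, P' n * q = q * P' n) ∧
      (tpR C Y q = q → IsSelfDual C (X := Y) P → IsSelfDual C (X := Y) P') := by
  have hf0 : (1 : Cor C Y) - q ∈ cor0 C Y := (cor0 C Y).sub_mem (cor0 C Y).one_mem hq0
  have hf : ((1 : Cor C Y) - q) * (1 - q) = 1 - q := by
    rw [mul_sub, sub_mul, sub_mul, hq, one_mul, mul_one, one_mul, sub_self, sub_zero]
  obtain ⟨τ, hτ0, hτ, h1, h2, h3⟩ := exists_conj_cor h hf0 hf hN
  refine ⟨fun n => τ * P n * τ, isCK_conj h hτ0 hτ h2, ?_, ?_⟩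
  · intro n
    have h4 := h1 n
    rw [mul_sub, sub_mul, mul_one, one_mul] at h4
    exact sub_right_injective h4
  · intro htq hsd n hn
    have htτ := h3 (by rw [map_sub, tpR_one, htq]) hsd
    have e1 : tpR C Y (P n) = P (2 * Y.dim - n) := hsd n hn
    change tpR C Y (τ * P n * τ) = τ * P (2 * Y.dim - n) * τ
    rw [tpR_mul, tpR_mul, htτ, e1, mul_assoc]

end Pool.Agent.K3h19.CKD
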