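import Mathlib

/-!
# A Gram-Schmidt process for powers of a class
-/

set_option autoImplicit false

namespace Pool.Agent.K3h19.CKD

section gram

variable {R S : Type*} [CommRing R] [Algebra ℚ R] [CommRing S] [Algebra ℚ S]
  {g : R →ₐ[ℚ] S} {p : S →ₗ[ℚ] R} {DR : ℤ → Submodule ℚ R} {DS : ℤ → Submodule ℚ S}

/-- The classes `∑_{j < i} g(x_j) h^j`. -/
def lower (g : R →ₐ[ℚ] S) (h : S) (i : ℕ) : Submodule ℚ S :=
  Submodule.span ℚ {y | ∃ (x : R) (j : ℕ), j < i ∧ y = g x * h ^ j}

lemma lower_mono {h : S} {i j : ℕ} (hij : i ≤ j) : lower g h i ≤ lower g h j := by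
  apply Submodule.span_mono
  rintro y ⟨x, l, hl, rfl⟩
  exact ⟨x, l, by omega, rfl⟩

lemma mul_lower {h : S} {i : ℕ} (x : R) {y : S} (hy : y ∈ lower g h i) :
    g x * y ∈ lower g h i := by
  induction hy using Submodule.span_induction with
  | zero => rw [mul_zero]; exact Submodule.zero_mem _
  | add a b _ _ ha hb => rw [mul_add]; exact Submodule.add_mem _ ha hb
  | smul q a _ ha => rw [mul_smul_comm]; exact Submodule.smul_mem _ _ ha
  | mem y hy =>
    obtain ⟨x', j, hj, rfl⟩ := hy
    refine Submodule.subset_span ⟨x * x', j, hj, ?_⟩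
    rw [map_mul, mul_assoc]

lemma basis_lower {h : S} {i j : ℕ} (hij : i < j) (x : R) {y : S} (hy : y - h ^ i ∈ lower g h i) :
    g x * y ∈ lower g h j := by
  have h1 : y = (y - h ^ i) + h ^ i := by ring
  rw [h1, mul_add]
  refine Submodule.add_mem _ (lower_mono hij.le (mul_lower x hy)) ?_
  exact Submodule.subset_span ⟨x, i, hij, rfl⟩

theorem gram_schmidt (hpg : ∀ x y, p (g x * y) = x * p y)
    (hmul : ∀ i j x y, x ∈ DS i → y ∈ DS j → x * y ∈ DS (i + j))
    (hone : (1 : S) ∈ DS 0) (hg : ∀ i x, x ∈ DR i → g x ∈ DS i) {r : ℕ}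
    (hp0 : ∀ i y, y ∈ DS i → i < r → p y = 0)
    (hpd : ∀ i y, y ∈ DS i → p y ∈ DR (i - r)) {h : S} (hh : h ∈ DS 1) {N : ℚ} (hN : N ≠ 0)
    (hhr : p (h ^ r) = N • (1 : R)) (m : ℕ) (hm : m ≤ r + 1) :
    ∃ β : ℕ → S, ∀ i < m, β i ∈ DS i ∧ p (β i * h ^ (r - i)) = N • (1 : R) ∧
      β i - h ^ i ∈ lower g h i ∧
      ∀ j < m, p (β i * β j) = if i + j = r then N • (1 : R) else 0 := by
  have hpow : ∀ i : ℕ, h ^ i ∈ DS i := by
    intro i
    induction i with
    | zero => simpa using hone
    | succ i ih =>
      rw [pow_succ]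
      have := hmul _ _ _ _ ih hh
      rwa [show (i : ℤ) + 1 = ((i + 1 : ℕ) : ℤ) by push_cast; rfl] at this
  induction m with
  | zero => exact ⟨fun _ => 0, fun i hi => absurd hi (by omega)⟩
  | succ m ih =>
    obtain ⟨β, hβ⟩ := ih (by omega)
    have hd : ∀ i < m, β i ∈ DS i := fun i hi => (hβ i hi).1
    have hr : ∀ i < m, p (β i * h ^ (r - i)) = N • (1 : R) := fun i hi => (hβ i hi).2.1
    have hl : ∀ i < m, β i - h ^ i ∈ lower g h i := fun i hi => (hβ i hi).2.2.1
    have hβ2 : ∀ i < m, ∀ j < m, p (β i * β j) = if i + j = r then N • (1 : R) else 0 :=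
      fun i hi => (hβ i hi).2.2.2
    -- it is enough to find the next class
    have key : ∀ y : S, y ∈ DS m → p (y * h ^ (r - m)) = N • (1 : R) → y - h ^ m ∈ lower g h m →
        (∀ j < m, p (β j * y) = if j + m = r then N • (1 : R) else 0) →
        p (y * y) = (if m + m = r then N • (1 : R) else 0) →
        ∃ β : ℕ → S, ∀ i < m + 1, β i ∈ DS i ∧ p (β i * h ^ (r - i)) = N • (1 : R) ∧
          β i - h ^ i ∈ lower g h i ∧
          ∀ j < m + 1, p (β i * β j) = if i + j = r then N • (1 : R) else 0 := by
      intro y hy1 hy2 hy3 hy4 hy5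
      refine ⟨fun i => if i = m then y else β i, fun i hi => ?_⟩
      by_cases him : i = m
      · subst him
        simp only [if_true]
        refine ⟨hy1, hy2, hy3, fun j hj => ?_⟩
        by_cases hji : j = i
        · subst hji
          rw [if_pos rfl, hy5]
        · rw [if_neg hji, mul_comm, hy4 j (by omega), add_comm]
      · simp only [if_neg him]
        refine ⟨hd i (by omega), hr i (by omega), hl i (by omega), fun j hj => ?_⟩
        by_cases hji : j = m
        · subst hji
          rw [if_pos rfl, hy4 i (by omega)]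
        · rw [if_neg hji, hβ2 i (by omega) j (by omega)]
    by_cases h2m : 2 * m ≤ r
    · refine key (h ^ m) (hpow m) ?_ ?_ ?_ ?_
      · rw [← pow_add, show m + (r - m) = r by omega, hhr]
      · rw [sub_self]; exact Submodule.zero_mem _
      · intro j hj
        rw [if_neg (by omega)]
        exact hp0 _ _ (hmul _ _ _ _ (hd j hj) (hpow m)) (by omega)
      · by_cases h3 : m + m = r
        · rw [if_pos h3, ← pow_add, h3, hhr]
        · rw [if_neg h3]
          exact hp0 _ _ (hmul _ _ _ _ (hpow m) (hpow m)) (by omega)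
    · -- the general step
      obtain ⟨x, hx⟩ : ∃ x : ℕ → R, x = fun j => -(N⁻¹ • p (β (r - j) * h ^ m)) := ⟨_, rfl⟩
      obtain ⟨J, hJ⟩ : ∃ J : Finset ℕ, J = (Finset.range m).filter (fun j => r - m < j) :=
        ⟨_, rfl⟩
      have hJm : ∀ j ∈ J, j < m ∧ r - m < j := by
        intro j hj
        rw [hJ, Finset.mem_filter, Finset.mem_range] at hj
        exact hj
      obtain ⟨u, hu⟩ : ∃ u : S, u = h ^ m + ∑ j ∈ J, g (x j) * β j := ⟨_, rfl⟩
      have hxd : ∀ j ∈ J, x j ∈ DR ((m : ℤ) - j) := by
        intro j hj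
        have h2 := hJm j hj
        rw [hx]
        refine Submodule.neg_mem _ (Submodule.smul_mem _ _ ?_)
        have h3 := hpd _ _ (hmul _ _ _ _ (hd (r - j) (by omega)) (hpow m))
        rwa [show ((r - j : ℕ) : ℤ) + m - r = m - j by omega] at h3
      have hud : u ∈ DS m := by
        rw [hu]
        refine Submodule.add_mem _ (hpow m) (Submodule.sum_mem _ fun j hj => ?_)
        have h3 := hmul _ _ _ _ (hg _ _ (hxd j hj)) (hd j (hJm j hj).1)
        rwa [show (m : ℤ) - j + j = m by ring] at h3
      have hul : u - h ^ m ∈ lower g h m := by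
        rw [hu, add_sub_cancel_left]
        exact Submodule.sum_mem _ fun j hj =>
          basis_lower (hJm j hj).1 _ (hl j (hJm j hj).1)
      have hur : p (u * h ^ (r - m)) = N • (1 : R) := by
        rw [hu, add_mul, map_add, ← pow_add, show m + (r - m) = r by omega, hhr, Finset.sum_mul,
          map_sum, Finset.sum_eq_zero, add_zero]
        intro j hj
        have h2 := hJm j hj
        rw [mul_assoc, hpg, hp0 _ _ (hmul _ _ _ _ (hd j h2.1) (hpow _)) (by omega), mul_zero]
      have hβu : ∀ l < m, p (β l * u) = if l = r - m then N • (1 : R) else 0 := by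
        intro l hlm
        have e1 : p (β l * u) = p (β l * h ^ m) + ∑ j ∈ J, x j * p (β l * β j) := by
          rw [hu, mul_add, map_add, Finset.mul_sum, map_sum]
          congr 1
          apply Finset.sum_congr rfl
          intro j _
          rw [← mul_assoc, mul_comm (β l), mul_assoc, hpg]
        rw [e1]
        rcases lt_trichotomy l (r - m) with h2 | h2 | h2
        · rw [if_neg (by omega), hp0 _ _ (hmul _ _ _ _ (hd l hlm) (hpow m)) (by omega), zero_add]
          apply Finset.sum_eq_zero
          intro j hj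
          have h3 := hJm j hj
          rw [hβ2 l hlm j h3.1, if_neg (by omega), mul_zero]
        · rw [if_pos h2]
          have h4 : p (β l * h ^ m) = N • (1 : R) := by
            have := hr l hlm
            rwa [show r - l = m by omega] at this
          rw [h4, Finset.sum_eq_zero, add_zero]
          intro j hj
          have h3 := hJm j hj
          rw [hβ2 l hlm j h3.1, if_neg (by omega), mul_zero]
        · rw [if_neg (by omega)]
          have h3 : r - l ∈ J := by
            rw [hJ, Finset.mem_filter, Finset.mem_range]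
            omega
          rw [Finset.sum_eq_single (r - l)]
          · rw [hβ2 l hlm _ (by omega), if_pos (by omega), hx]
            simp only
            rw [show r - (r - l) = l by omega, mul_smul_comm, mul_one, smul_neg, smul_smul,
              mul_inv_cancel₀ hN, one_smul, add_neg_cancel]
          · intro j hj hjl
            have h4 := hJm j hj
            rw [hβ2 l hlm j h4.1, if_neg (by omega), mul_zero]
          · intro h4; exact absurd h3 h4
      have hi' : r - m < m := by omega
      obtain ⟨w, hw⟩ : ∃ w : R, w = -((2 * N)⁻¹ • p (u * u)) := ⟨_, rfl⟩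
      have hwd : w ∈ DR ((m : ℤ) - (r - m : ℕ)) := by
        rw [hw]
        refine Submodule.neg_mem _ (Submodule.smul_mem _ _ ?_)
        have h3 := hpd _ _ (hmul _ _ _ _ hud hud)
        rwa [show (m : ℤ) + m - r = m - (r - m : ℕ) by omega] at h3
      refine key (u + g w * β (r - m)) ?_ ?_ ?_ ?_ ?_
      · refine Submodule.add_mem _ hud ?_
        have h3 := hmul _ _ _ _ (hg _ _ hwd) (hd (r - m) hi')
        rwa [show (m : ℤ) - (r - m : ℕ) + (r - m : ℕ) = m by ring] at h3
      · rw [add_mul, map_add, hur, mul_assoc, hpg,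
          hp0 _ _ (hmul _ _ _ _ (hd _ hi') (hpow _)) (by omega), mul_zero, add_zero]
      · rw [add_sub_right_comm]
        exact Submodule.add_mem _ hul (basis_lower hi' _ (hl _ hi'))
      · intro j hj
        have e2 : p (β j * (g w * β (r - m))) = 0 := by
          rw [← mul_assoc, mul_comm (β j), mul_assoc, hpg, hβ2 j hj _ hi', if_neg (by omega),
            mul_zero]
        rw [mul_add, map_add, hβu j hj, e2, add_zero]
        by_cases h2 : j = r - m
        · rw [if_pos h2, if_pos (by omega)]
        · rw [if_neg h2, if_neg (by omega)]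
      · rw [if_neg (by omega)]
        have e1 : (u + g w * β (r - m)) * (u + g w * β (r - m)) =
            u * u + (g w * (β (r - m) * u) + g w * (β (r - m) * u)) +
              g (w * w) * (β (r - m) * β (r - m)) := by
          rw [map_mul]; ring
        rw [e1, map_add, map_add, map_add, hpg, hpg, hβu _ hi', if_pos rfl, hβ2 _ hi' _ hi',
          if_neg (by omega), mul_zero, add_zero, hw]
        rw [mul_smul_comm, mul_one, smul_neg, smul_smul, ← neg_add, ← add_smul,
          show N * (2 * N)⁻¹ + N * (2 * N)⁻¹ = 1 by field_simp; norm_num, one_smul,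
          add_neg_cancel]

end gram

end Pool.Agent.K3h19.CKD
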