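import Pool.Agent.K3h96.SD.Crit

/-!
# Self-dual Chow-Kunneth decompositions: where the lower half lies

Variants of `selfDual_of_half` (TH133) and `exists_of_skew` (K3h96) which record the components.
-/

open CategoryTheory AlgebraicGeometry

universe u v w

namespace Pool.Agent.K3h19.CKD

open Pool.Agent.H914 Pool.Agent.H914.VarClass Pool.Agent.H914.VarClass.Obj Pool.Agent.W492.BB
  Pool.Agent.W550.Corr Pool.Agent.TH133 Pool.Agent.Y107 Pool.Agent.K3h96.SD

set_option linter.unusedSectionVars false

/-- The idempotent for an eigenvalue `c ≠ 0` of `s` is a left multiple of `s`. -/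
lemma mem_of_idem {R : Type v} [Ring R] [Algebra ℚ R] {s : R} {e : ℚ → R} {t : R → R}
    (h7 : ∀ {K : Type w} {V : Type v} [Field K] [AddCommGroup V] [Module K V]
      (φ : R →+* Module.End K V) (v : V) (c' : ℚ), (φ s) v = (c' : K) • v →
        (∀ c, (φ (e c)) v = if c' = c then v else 0) ∧
        (∀ c, (φ (t (e c))) v = if c' = -c then v else 0)) {c : ℚ} (hc : c ≠ 0) :
    ∃ y : R, y * s = e c := by
  let V := R ⧸ (Submodule.span R {s} : Submodule R R)
  haveI : SMulCommClass R (ULift.{w} ℚ) V := ⟨fun r q x => by
    change r • (q.down • x) = q.down • (r • x)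
    rw [smul_comm]⟩
  have h1 := h7 (K := ULift.{w} ℚ) (V := V) (Module.toModuleEnd (ULift.{w} ℚ) (S := R) V)
    (Submodule.Quotient.mk 1) 0 ?_
  · have h2 := h1.1 c
    rw [if_neg (Ne.symm hc)] at h2
    have h3 : (Submodule.Quotient.mk (e c) : V) = 0 := by
      have h4 : (Submodule.Quotient.mk (e c) : V) = e c • Submodule.Quotient.mk 1 := by
        rw [← Submodule.Quotient.mk_smul, smul_eq_mul, mul_one]
      rw [h4]
      exact h2
    rw [Submodule.Quotient.mk_eq_zero, Submodule.mem_span_singleton] at h3
    exact h3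
  · have h4 : (s • Submodule.Quotient.mk 1 : V) = 0 := by
      rw [← Submodule.Quotient.mk_smul, smul_eq_mul, mul_one, Submodule.Quotient.mk_eq_zero]
      exact Submodule.mem_span_singleton_self s
    rw [Rat.cast_zero, zero_smul]
    exact h4

variable {k : Type u} [Field k] {𝒱 : VarClass k}
  {C : TheoryData.{u, v, 0} 𝒱 ℚ} [hC : IsChowProj C] {K : Type w} [Field K]
  {H : WeilTheoryData.{u, v, w} C K} [hH : IsWeilProj H] {X : 𝒱.Obj}

include hC hH

/-- A self-dual Chow-Kunneth decomposition from its first half. -/
theorem selfDual_of_half' (q : ℕ → Cor C X) (hm : ∀ n, q n ∈ cor0 C X)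
    (hout : ∀ n, X.dim ≤ n → q n = 0)
    (hqq : ∀ m n, q m * q n = if m = n then q m else 0)
    (h1 : ∀ m n, q m * tpR C X (q n) = 0) (h2 : ∀ m n, tpR C X (q m) * q n = 0)
    (hact : ∀ (n : ℕ) (m : ℤ) (a : H.A X), n < X.dim → a ∈ H.gr X m →
      actH C X H (q n) a = if m = n then a else 0)
    (hact' : ∀ (n : ℕ) (m : ℤ) (a : H.A X), n < X.dim → a ∈ H.gr X m →
      actH C X H (tpR C X (q n)) a = if m = (2 * X.dim - n : ℕ) then a else 0) :
    ∃ π, IsCK H X π ∧ IsSelfDual C π ∧ ∀ n < X.dim, π n = q n := by
  set d := X.dim with hd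
  have htt : ∀ m n, tpR C X (q m) * tpR C X (q n) = if m = n then tpR C X (q m) else 0 := by
    intro m n
    rw [← tpR_mul, hqq]
    by_cases h : n = m
    · rw [if_pos h, if_pos h.symm, h]
    · rw [if_neg h, if_neg (Ne.symm h), map_zero]
  let e : Cor C X := ∑ n ∈ Finset.range d, (q n + tpR C X (q n))
  have hqe : ∀ m < d, q m * e = q m := by
    intro m hm'
    simp only [e]
    rw [Finset.mul_sum, Finset.sum_eq_single m]
    · rw [mul_add, hqq, if_pos rfl, h1, add_zero]
    · intro n _ hn
      rw [mul_add, hqq, if_neg (Ne.symm hn), h1, add_zero]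
    · intro h
      exact absurd (Finset.mem_range.2 hm') h
  have heq : ∀ m < d, e * q m = q m := by
    intro m hm'
    simp only [e]
    rw [Finset.sum_mul, Finset.sum_eq_single m]
    · rw [add_mul, hqq, if_pos rfl, h2, add_zero]
    · intro n _ hn
      rw [add_mul, hqq, if_neg hn, h2, add_zero]
    · intro h
      exact absurd (Finset.mem_range.2 hm') h
  have hte : ∀ m < d, tpR C X (q m) * e = tpR C X (q m) := by
    intro m hm'
    simp only [e]
    rw [Finset.mul_sum, Finset.sum_eq_single m]
    · rw [mul_add, htt, if_pos rfl, h2, zero_add]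
    · intro n _ hn
      rw [mul_add, htt, if_neg (Ne.symm hn), h2, add_zero]
    · intro h
      exact absurd (Finset.mem_range.2 hm') h
  have het : ∀ m < d, e * tpR C X (q m) = tpR C X (q m) := by
    intro m hm'
    simp only [e]
    rw [Finset.sum_mul, Finset.sum_eq_single m]
    · rw [add_mul, htt, if_pos rfl, h1, zero_add]
    · intro n _ hn
      rw [add_mul, htt, if_neg hn, h1, add_zero]
    · intro h
      exact absurd (Finset.mem_range.2 hm') h
  have hee : e * e = e := by
    have : e * e = ∑ n ∈ Finset.range d, (q n + tpR C X (q n)) * e := by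
      rw [← Finset.sum_mul]
    rw [this]
    apply Finset.sum_congr rfl
    intro n hn
    rw [Finset.mem_range] at hn
    rw [add_mul, hqe n hn, hte n hn]
  have hem : e ∈ cor0 C X := (cor0 C X).sum_mem fun n _ =>
    (cor0 C X).add_mem (hm n) (tpR_mem (hm n))
  let Q : ℕ → Cor C X := fun n => if n < d then q n else if n = d then 1 - e else
    if n ≤ 2 * d then tpR C X (q (2 * d - n)) else 0
  have Q1 : ∀ n < d, Q n = q n := fun n hn => by simp only [Q]; rw [if_pos hn]
  have Q2 : Q d = 1 - e := by simp [Q]
  have Q3 : ∀ n, d < n → n ≤ 2 * d → Q n = tpR C X (q (2 * d - n)) := fun n hn hn' => by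
    simp only [Q]; rw [if_neg (by omega), if_neg (by omega), if_pos hn']
  have Q4 : ∀ n, 2 * d < n → Q n = 0 := fun n hn => by
    simp only [Q]; rw [if_neg (by omega), if_neg (by omega), if_neg (by omega)]
  have Qcases : ∀ n, n < d ∨ n = d ∨ (d < n ∧ n ≤ 2 * d) ∨ 2 * d < n := fun n => by omega
  have Qe : ∀ n, n ≠ d → Q n * e = Q n ∧ e * Q n = Q n := by
    intro n hn
    rcases Qcases n with h | h | h | h
    · rw [Q1 n h]; exact ⟨hqe n h, heq n h⟩
    · exact absurd h hn
    · rw [Q3 n h.1 h.2]; exact ⟨hte _ (by omega), het _ (by omega)⟩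
    · rw [Q4 n h]; exact ⟨zero_mul _, mul_zero _⟩
  have Qsum : ∑ n ∈ Finset.range (2 * d + 1), Q n = 1 := by
    have e1 : Finset.range (2 * d + 1) = Finset.range (d + (d + 1)) := by congr 1; omega
    rw [e1, Finset.sum_range_add, Finset.sum_range_succ']
    have e2 : ∑ x ∈ Finset.range d, Q x = ∑ x ∈ Finset.range d, q x :=
      Finset.sum_congr rfl fun x hx => Q1 x (Finset.mem_range.1 hx)
    have e3 : ∑ x ∈ Finset.range d, Q (d + (x + 1)) = ∑ x ∈ Finset.range d, tpR C X (q x) := by
      rw [← Finset.sum_range_reflect (fun x => tpR C X (q x))]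
      apply Finset.sum_congr rfl
      intro x hx
      rw [Finset.mem_range] at hx
      rw [Q3 _ (by omega) (by omega)]
      congr 2
      omega
    rw [e2, e3, add_zero, Q2]
    simp only [e]
    rw [Finset.sum_add_distrib]
    abel
  refine ⟨Q, isCK_of ?_ ?_ ?_ ?_ ?_, ?_, Q1⟩
  · intro n
    rcases Qcases n with h | h | h | h
    · rw [Q1 n h]; exact hm n
    · rw [h, Q2]; exact (cor0 C X).sub_mem (cor0 C X).one_mem hem
    · rw [Q3 n h.1 h.2]; exact tpR_mem (hm _)
    · rw [Q4 n h]; exact (cor0 C X).zero_mem
  · exact Q4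
  · intro m n
    by_cases hmd : m = d
    · rw [hmd]
      by_cases hnd : n = d
      · rw [if_pos hnd.symm, hnd, Q2, mul_sub, mul_one, sub_mul, one_mul, hee, sub_self,
          sub_zero]
      · rw [if_neg (Ne.symm hnd), Q2, sub_mul, one_mul, (Qe n hnd).2, sub_self]
    · by_cases hnd : n = d
      · rw [if_neg (by omega), hnd, Q2, mul_sub, mul_one, (Qe m hmd).1, sub_self]
      · rcases Qcases m with h | h | h | h
        · rw [Q1 m h]
          rcases Qcases n with h' | h' | h' | h'
          · rw [Q1 n h', hqq]
          · exact absurd h' hnd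
          · rw [Q3 n h'.1 h'.2, h1, if_neg (by omega)]
          · rw [Q4 n h', mul_zero, if_neg (by omega)]
        · exact absurd h hmd
        · rw [Q3 m h.1 h.2]
          rcases Qcases n with h' | h' | h' | h'
          · rw [Q1 n h', h2, if_neg (by omega)]
          · exact absurd h' hnd
          · rw [Q3 n h'.1 h'.2, htt]
            by_cases hmn : m = n
            · rw [if_pos (by omega), if_pos hmn]
            · rw [if_neg (by omega), if_neg hmn]
          · rw [Q4 n h', mul_zero, if_neg (by omega)]
        · rw [Q4 m h, zero_mul]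
          split_ifs
          · rfl
          · rfl
  · exact Qsum
  · have hact2 : ∀ (n : ℕ) (m : ℤ) (a : H.A X), n ≠ d → a ∈ H.gr X m →
        actH C X H (Q n) a = if m = n then a else 0 := by
      intro n m a hn ha
      rcases Qcases n with h | h | h | h
      · rw [Q1 n h, hact n m a h ha]
      · exact absurd h hn
      · rw [Q3 n h.1 h.2, hact' _ m a (by omega) ha]
        congr 1
        rw [show 2 * X.dim - (2 * d - n) = n by omega]
      · rw [Q4 n h, map_zero, LinearMap.zero_apply]
        split_ifs with hmn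
        · rw [hmn, gr_top H (by omega)] at ha
          exact ((Submodule.mem_bot _).1 ha).symm
        · rfl
    intro n m a ha
    by_cases hn : n = d
    · have h3 : actH C X H (∑ n ∈ Finset.range (2 * d + 1), Q n) a = a := by
        rw [Qsum, map_one]; rfl
      rw [map_sum, LinearMap.sum_apply, ← Finset.add_sum_erase _ _
        (Finset.mem_range.2 (show n < 2 * d + 1 by omega))] at h3
      have h4 : ∀ j ∈ (Finset.range (2 * d + 1)).erase n, actH C X H (Q j) a =
          if m = j then a else 0 := fun j hj => hact2 j m a (by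
            rw [Finset.mem_erase] at hj
            rw [← hn]; exact hj.1) ha
      rw [Finset.sum_congr rfl h4] at h3
      by_cases hmn : m = n
      · rw [Finset.sum_eq_zero, add_zero] at h3
        · rw [h3, if_pos hmn]
        · intro j hj
          rw [Finset.mem_erase] at hj
          rw [if_neg]
          intro h5
          apply hj.1
          exact_mod_cast (h5.symm.trans hmn)
      · rw [if_neg hmn]
        by_cases ha0 : a = 0
        · rw [ha0, map_zero]
        · have hm0 := nonneg_of_mem H ha ha0
          have hm1 : m ≤ 2 * X.dim := by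
            by_contra hcon
            rw [gr_top H (by omega)] at ha
            exact ha0 ((Submodule.mem_bot _).1 ha)
          obtain ⟨m, rfl⟩ := Int.eq_ofNat_of_zero_le hm0
          rw [Finset.sum_eq_single m] at h3
          · rw [if_pos rfl] at h3
            exact add_eq_right.1 h3
          · intro j _ hj
            rw [if_neg]
            intro h5
            apply hj
            exact_mod_cast h5.symm
          · intro h5
            exfalso
            apply h5
            rw [Finset.mem_erase, Finset.mem_range]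
            constructor
            · intro h6
              apply hmn
              rw [h6]
            · omega
    · exact hact2 n m a hn ha
  · intro n hn
    change tpR C X (Q n) = Q (2 * d - n)
    rcases Qcases n with h | h | h | h
    · by_cases hn0 : n < d
      · rw [Q1 n h, Q3 _ (by omega) (by omega)]
        congr 2
        omega
      · omega
    · rw [h, show 2 * d - d = d by omega, Q2, map_sub, tpR_one]
      congr 1
      simp only [e]
      rw [map_sum]
      apply Finset.sum_congr rfl
      intro x _
      rw [map_add, tpR_tpR, add_comm]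
    · rw [Q3 n h.1 h.2, tpR_tpR, Q1 _ (by omega)]
    · omega

/-- A self-dual Chow-Kunneth decomposition from an algebraic skew correspondence acting by the
weight. -/
theorem exists_of_skew' (s : Cor C X) (hs0 : s ∈ cor0 C X) (hts : tpR C X s = -s)
    (hw : ActsByWeight H (X := X) s) (hs : IsAlgebraic ℚ s) :
    ∃ π, IsCK H X π ∧ IsSelfDual C π ∧ ∀ n < X.dim, ∃ y : Cor C X, (y * s : Cor C X) = π n := by
  obtain ⟨e, h1, h2, h3, h4, h5, h6, h7⟩ := exists_idem (tpR C X) tpR_one tpR_mul tpR_smul hs hts
  have hadj : ∀ x ∈ Algebra.adjoin ℚ {s}, x ∈ cor0 C X := by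
    intro x hx
    exact (Algebra.adjoin_le (by simpa using hs0) : Algebra.adjoin ℚ {s} ≤ cor0 C X) hx
  have hpos : ∀ n < X.dim, (0 : ℚ) < (X.dim : ℚ) - n := by
    intro n hn
    have : (n : ℚ) < X.dim := by exact_mod_cast hn
    linarith
  have hsm : ∀ (m : ℤ) (a : H.A X), a ∈ H.gr X m →
      actH C X H s a = (((X.dim : ℚ) - m : ℚ) : K) • a := by
    intro m a ha
    have h := hw m a ha
    rw [actH_apply, h, show ((X.dim : ℚ) - m : ℚ) = (((X.dim : ℤ) - m : ℤ) : ℚ) by push_cast; rfl,
      Rat.cast_intCast]
  have hq : ∀ c : ℚ, c ≠ 0 → ∃ y : Cor C X, y * s = e c := fun c hc => mem_of_idem h7 hc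
  refine (selfDual_of_half' (H := H) (fun n => if n < X.dim then e ((X.dim : ℚ) - n) else 0) ?_ ?_
    ?_ ?_ ?_ ?_ ?_).imp fun π hπ => ⟨hπ.1, hπ.2.1, fun n hn => by
      obtain ⟨y, hy⟩ := hq _ (hpos n hn).ne'
      refine ⟨y, ?_⟩
      rw [hy, hπ.2.2 n hn]
      simp only [if_pos hn]⟩
  · intro n
    split_ifs
    · exact hadj _ (h1 _)
    · exact (cor0 C X).zero_mem
  · intro n hn
    rw [if_neg (by omega)]
  · intro m n
    by_cases hm : m < X.dim
    · by_cases hn : n < X.dim
      · rw [if_pos hm, if_pos hn]
        by_cases hmn : m = n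
        · rw [if_pos hmn, hmn, h2]
        · rw [if_neg hmn]
          apply h3
          intro h
          apply hmn
          have : (m : ℚ) = n := by linarith
          exact_mod_cast this
      · rw [if_neg hn, mul_zero]
        split_ifs with h
        · omega
        · rfl
    · rw [if_neg hm, zero_mul]
      split_ifs <;> rfl
  · intro m n
    split_ifs with hm hn hn
    · exact h4 _ _ (hpos m hm) (hpos n hn)
    · rw [map_zero, mul_zero]
    · rw [zero_mul]
    · rw [zero_mul]
  · intro m n
    split_ifs with hm hn hn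
    · exact h5 _ _ (hpos m hm) (hpos n hn)
    · rw [mul_zero]
    · rw [map_zero, zero_mul]
    · rw [map_zero, zero_mul]
  · intro n m a hn ha
    rw [if_pos hn, (h7 (actH C X H) a _ (hsm m a ha)).1]
    by_cases hmn : m = n
    · rw [if_pos hmn, if_pos (by rw [hmn]; push_cast; rfl)]
    · rw [if_neg hmn, if_neg]
      intro h
      apply hmn
      have : (m : ℚ) = n := by linarith
      exact_mod_cast this
  · intro n m a hn ha
    rw [if_pos hn, (h7 (actH C X H) a _ (hsm m a ha)).2]
    have e1 : (((2 * X.dim - n : ℕ) : ℤ) : ℚ) = 2 * X.dim - n := by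
      rw [Int.cast_natCast, Nat.cast_sub (by omega)]
      push_cast; rfl
    by_cases hmn : m = (2 * X.dim - n : ℕ)
    · rw [if_pos hmn, if_pos]
      rw [hmn, e1]; ring
    · rw [if_neg hmn, if_neg]
      intro h
      apply hmn
      have : (m : ℚ) = ((2 * X.dim - n : ℕ) : ℤ) := by rw [e1]; linarith
      exact_mod_cast this

end Pool.Agent.K3h19.CKD
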