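import Pool.Agent.K3h19.CKD.Motive

/-!
# Hyperbolic summands and morphisms
-/

open CategoryTheory AlgebraicGeometry

universe u v w

namespace Pool.Agent.K3h19.CKD

open Pool.Agent.H914 Pool.Agent.H914.VarClass Pool.Agent.H914.VarClass.Obj Pool.Agent.W492.BB
  Pool.Agent.W550.Corr Pool.Agent.TH133 Pool.Agent.Y107 Pool.Agent.K3h96.SD

set_option linter.unusedSectionVars false

variable {k : Type u} [Field k] {𝒱 : VarClass k}
  {C : TheoryData.{u, v, 0} 𝒱 ℚ} {X Y : 𝒱.Obj}

/-- `x ↦ N⁻¹ a ∘ x ∘ b^t`. -/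
noncomputable def thA (a b : C.A (X.prod Y)) (N : ℚ) (x : C.A (X.prod X)) : C.A (Y.prod Y) :=
  N⁻¹ • C.comp (tp C b) (C.comp x a)

/-- `x ↦ N⁻¹ a ∘ x ∘ b^t`. -/
noncomputable def th (a b : C.A (X.prod Y)) (N : ℚ) : Cor C X →ₗ[ℚ] Cor C Y where
  toFun x := thA a b N x
  map_add' x y := by
    have h1 : ∀ x y : C.A (X.prod X), thA a b N (x + y) = thA a b N x + thA a b N y := by
      intro x y
      rw [thA, add_comp, comp_add, smul_add]; rfl
    exact h1 x y
  map_smul' q x := by
    have h1 : ∀ x : C.A (X.prod X), thA a b N (q • x) = q • thA a b N x := by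
      intro x
      rw [thA, smul_comp', comp_smul', smul_comm]; rfl
    exact h1 x

variable [hC : IsChowProj C]

include hC

variable {a b : C.A (X.prod Y)} {N : ℚ}

lemma thA_comp (hN : N ≠ 0) (hab : C.comp a (tp C b) = N • dg C X) (x y : C.A (X.prod X)) :
    thA a b N (C.comp y x) = C.comp (thA a b N y) (thA a b N x) := by
  rw [thA, thA, thA, smul_comp', comp_smul', comp_assoc C (tp C b), comp_assoc C y a,
    ← comp_assoc C a (tp C b), hab, smul_comp', dg_comp, comp_smul', comp_smul',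
    comp_assoc C y x]
  rw [smul_smul N⁻¹ N, inv_mul_cancel₀ hN, one_smul]

lemma th_mul (hN : N ≠ 0) (hab : C.comp a (tp C b) = N • dg C X) (x y : Cor C X) :
    th a b N (x * y) = th a b N x * th a b N y := thA_comp hN hab x y

lemma thA_tp (x : C.A (X.prod X)) : tp C (thA a b N x) = thA b a N (tp C x) := by
  rw [thA, thA, tp_smul, tp_comp C (ch_comm C), tp_comp C (ch_comm C), tp_tp, comp_assoc C]

lemma th_tp (x : Cor C X) : tpR C Y (th a b N x) = th b a N (tpR C X x) := thA_tp _

lemma thA_zero (hbb : C.comp b (tp C b) = 0) (x y : C.A (X.prod X)) :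
    C.comp (thA b a N y) (thA a b N x) = 0 := by
  rw [thA, thA, smul_comp', comp_smul', comp_assoc C (tp C a), comp_assoc C y b,
    ← comp_assoc C b (tp C b), hbb, zero_comp, comp_zero, comp_zero, smul_zero, smul_zero]

/-- The product of `a x b^t` and `b y a^t` is zero. -/
lemma th_zero (hbb : C.comp b (tp C b) = 0) (x y : Cor C X) :
    th a b N x * th b a N y = 0 := thA_zero hbb x y

variable {e e' : ℤ}

lemma tp_deg (he : e + e' = (Y.dim : ℤ) - X.dim) (hb : C.Deg ((X.dim : ℤ) + e') b) :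
    tp C b ∈ C.gr (Y.prod X) (Y.dim + -e) := by
  have := tp_mem C (X := X) (Y := Y) hb
  rwa [show (X.dim : ℤ) + e' = Y.dim + -e by linarith] at this

lemma th_mem (he : e + e' = (Y.dim : ℤ) - X.dim) (ha : C.Deg ((X.dim : ℤ) + e) a)
    (hb : C.Deg ((X.dim : ℤ) + e') b) {x : Cor C X} (hx : x ∈ cor0 C X) :
    th a b N x ∈ cor0 C Y := by
  have h1 : (x : C.A (X.prod X)) ∈ C.gr (X.prod X) (X.dim + 0) := by rw [add_zero]; exact hx
  have h3 := comp_mem C (X := Y) (Y := X) (tp_deg he hb) (comp_mem C h1 ha)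
  rw [show (Y.dim : ℤ) + (-e + (0 + e)) = Y.dim by ring] at h3
  exact Submodule.smul_mem (C.gr (Y.prod Y) Y.dim) _ h3

variable {K : Type w} [Field K] {H : WeilTheoryData.{u, v, w} C K} [hH : IsWeilProj H]

include hH

lemma act_th (x : Cor C X) (v : H.A Y) :
    actH C Y H (th a b N x) v =
      ((N⁻¹ : ℚ) : K) • H.act (H.cl a) (actH C X H x (H.act (H.cl (tp C b)) v)) := by
  have h1 : th a b N x = (N⁻¹ : ℚ) •
      (show Cor C Y from C.comp (tp C b) (C.comp (X := X) (Y := X) x a)) := rfl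
  rw [h1, actH_smul]
  congr 1
  have h4 : ∀ x : C.A (X.prod X), H.act (H.cl (C.comp (tp C b) (C.comp x a))) v =
      H.act (H.cl a) (H.act (H.cl x) (H.act (H.cl (tp C b)) v)) := by
    intro x
    rw [actH_comp, actH_comp]
  exact h4 x

lemma act_th_scalar (x : Cor C X) (v : H.A Y) (c : K)
    (hx : actH C X H x (H.act (H.cl (tp C b)) v) = c • H.act (H.cl (tp C b)) v) :
    actH C Y H (th a b N x) v = c • actH C Y H (th a b N 1) v := by
  rw [act_th, act_th, hx, map_one, Module.End.one_apply, act_map_smul, smul_comm]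

/-- **Hyperbolic summands**: `h(Y)` is the orthogonal sum of a hyperbolic motive
`h(X)(e) ⊕ h(X)(e')` and of a motive with nilpotent homologically trivial endomorphisms. -/
theorem selfDual_of_hyperbolic (he : e + e' = (Y.dim : ℤ) - X.dim)
    (ha : C.Deg ((X.dim : ℤ) + e) a) (hb : C.Deg ((X.dim : ℤ) + e') b) (hN : N ≠ 0)
    (haa : C.comp a (tp C a) = 0) (hbb : C.comp b (tp C b) = 0)
    (hab : C.comp a (tp C b) = N • dg C X) {π : ℕ → C.A (X.prod X)} (hπ : IsCK H X π)
    (hnil : NilpotentEnd H (dg C Y - N⁻¹ • (C.comp (tp C b) a + C.comp (tp C a) b)))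
    (hK : AlgebraicKunneth H (dg C Y - N⁻¹ • (C.comp (tp C b) a + C.comp (tp C a) b))) :
    HasSelfDualCK H Y := by
  have hba : C.comp b (tp C a) = N • dg C X := by
    have h1 := congrArg (tp C) hab
    rw [tp_comp C (ch_comm C), tp_tp, tp_smul, tp_dg] at h1
    exact h1
  obtain ⟨q, hq⟩ : ∃ q : Cor C Y, q = th a b N 1 + th b a N 1 := ⟨_, rfl⟩
  have hfe : (dg C Y - N⁻¹ • (C.comp (tp C b) a + C.comp (tp C a) b) : C.A (Y.prod Y)) =
      ((1 : Cor C Y) - q : Cor C Y) := by
    have h1 : (th a b N 1 : Cor C Y) = thA a b N (dg C X) := rfl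
    have h2 : (th b a N 1 : Cor C Y) = thA b a N (dg C X) := rfl
    rw [hq, h1, h2, thA, thA, dg_comp, dg_comp, smul_add]
    rfl
  rw [hfe] at hnil hK
  have he' : e' + e = (Y.dim : ℤ) - X.dim := by rw [add_comm]; exact he
  have hq0 : q ∈ cor0 C Y := by
    rw [hq]
    exact (cor0 C Y).add_mem (th_mem he ha hb (cor0 C X).one_mem)
      (th_mem he' hb ha (cor0 C X).one_mem)
  have hqa : ∀ x : Cor C X, q * th a b N x = th a b N x := by
    intro x
    rw [hq, add_mul, ← th_mul hN hab, one_mul, th_zero haa, add_zero]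
  have haq : ∀ x : Cor C X, th a b N x * q = th a b N x := by
    intro x
    rw [hq, mul_add, ← th_mul hN hab, mul_one, th_zero hbb, add_zero]
  have hqb : ∀ x : Cor C X, q * th b a N x = th b a N x := by
    intro x
    rw [hq, add_mul, ← th_mul hN hba, one_mul, th_zero hbb, zero_add]
  have hbq : ∀ x : Cor C X, th b a N x * q = th b a N x := by
    intro x
    rw [hq, mul_add, ← th_mul hN hba, mul_one, th_zero haa, zero_add]
  have hqq : q * q = q := by
    have h1 : (th a b N 1 + th b a N 1) * q = q := by rw [add_mul, haq, hbq, ← hq]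
    rwa [← hq] at h1
  have htq : tpR C Y q = q := by
    rw [hq, map_add, th_tp, th_tp, tpR_one, add_comm]
  obtain ⟨s, hs0, _, hsw, hsa, _⟩ := exists_weight (q := 1) (P := π) hπ
    (fun n => (Commute.one_right (show Cor C X from π n)).eq)
  -- the shifted weight
  obtain ⟨r, hr⟩ : ∃ r : Cor C X, r = s + (algebraMap ℚ (Cor C X)) ((e' : ℚ) - e) := ⟨_, rfl⟩
  have hr0 : r ∈ cor0 C X := by
    rw [hr]; exact (cor0 C X).add_mem hs0 ((cor0 C X).algebraMap_mem _)
  have hra : IsAlgebraic ℚ r := by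
    rw [hr]
    obtain ⟨P, hP, hPs⟩ := hsa
    refine ⟨P.comp (Polynomial.X - Polynomial.C ((e' : ℚ) - e)), ?_, ?_⟩
    · intro h0
      apply hP
      have h1 : (P.comp (Polynomial.X - Polynomial.C ((e' : ℚ) - e))).comp
          (Polynomial.X + Polynomial.C ((e' : ℚ) - e)) = P := by
        rw [Polynomial.comp_assoc]; simp
      rw [← h1, h0, Polynomial.zero_comp]
    · rw [Polynomial.aeval_comp, map_sub, Polynomial.aeval_X, Polynomial.aeval_C,
        add_sub_cancel_right, hPs]
  have hract : ∀ (m : ℤ) (v : H.A X), v ∈ H.gr X m →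
      actH C X H r v = (((X.dim : ℤ) - m + (e' - e) : ℤ) : K) • v := by
    intro m v hv
    have h1 : actH C X H s v = (((X.dim : ℤ) - m : ℤ) : K) • v := hsw m v hv
    have h2 : actH C X H (algebraMap ℚ (Cor C X) ((e' : ℚ) - e)) v =
        (((e' - e : ℤ) : ℤ) : K) • v := by
      rw [Algebra.algebraMap_eq_smul_one, actH_smul, map_one, Module.End.one_apply,
        show ((e' : ℚ) - e) = ((e' - e : ℤ) : ℚ) by push_cast; rfl, Rat.cast_intCast]
    rw [hr, map_add, LinearMap.add_apply, h1, h2, ← add_smul]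
    congr 1
    push_cast
    rfl
  have hrtact : ∀ (m : ℤ) (v : H.A X), v ∈ H.gr X m →
      actH C X H (tpR C X r) v = (((X.dim : ℤ) - (2 * X.dim - m) + (e' - e) : ℤ) : K) • v :=
    fun m v hv => act_tp_scalar (H := H) (Γ := (r : C.A (X.prod X)))
      (fun m => (((X.dim : ℤ) - m + (e' - e) : ℤ) : K)) (fun m a ha => hract m a ha) m v hv
  -- the weight on the hyperbolic part
  obtain ⟨s', hs'⟩ : ∃ s' : Cor C Y, s' = th a b N r + -tpR C Y (th a b N r) := ⟨_, rfl⟩
  have hts' : tpR C Y (th a b N r) = th b a N (tpR C X r) := th_tp _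
  have h1 : s' ∈ cor0 C Y := by
    rw [hs']
    exact (cor0 C Y).add_mem (th_mem he ha hb hr0)
      ((cor0 C Y).neg_mem (tpR_mem (th_mem he ha hb hr0)))
  have h2 : tpR C Y s' = -s' := by
    rw [hs', map_add, map_neg, tpR_tpR]; abel
  have h3 : q * s' = s' := by rw [hs', mul_add, mul_neg, hts', hqa, hqb]
  have h4 : s' * q = s' := by rw [hs', add_mul, neg_mul, hts', haq, hbq]
  have h5 : IsAlgebraic ℚ s' := by
    rw [hs']
    apply isAlgebraic_add_orth
    · rw [mul_neg, hts', th_zero hbb, neg_zero]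
    · rw [neg_mul, hts', th_zero haa, neg_zero]
    · exact isAlgebraic_map _ (fun n => by
        induction n with
        | zero => rw [zero_add, pow_one, pow_one]
        | succ n ih => rw [pow_succ, th_mul hN hab, ih, ← pow_succ]) hra
    · have h6 : IsAlgebraic ℚ (th a b N r) := isAlgebraic_map _ (fun n => by
        induction n with
        | zero => rw [zero_add, pow_one, pow_one]
        | succ n ih => rw [pow_succ, th_mul hN hab, ih, ← pow_succ]) hra
      obtain ⟨P, hP, hPs⟩ := h6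
      have hanti : AntiInv (tpR C Y) := ⟨tpR_mul, tpR_one, tpR_tpR⟩
      refine ⟨P.comp (-Polynomial.X), ?_, ?_⟩
      · intro h0
        apply hP
        have h1 : (P.comp (-Polynomial.X)).comp (-Polynomial.X) = P := by
          rw [Polynomial.comp_assoc]; simp
        rw [← h1, h0, Polynomial.zero_comp]
      · rw [Polynomial.aeval_comp, map_neg, Polynomial.aeval_X, neg_neg, ← hanti.aeval, hPs,
          map_zero]
  have h6 : ∀ (m : ℤ) (v : H.A Y), v ∈ H.gr Y m →
      actH C Y H s' v = (((Y.dim : ℤ) - m : ℤ) : K) • actH C Y H q v := by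
    intro m v hv
    have hv1 : H.act (H.cl (tp C b)) v ∈ H.gr X (m + 2 * -e) := actH_mem H (tp_deg he hb) hv
    have hv2 : H.act (H.cl (tp C a)) v ∈ H.gr X (m + 2 * -e') := actH_mem H (tp_deg he' ha) hv
    have h7 := act_th_scalar (N := N) (a := a) r v _ (hract _ _ hv1)
    have h8 := act_th_scalar (N := N) (a := b) (tpR C X r) v _ (hrtact _ _ hv2)
    rw [show (X.dim : ℤ) - (m + 2 * -e) + (e' - e) = Y.dim - m by linarith] at h7
    rw [show (X.dim : ℤ) - (2 * X.dim - (m + 2 * -e')) + (e' - e) = -((Y.dim : ℤ) - m) by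
      linarith] at h8
    rw [hs', map_add, map_neg, LinearMap.add_apply, LinearMap.neg_apply, hts', h7, h8, hq,
      map_add, LinearMap.add_apply, smul_add, ← neg_smul, ← Int.cast_neg, neg_neg]
  obtain ⟨s'', h11, h12, h13, h14⟩ := ascend hq0 hqq h1 h3 h4 h6 h5 hnil hK
  exact exists_of_skew _ h11 (h14 htq h2) h12 h13

end Pool.Agent.K3h19.CKD
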