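import Pool.Agent.K3h96.SD.Defs

/-!
# Correspondences through motives with nilpotent homologically trivial morphisms: definitions
-/

open CategoryTheory AlgebraicGeometry

universe u v w

namespace Pool.Agent.K3h19.CKD

open Pool.Agent.H914 Pool.Agent.H914.VarClass Pool.Agent.H914.VarClass.Obj Pool.Agent.W492.BB
  Pool.Agent.W550.Corr Pool.Agent.TH133 Pool.Agent.Y107 Pool.Agent.K3h96.SD

variable {k : Type u} [Field k] {𝒱 : VarClass k}

/-- Pairs `(Y, g)` of a variety and a correspondence from `Y` to itself (with a projector `g` of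
degree zero such a pair is a motive). -/
abbrev Mot (C : TheoryData.{u, v, 0} 𝒱 ℚ) : Type (max (u + 1) v) := Σ Y : 𝒱.Obj, C.A (Y.prod Y)

/-- The correspondences from `X` to itself which factor through the motives in `S`: the sums of the
compositions `X → Y → Y → X`, with `(Y, g)` in `S`, the second correspondence `g`, and arbitrary
(of any degree) first and third correspondences. -/
noncomputable def Through (C : TheoryData.{u, v, 0} 𝒱 ℚ) (S : Set (Mot C)) (X : 𝒱.Obj) :
    Submodule ℚ (C.A (X.prod X)) :=
  Submodule.span ℚ {γ | ∃ M ∈ S, ∃ (b : C.A (X.prod M.1)) (a : C.A (M.1.prod X)),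
    γ = C.comp (C.comp b M.2) a}

variable {C : TheoryData.{u, v, 0} 𝒱 ℚ} {K : Type w} [Field K] (H : WeilTheoryData.{u, v, w} C K)

/-- The strings `g_0, δ_1, g_1, δ_2, …, δ_n, g_n` of correspondences (composed in this order), where
`(Y_i, g_i)` is in `S` and `δ_i` is a homologically trivial correspondence, of any degree, from
`Y_(i-1)` to `Y_i`. -/
inductive TrivialString (S : Set (Mot C)) :
    ℕ → ∀ M M' : Mot C, C.A (M.1.prod M'.1) → Prop
  | start (M : Mot C) (hM : M ∈ S) : TrivialString S 0 M M M.2
  | step (n : ℕ) (M M' M'' : Mot C) (γ : C.A (M.1.prod M'.1)) (δ : C.A (M'.1.prod M''.1))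
      (hγ : TrivialString S n M M' γ) (hM : M'' ∈ S) (hδ : H.cl δ = 0) :
      TrivialString S (n + 1) M M'' (C.comp (C.comp γ δ) M''.2)

/-- The homologically trivial morphisms between the motives in `S` are nilpotent: for every finite
set `T` of motives in `S` there is `n` such that all the strings of length `n` in `T` are zero. This
holds for the class `S` of all the motives which are finite dimensional in the sense of Kimura and
O'Sullivan. -/
def NilpotentClass (S : Set (Mot C)) : Prop :=
  ∀ T : Set (Mot C), T.Finite → T ⊆ S → ∃ n, ∀ M M' γ, TrivialString H T n M M' γ → γ = 0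

/-- The restriction along `f : X → Y` is surjective in the degrees below `dim X` (the weak Lefschetz
theorem, for `X` a complete intersection of ample divisors in `Y`). -/
def WeakLefschetz {X Y : 𝒱.Obj} (f : X ⟶ Y) : Prop :=
  ∀ n < X.dim, ∀ a : H.A X, H.Deg n a → ∃ b : H.A Y, H.Deg n b ∧ H.up f b = a

/-- The product with the class `f_* 1` of `X` in `Y` has algebraic left inverses in the degrees below
`dim X`: for each `n < dim X` a correspondence `Λ` of `Y` induces a left inverse of
`f_* 1 : H^n(Y) → H^(n + 2 dim Y - 2 dim X)(Y)`, and acts as zero on `H^m(Y)` for the other `m`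
(for instance if the Lefschetz standard conjecture holds for `Y` and `X` is a complete intersection of
multiples of one ample divisor). -/
def AlgebraicLeftInverses {X Y : 𝒱.Obj} (f : X ⟶ Y) : Prop :=
  ∀ n < X.dim, ∃ Λ : C.A (Y.prod Y), C.Deg X.dim Λ ∧
    (∀ b : H.A Y, H.Deg n b → H.act (H.cl Λ) (H.mul (H.cl (C.down f 1)) b) = b) ∧
    ∀ (m : ℤ) (b : H.A Y), H.Deg m b → m ≠ n + 2 * (Y.dim - X.dim) → H.act (H.cl Λ) b = 0

end Pool.Agent.K3h19.CKD
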