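import Pool.Agent.K3h19.CKD.LDefs
import Pool.Agent.K3h19.CKD.Half
import Pool.Agent.Y107.SDMul

/-!
# The lower half of the cohomology
-/

open CategoryTheory AlgebraicGeometry

universe u v w

namespace Pool.Agent.K3h19.CKD

open Pool.Agent.H914 Pool.Agent.H914.VarClass Pool.Agent.H914.VarClass.Obj Pool.Agent.W492.BB
  Pool.Agent.W550.Corr Pool.Agent.TH133 Pool.Agent.Y107 Pool.Agent.K3h96.SD

set_option linter.unusedSectionVars false

variable {k : Type u} [Field k] {𝒱 : VarClass k}
  {C : TheoryData.{u, v, 0} 𝒱 ℚ} [hC : IsChowProj C] {X Y : 𝒱.Obj}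
  {K : Type w} [Field K] {H : WeilTheoryData.{u, v, w} C K} [hH : IsWeilProj H]

lemma through_mono {S T : Set (Mot C)} (h : S ⊆ T) : Through C S X ≤ Through C T X := by
  apply Submodule.span_mono
  rintro γ ⟨M, hM, b, a, rfl⟩
  exact ⟨M, h hM, b, a, rfl⟩

lemma exists_finite {S : Set (Mot C)} {z : C.A (X.prod X)} (hz : z ∈ Through C S X) :
    ∃ T : Set (Mot C), T.Finite ∧ T ⊆ S ∧ z ∈ Through C T X := by
  induction hz using Submodule.span_induction with
  | zero => exact ⟨∅, Set.finite_empty, Set.empty_subset _, Submodule.zero_mem _⟩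
  | add x y _ _ ihx ihy =>
    obtain ⟨T, h1, h2, h3⟩ := ihx
    obtain ⟨T', h1', h2', h3'⟩ := ihy
    exact ⟨T ∪ T', h1.union h1', Set.union_subset h2 h2',
      Submodule.add_mem _ (through_mono Set.subset_union_left h3)
        (through_mono Set.subset_union_right h3')⟩
  | smul q x _ ih =>
    obtain ⟨T, h1, h2, h3⟩ := ih
    exact ⟨T, h1, h2, Submodule.smul_mem _ _ h3⟩
  | mem x hx =>
    obtain ⟨M, hM, b, a, rfl⟩ := hx
    exact ⟨{M}, Set.finite_singleton _, Set.singleton_subset_iff.2 hM,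
      Submodule.subset_span ⟨M, rfl, b, a, rfl⟩⟩

include hC

lemma through_comp {S : Set (Mot C)} {z : C.A (X.prod X)} (hz : z ∈ Through C S X)
    (y : C.A (X.prod X)) : C.comp z y ∈ Through C S X := by
  induction hz using Submodule.span_induction with
  | zero => rw [zero_comp]; exact Submodule.zero_mem _
  | add a b _ _ ha hb => rw [add_comp]; exact Submodule.add_mem _ ha hb
  | smul q a _ ha =>
    have h1 : C.comp (q • a) y = q • C.comp a y := by
      rw [← compL_apply, ← compL_apply, map_smul, LinearMap.smul_apply]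
    rw [h1]; exact Submodule.smul_mem _ _ ha
  | mem x hx =>
    obtain ⟨M, hM, b, a, rfl⟩ := hx
    exact Submodule.subset_span ⟨M, hM, b, C.comp a y, by rw [comp_assoc]⟩

lemma comp_through {S : Set (Mot C)} {z : C.A (X.prod X)} (hz : z ∈ Through C S X)
    (y : C.A (X.prod X)) : C.comp y z ∈ Through C S X := by
  induction hz using Submodule.span_induction with
  | zero => rw [comp_zero]; exact Submodule.zero_mem _
  | add a b _ _ ha hb => rw [comp_add]; exact Submodule.add_mem _ ha hb
  | smul q a _ ha =>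
    have h1 : C.comp y (q • a) = q • C.comp y a := by
      rw [← compL_apply, ← compL_apply, map_smul]
    rw [h1]; exact Submodule.smul_mem _ _ ha
  | mem x hx =>
    obtain ⟨M, hM, b, a, rfl⟩ := hx
    exact Submodule.subset_span ⟨M, hM, C.comp y b, a, by simp only [comp_assoc]⟩

lemma through_tp {S : Set (Mot C)} (hS : ∀ M ∈ S, (⟨M.1, tp C M.2⟩ : Mot C) ∈ S)
    {z : C.A (X.prod X)} (hz : z ∈ Through C S X) : tp C z ∈ Through C S X := by
  induction hz using Submodule.span_induction with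
  | zero =>
    have h1 : tp C (0 : C.A (X.prod X)) = 0 := map_zero _
    rw [h1]; exact Submodule.zero_mem _
  | add a b _ _ ha hb =>
    have h1 : tp C (a + b) = tp C a + tp C b := map_add _ _ _
    rw [h1]; exact Submodule.add_mem _ ha hb
  | smul q a _ ha =>
    have h1 : tp C (q • a) = q • tp C a := map_smul _ _ _
    rw [h1]; exact Submodule.smul_mem _ _ ha
  | mem x hx =>
    obtain ⟨M, hM, b, a, rfl⟩ := hx
    refine Submodule.subset_span ⟨⟨M.1, tp C M.2⟩, hS M hM, tp C a, tp C b, ?_⟩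
    rw [tp_comp C (ch_comm C), tp_comp C (ch_comm C), comp_assoc]

/-- The correspondences through strings of length `n`. -/
noncomputable def ThroughStrings (H : WeilTheoryData.{u, v, w} C K) (T : Set (Mot C)) (X : 𝒱.Obj) (n : ℕ) :
    Submodule ℚ (C.A (X.prod X)) :=
  Submodule.span ℚ {x | ∃ M M' γ, TrivialString H T n M M' γ ∧
    ∃ (b : C.A (X.prod M.1)) (a : C.A (M'.1.prod X)), x = C.comp (C.comp b γ) a}

lemma comp_smul3 {Z W : 𝒱.Obj} (γ : C.A (X.prod Z)) (q : ℚ) (δ : C.A (Z.prod W)) :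
    C.comp γ (q • δ) = q • C.comp γ δ := by
  rw [← compL_apply, ← compL_apply, map_smul]

lemma smul_comp3 {Z W : 𝒱.Obj} (γ : C.A (X.prod Z)) (q : ℚ) (δ : C.A (Z.prod W)) :
    C.comp (q • γ) δ = q • C.comp γ δ := by
  rw [← compL_apply, ← compL_apply, map_smul, LinearMap.smul_apply]

include hH

lemma strings_step {T : Set (Mot C)} {z : C.A (X.prod X)} (hz : z ∈ Through C T X)
    (h0 : H.cl z = 0) {n : ℕ} {v : C.A (X.prod X)} (hv : v ∈ ThroughStrings H T X n) :
    C.comp (C.comp v z) z ∈ ThroughStrings H T X (n + 1) := by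
  -- the last factor
  have key : ∀ y ∈ Through C T X, ∀ v ∈ ThroughStrings H T X n,
      C.comp (C.comp v z) y ∈ ThroughStrings H T X (n + 1) := by
    intro y hy v hv
    induction hv using Submodule.span_induction with
    | zero => rw [zero_comp, zero_comp]; exact Submodule.zero_mem _
    | add a b _ _ ha hb => rw [add_comp, add_comp]; exact Submodule.add_mem _ ha hb
    | smul q a _ ha => rw [smul_comp3, smul_comp3]; exact Submodule.smul_mem _ _ ha
    | mem x hx =>
      obtain ⟨M, M', γ, hγ, b, a, rfl⟩ := hx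
      induction hy using Submodule.span_induction with
      | zero => rw [comp_zero]; exact Submodule.zero_mem _
      | add y y' _ _ h1 h2 => rw [comp_add]; exact Submodule.add_mem _ h1 h2
      | smul q y _ h1 => rw [comp_smul3]; exact Submodule.smul_mem _ _ h1
      | mem y hy =>
        obtain ⟨M'', hM'', b', a', rfl⟩ := hy
        refine Submodule.subset_span ⟨M, M'', _,
          TrivialString.step n M M' M'' γ (C.comp (C.comp a z) b') hγ hM'' ?_, b, a', ?_⟩
        · rw [cl_comp, cl_comp, h0, comp_zero, zero_comp]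
        · simp only [comp_assoc]
  exact key z hz v hv

lemma strings_pow {T : Set (Mot C)} {z : C.A (X.prod X)} (hz : z ∈ Through C T X)
    (h0 : H.cl z = 0) (n : ℕ) : corPow C z (2 * n + 1) ∈ ThroughStrings H T X n := by
  induction n with
  | zero =>
    have h1 : corPow C z (2 * 0 + 1) = z := by
      change C.comp (dg C X) z = z
      rw [dg_comp]
    rw [h1]
    refine Submodule.span_mono ?_ hz
    rintro γ ⟨M, hM, b, a, rfl⟩
    exact ⟨M, M, M.2, TrivialString.start M hM, b, a, rfl⟩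
  | succ n ih =>
    have h1 : corPow C z (2 * (n + 1) + 1) = C.comp (C.comp (corPow C z (2 * n + 1)) z) z := rfl
    rw [h1]
    exact strings_step hz h0 ih

/-- Homologically trivial correspondences through `S` are nilpotent. -/
theorem nilpotent_of_through {S : Set (Mot C)} (hS : NilpotentClass H S) {z : C.A (X.prod X)}
    (hz : z ∈ Through C S X) (h0 : H.cl z = 0) : ∃ n, corPow C z n = 0 := by
  obtain ⟨T, hT, hTS, hzT⟩ := exists_finite hz
  obtain ⟨n, hn⟩ := hS T hT hTS
  refine ⟨2 * n + 1, ?_⟩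
  have h1 := strings_pow (H := H) hzT h0 n
  have h2 : ThroughStrings H T X n = ⊥ := by
    rw [ThroughStrings, Submodule.span_eq_bot]
    rintro x ⟨M, M', γ, hγ, b, a, rfl⟩
    rw [hn M M' γ hγ, comp_zero, zero_comp]
  rw [h2] at h1
  exact (Submodule.mem_bot _).1 h1

/-- **The lower half of the cohomology decides.** -/
theorem selfDual_of_through {S : Set (Mot C)} (hS : NilpotentClass H S)
    (htp : ∀ M ∈ S, (⟨M.1, tp C M.2⟩ : Mot C) ∈ S)
    (hp : ∀ n < X.dim, ∃ p ∈ Through C S X, C.Deg X.dim p ∧ ActsAsProjector H n p) :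
    ∃ π, IsCK H X π ∧ IsSelfDual C π ∧ ∀ n, n ≠ X.dim → π n ∈ Through C S X := by
  obtain ⟨B, hB⟩ : ∃ B : Submodule ℚ (Cor C X), ∀ x : Cor C X, x ∈ B ↔
      (x : C.A (X.prod X)) ∈ Through C S X ∧ (x : C.A (X.prod X)) ∈ C.gr (X.prod X) X.dim :=
    ⟨(Through C S X ⊓ C.gr (X.prod X) X.dim : Submodule ℚ (C.A (X.prod X))), fun _ => Iff.rfl⟩
  obtain ⟨s, hs, hts, hw, ha⟩ := exists_of_stable (H := H) B
    (fun a ha => ((hB a).1 ha).2)
    (fun a ha b hb => (hB _).2 ⟨through_comp (C := C) ((hB b).1 hb).1 a, by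
      have h2 : (b : C.A (X.prod X)) ∈ C.gr (X.prod X) ((X.dim : ℤ) + 0) := by
        rw [add_zero]; exact ((hB b).1 hb).2
      have h3 : (a : C.A (X.prod X)) ∈ C.gr (X.prod X) ((X.dim : ℤ) + 0) := by
        rw [add_zero]; exact ((hB a).1 ha).2
      have h4 := comp_mem C h2 h3
      rwa [add_zero, add_zero] at h4⟩)
    (fun a ha => (hB _).2 ⟨through_tp htp ((hB a).1 ha).1, tp_mem C ((hB a).1 ha).2⟩)
    (fun a ha h0 => by
      rw [← algebraicCor_iff]
      obtain ⟨n, hn⟩ := nilpotent_of_through hS ((hB a).1 ha).1 h0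
      refine ⟨n, fun j => if j = n then 1 else 0, ⟨n, le_rfl, by simp⟩, ?_⟩
      rw [Finset.sum_eq_zero]
      intro j _
      by_cases hj : j = n
      · subst hj
        rw [hn, smul_zero]
      · simp only [if_neg hj, zero_smul])
    (fun n hn => by
      obtain ⟨p, h2, h3, h4⟩ := hp n hn
      exact ⟨p, (hB p).2 ⟨h2, h3⟩, h4⟩)
  obtain ⟨π, h1, h2, h3⟩ := exists_of_skew' (H := H) s ((hB s).1 hs).2 hts hw ha
  have h4 : ∀ n < X.dim, π n ∈ Through C S X := by
    intro n hn
    obtain ⟨y, hy⟩ := h3 n hn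
    rw [← hy]
    exact through_comp (C := C) ((hB s).1 hs).1 y
  refine ⟨π, h1, h2, fun n hn => ?_⟩
  by_cases h5 : n < X.dim
  · exact h4 n h5
  by_cases h6 : n ≤ 2 * X.dim
  · have h7 := h2 (2 * X.dim - n) (by omega)
    rw [show 2 * X.dim - (2 * X.dim - n) = n by omega] at h7
    rw [← h7]
    exact through_tp htp (h4 _ (by omega))
  · rw [h1.out n (by omega)]
    exact Submodule.zero_mem _

omit hC in
lemma cl_graph' (f : X ⟶ Y) : H.cl (C.graph f) = H.graph f := by
  have h1 : H.cl (C.push (Obj.lift (𝟙 X) f) 1) = H.push (Obj.lift (𝟙 X) f) (H.cl 1) :=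
    H.cl_push _ _
  rw [TheoryData.graph, h1, map_one]
  rfl

omit hC in
lemma cl_cograph' (f : X ⟶ Y) : H.cl (C.cograph f) = H.cograph f := by
  have h1 : H.cl (C.push (Obj.lift f (𝟙 X)) 1) = H.push (Obj.lift f (𝟙 X)) (H.cl 1) :=
    H.cl_push _ _
  rw [TheoryData.cograph, h1, map_one]
  rfl

/-- **Sections.** -/
theorem selfDual_of_section (f : X ⟶ Y) (hY : NilpotentClass H {(⟨Y, dg C Y⟩ : Mot C)})
    (hw : WeakLefschetz H f) (hΛ : AlgebraicLeftInverses H f) :
    ∃ π, IsCK H X π ∧ IsSelfDual C π ∧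
      ∀ n, n ≠ X.dim → π n ∈ Through C {(⟨Y, dg C Y⟩ : Mot C)} X := by
  refine selfDual_of_through hY ?_ ?_
  · intro M hM
    rw [Set.mem_singleton_iff] at hM
    subst hM
    rw [Set.mem_singleton_iff]
    simp only [tp_dg]
  · intro n hn
    obtain ⟨Λ, hd, h1, h2⟩ := hΛ n hn
    refine ⟨C.comp (C.comp (C.graph f) Λ) (C.cograph f), ?_, ?_, ?_⟩
    · refine Submodule.subset_span ⟨⟨Y, dg C Y⟩, rfl, C.comp (C.graph f) Λ, C.cograph f, ?_⟩
      simp only [comp_dg]
    · have g1 : C.graph f ∈ C.gr (X.prod Y) ((X.dim : ℤ) + (Y.dim - X.dim)) := by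
        have := graph_mem' (C := C) f
        rwa [show (Y.dim : ℤ) = X.dim + (Y.dim - X.dim) by ring] at this
      have g2 : Λ ∈ C.gr (Y.prod Y) ((Y.dim : ℤ) + (X.dim - Y.dim)) := by
        rw [show (Y.dim : ℤ) + (X.dim - Y.dim) = X.dim by ring]; exact hd
      have g3 : C.cograph f ∈ C.gr (Y.prod X) ((Y.dim : ℤ) + 0) := by
        rw [add_zero]; exact cograph_mem f
      have g4 := comp_mem C (comp_mem C g1 g2) g3
      rwa [show (X.dim : ℤ) + ((Y.dim : ℤ) - X.dim + (X.dim - Y.dim) + 0) = X.dim by ring] at g4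
    · intro m a ha
      have e1 : H.act (H.cl (C.comp (C.comp (C.graph f) Λ) (C.cograph f))) a =
          H.pull f (H.act (H.cl Λ) (H.push f a)) := by
        rw [actH_comp, actH_comp, cl_graph', cl_cograph', TheoryData.act_graph,
          TheoryData.act_cograph]
      rw [e1]
      by_cases hm : m = n
      · rw [if_pos hm]
        subst hm
        obtain ⟨b, hb, hba⟩ := hw n hn a ha
        have e2 : H.push f a = H.cl (C.push f 1) * b := by
          have h3 : H.pull f b = a := hba
          have h4 : H.cl (C.push f 1) = H.push f (H.cl 1) := H.cl_push _ _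
          rw [← h3, h4, map_one, ← H.proj_right, one_mul]
        have h5 : H.act (H.cl Λ) (H.cl (C.push f 1) * b) = b := h1 b hb
        rw [e2, h5]
        exact hba
      · rw [if_neg hm]
        have h3 := H.push_mem f ha
        have h4 : H.act (H.cl Λ) (H.push f a) = 0 := by
          refine h2 (m + 2 * ((Y.dim : ℤ) - X.dim)) _ h3 ?_
          intro h5
          exact hm (by linarith)
        rw [h4, map_zero]

end Pool.Agent.K3h19.CKD
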