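import Pool.Agent.K3h19.CKD.Sim
import Pool.Agent.K3h19.CKD.Alg

/-!
# Descent and ascent of self-dual Chow-Kunneth decompositions
-/

open CategoryTheory AlgebraicGeometry

universe u v w

namespace Pool.Agent.K3h19.CKD

open Pool.Agent.H914 Pool.Agent.H914.VarClass Pool.Agent.H914.VarClass.Obj Pool.Agent.W492.BB
  Pool.Agent.W550.Corr Pool.Agent.TH133 Pool.Agent.Y107 Pool.Agent.K3h96.SD

set_option linter.unusedSectionVars false

variable {k : Type u} [Field k] {𝒱 : VarClass k}
  {C : TheoryData.{u, v, 0} 𝒱 ℚ} [hC : IsChowProj C] {X Y : 𝒱.Obj}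
  {K : Type w} [Field K] {H : WeilTheoryData.{u, v, w} C K} [hH : IsWeilProj H]

include hC hH

/-- The action of rational multiples. -/
lemma actH_smul (q : ℚ) (x : Cor C X) (a : H.A X) :
    actH C X H (q • x) a = (q : K) • actH C X H x a := by
  rw [Algebra.smul_def, map_mul, Module.End.mul_apply]
  generalize actH C X H x a = b
  by_cases hb : b = 0
  · rw [hb, map_zero, smul_zero]
  have hch : CharZero K := by
    refine charZero_of_inj_zero fun n hn => ?_
    by_contra hn0
    have h1 : actH C X H ((n : Cor C X) * algebraMap ℚ (Cor C X) ((n : ℚ)⁻¹)) b = b := by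
      rw [← map_natCast (algebraMap ℚ (Cor C X)), ← map_mul,
        mul_inv_cancel₀ (Nat.cast_ne_zero.2 hn0), map_one, map_one]
      rfl
    rw [map_mul, map_natCast, Module.End.mul_apply, Module.End.natCast_apply] at h1
    apply hb
    rw [← h1, ← Nat.cast_smul_eq_nsmul K, hn, zero_smul]
  have : (actH C X H).comp (algebraMap ℚ (Cor C X)) =
    (algebraMap K (Module.End K (H.A X))).comp (algebraMap ℚ K) := RingHom.ext_rat _ _
  have h2 := congrArg (fun f => f q b) this
  exact h2

variable {a : C.A (X.prod Y)} {N : ℚ}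

/-- The action of `psi x`, if `x` acts as a scalar on the image of the class. -/
lemma act_psi (hN : N ≠ 0) (haa : C.comp a (tp C a) = N • dg C X) (x : Cor C Y) (v : H.A X) (c : K)
    (hx : actH C Y H x (H.act (H.cl a) v) = c • H.act (H.cl a) v) :
    actH C X H (psi a N x) v = c • v := by
  have h1 : ∀ x : Cor C Y, psi a N x = (N⁻¹ : ℚ) •
      (show Cor C X from C.comp a (C.comp (X := Y) (Y := Y) x (tp C a))) := fun x => rfl
  have h2 : ∀ x : Cor C Y, actH C X H (psi a N x) v =
      ((N⁻¹ : ℚ) : K) • H.act (H.cl (tp C a)) (actH C Y H x (H.act (H.cl a) v)) := by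
    intro x
    rw [h1, actH_smul]
    congr 1
    have h4 : ∀ x : C.A (Y.prod Y), H.act (H.cl (C.comp a (C.comp x (tp C a)))) v =
        H.act (H.cl (tp C a)) (H.act (H.cl x) (H.act (H.cl a) v)) := by
      intro x
      rw [actH_comp, actH_comp]
    exact h4 x
  have h3 := h2 1
  rw [psi_one hN haa, map_one, map_one, Module.End.one_apply, Module.End.one_apply] at h3
  rw [h2, hx, act_map_smul, smul_comm, ← h3]

/-- The action of `phi x`. -/
lemma act_phi (x : Cor C X) (v : H.A Y) :
    actH C Y H (phi a N x) v =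
      ((N⁻¹ : ℚ) : K) • H.act (H.cl a) (actH C X H x (H.act (H.cl (tp C a)) v)) := by
  have h1 : phi a N x = (N⁻¹ : ℚ) •
      (show Cor C Y from C.comp (tp C a) (C.comp (X := X) (Y := X) x a)) := rfl
  rw [h1, actH_smul]
  congr 1
  have h4 : ∀ x : C.A (X.prod X), H.act (H.cl (C.comp (tp C a) (C.comp x a))) v =
      H.act (H.cl a) (H.act (H.cl x) (H.act (H.cl (tp C a)) v)) := by
    intro x
    rw [actH_comp, actH_comp]
  exact h4 x

lemma act_phi_scalar (x : Cor C X) (v : H.A Y) (c : K)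
    (hx : actH C X H x (H.act (H.cl (tp C a)) v) = c • H.act (H.cl (tp C a)) v) :
    actH C Y H (phi a N x) v = c • actH C Y H (phi a N 1) v := by
  rw [act_phi, act_phi, hx, map_one, Module.End.one_apply, act_map_smul, smul_comm]

variable {e : ℤ}

lemma act_a_mem (ha : C.Deg ((X.dim : ℤ) + e) a) {m : ℤ} {v : H.A X} (hv : v ∈ H.gr X m) :
    H.act (H.cl a) v ∈ H.gr Y (m + 2 * e) := actH_mem H ha hv

lemma act_ta_mem (he : 2 * e = (Y.dim : ℤ) - X.dim) (ha : C.Deg ((X.dim : ℤ) + e) a) {m : ℤ}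
    {v : H.A Y} (hv : v ∈ H.gr Y m) : H.act (H.cl (tp C a)) v ∈ H.gr X (m - 2 * e) := by
  have h2 : tp C a ∈ C.gr (Y.prod X) (Y.dim + -e) := by
    have := tp_mem C (X := X) (Y := Y) ha
    rwa [show (X.dim : ℤ) + e = Y.dim + -e by linarith] at this
  have := actH_mem H h2 hv
  rwa [show m + 2 * -e = m - 2 * e by ring] at this

/-- The skew weight of a self-dual Chow-Kunneth decomposition. -/
lemma exists_weight {P : ℕ → Cor C Y} (h : IsCK H Y P) {q : Cor C Y}
    (hq : ∀ n, P n * q = q * P n) : ∃ s ∈ cor0 C Y, s * q = q * s ∧ ActsByWeight H (X := Y) s ∧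
      IsAlgebraic ℚ s ∧ (IsSelfDual C (X := Y) P → tpR C Y s = -s) := by
  refine ⟨∑ n ∈ Finset.range (2 * Y.dim + 1), ((Y.dim : ℚ) - n) • P n, ?_, ?_, ?_, ?_, ?_⟩
  · exact (cor0 C Y).sum_mem fun n _ => (cor0 C Y).smul_mem (h.deg n) _
  · rw [Finset.sum_mul, Finset.mul_sum]
    apply Finset.sum_congr rfl
    intro n _
    rw [smul_mul_assoc, mul_smul_comm, hq]
  · intro m b hb
    change actH C Y H _ b = _
    rw [map_sum, LinearMap.sum_apply]
    by_cases hb0 : b = 0
    · subst hb0
      rw [smul_zero]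
      exact Finset.sum_eq_zero fun n _ => map_zero _
    have hm0 := nonneg_of_mem H hb hb0
    have hm1 : m ≤ 2 * Y.dim := by
      by_contra hcon
      have hb' : b ∈ H.gr Y m := hb
      rw [gr_top H (by omega)] at hb'
      exact hb0 ((Submodule.mem_bot _).1 hb')
    obtain ⟨m, rfl⟩ := Int.eq_ofNat_of_zero_le hm0
    rw [Finset.sum_eq_single m]
    · rw [actH_smul, h.actH_eq' m m hb, if_pos rfl,
        show ((Y.dim : ℚ) - m : ℚ) = (((Y.dim : ℤ) - m : ℤ) : ℚ) by push_cast; rfl,
        Rat.cast_intCast]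
    · intro n _ hn
      rw [actH_smul, h.actH_eq' n m hb, if_neg, smul_zero]
      intro h5
      apply hn
      exact_mod_cast h5.symm
    · intro h5
      exfalso
      apply h5
      rw [Finset.mem_range]
      omega
  · -- algebraic
    let p : Fin (2 * Y.dim + 1) → Cor C Y := fun i => P i
    have hpp : ∀ i j, p i * p j = if i = j then p i else 0 := by
      intro i j
      change P i * P j = _
      rw [h.mul_eq]
      by_cases hij : i = j
      · rw [if_pos hij, if_pos (by rw [hij])]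
      · rw [if_neg hij, if_neg (fun h => hij (Fin.ext h))]
    have hp1 : ∑ i, p i = 1 := by
      have h1 : ∑ i : Fin (2 * Y.dim + 1), P i = 1 := by
        rw [Fin.sum_univ_eq_sum_range (fun n => P n)]
        exact h.sum_eq
      exact h1
    have h2 : ∑ n ∈ Finset.range (2 * Y.dim + 1), ((Y.dim : ℚ) - n) • P n =
        ∑ i : Fin (2 * Y.dim + 1), ((Y.dim : ℚ) - (i : ℕ)) • p i :=
      (Fin.sum_univ_eq_sum_range (fun n => ((Y.dim : ℚ) - n) • P n) _).symm
    rw [h2]
    refine ⟨∏ i : Fin (2 * Y.dim + 1),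
      (Polynomial.X - Polynomial.C ((Y.dim : ℚ) - (i : ℕ))), ?_, ?_⟩
    · exact (Polynomial.monic_prod_of_monic _ _ fun i _ => Polynomial.monic_X_sub_C _).ne_zero
    · rw [aeval_sum_idem hpp hp1, Finset.sum_eq_zero]
      intro i _
      rw [Polynomial.eval_prod, Finset.prod_eq_zero (Finset.mem_univ i), zero_smul]
      rw [Polynomial.eval_sub, Polynomial.eval_X, Polynomial.eval_C, sub_self]
  · intro hsd
    rw [map_sum, ← Finset.sum_neg_distrib, ← Finset.sum_range_reflect]
    apply Finset.sum_congr rfl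
    intro n hn
    rw [Finset.mem_range] at hn
    have e1 : tpR C Y (P (2 * Y.dim + 1 - 1 - n)) = P (2 * Y.dim - (2 * Y.dim + 1 - 1 - n)) :=
      hsd _ (by omega)
    rw [tpR_smul, e1, show 2 * Y.dim - (2 * Y.dim + 1 - 1 - n) = n by omega, ← neg_smul,
      show 2 * Y.dim + 1 - 1 - n = 2 * Y.dim - n by omega, Nat.cast_sub (by omega)]
    congr 1
    push_cast
    ring

/-- **Descent**: the compression of a correspondence commuting with the image of `X`. -/
theorem descend (he : 2 * e = (Y.dim : ℤ) - X.dim) (ha : C.Deg ((X.dim : ℤ) + e) a) (hN : N ≠ 0)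
    (haa : C.comp a (tp C a) = N • dg C X) {s : Cor C Y} (hs0 : s ∈ cor0 C Y)
    (hsq : s * phi a N 1 = phi a N 1 * s) (hw : ActsByWeight H (X := Y) s)
    (hs : IsAlgebraic ℚ s) : psi a N s ∈ cor0 C X ∧ ActsByWeight H (X := X) (psi a N s) ∧
      IsAlgebraic ℚ (psi a N s) ∧ (tpR C Y s = -s → tpR C X (psi a N s) = -psi a N s) := by
  refine ⟨psi_mem he ha hs0, ?_, ?_, ?_⟩
  · intro m v hv
    refine act_psi hN haa s v _ ?_
    have h1 := hw (m + 2 * e) (H.act (H.cl a) v) (act_a_mem ha hv)
    rw [he, show (Y.dim : ℤ) - (m + (Y.dim - X.dim)) = X.dim - m by ring] at h1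
    exact h1
  · apply isAlgebraic_map _ _ hs
    intro n
    induction n with
    | zero => rw [zero_add, pow_one, pow_one]
    | succ n ih => rw [pow_succ, psi_mul hN haa _ _ hsq, ih, ← pow_succ]
  · intro ht
    rw [psi_tp, ht, map_neg]

end Pool.Agent.K3h19.CKD
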