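import Pool.Agent.K3h19.CKD.Rel

/-!
# Fibrations and modifications
-/

open CategoryTheory AlgebraicGeometry

universe u v w

namespace Pool.Agent.K3h19.CKD

open Pool.Agent.H914 Pool.Agent.H914.VarClass Pool.Agent.H914.VarClass.Obj Pool.Agent.W492.BB
  Pool.Agent.W550.Corr Pool.Agent.TH133 Pool.Agent.Y107 Pool.Agent.K3h96.SD

set_option linter.unusedSectionVars false

variable {k : Type u} [Field k] {𝒱 : VarClass k}
  {C : TheoryData.{u, v, 0} 𝒱 ℚ} [hC : IsChowProj C] {X Y Z E : 𝒱.Obj}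

include hC

lemma push_eq_zero_of_deg (p : E ⟶ Z) {a : C.A E} {i : ℤ} (ha : C.Deg i a)
    (hi : i + Z.dim < E.dim) : C.push p a = 0 := by
  have h := C.push_mem p ha
  rw [C.gr_neg Z _ (by linarith)] at h
  exact (Submodule.mem_bot _).1 h

/-- The tower through `E` is orthogonal to `f^* h(X)`. -/
lemma relativeTower_graph {f : Y ⟶ X} {j : E ⟶ Y} {p : E ⟶ Z} {i : Z ⟶ X} (hsq : j ≫ f = p ≫ i)
    {β : ℕ → C.A E} {l : ℕ} (hβ : C.push p (β l) = 0) :
    C.comp (relativeTower C p j β l) (C.graph f) = 0 := by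
  have h0 : C.mulCorr (0 : C.A Z) = 0 := map_zero _
  rw [relativeTower, comp_assoc, graph_graph, hsq, ← graph_graph, ← comp_assoc,
    comp_assoc C (C.cograph p), cograph_mulCorr_graph, hβ, h0, zero_comp]

lemma cograph_tp_relativeTower {f : Y ⟶ X} {j : E ⟶ Y} {p : E ⟶ Z} {i : Z ⟶ X}
    (hsq : j ≫ f = p ≫ i) {β : ℕ → C.A E} {l : ℕ} (hβ : C.push p (β l) = 0) :
    C.comp (C.cograph f) (tp C (relativeTower C p j β l)) = 0 := by
  have h1 := congrArg (tp C) (relativeTower_graph hsq hβ)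
  rw [tp_comp C (ch_comm C), tp_graph] at h1
  rw [h1]
  exact map_zero _

variable {K : Type w} [Field K] {H : WeilTheoryData.{u, v, w} C K} [hH : IsWeilProj H]

include hH

/-- **Assembly from pieces.** -/
theorem selfDual_of_pieces {q : C.A (Y.prod Y)} (hq : Pieces H Y q)
    (hs : SmallComplement H q) : HasSelfDualCK H Y :=
  selfDual_of_hasWeight (Y := Y) (q := (show Cor C Y from q)) hq.hasWeight hs.1 hs.2

omit hH in
/-- The trivial tower datum of a morphism of positive relative dimension. -/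
theorem isTowerDatum_id {f : Y ⟶ X} {r : ℕ} {h : C.A Y} {N : ℚ} (hd : Y.dim = X.dim + r)
    (hh : C.Deg 1 h) (hN : N ≠ 0) (hf : C.push f (h ^ r) = const C X N) :
    IsTowerDatum C f (𝟙 Y) r 0 1 h N := by
  refine ⟨by rw [hd, add_zero], rfl, ?_, hh, hN, ?_, ?_⟩
  · rw [Nat.cast_zero]; exact C.one_mem Y
  · have h1 : C.graph (𝟙 Y) = dg C Y := rfl
    have h2 : C.cograph (𝟙 Y) = dg C Y := rfl
    rw [h1, h2, dg_comp]
    rfl
  · change C.push f (1 * h ^ r) = _
    rw [one_mul, hf]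

/-- **Modifications.** -/
theorem pieces_modification {f : Y ⟶ X} {j : E ⟶ Y} {p : E ⟶ Z} {i : Z ⟶ X}
    (hYX : Y.dim = X.dim) {M : ℚ} (hM : M ≠ 0) (hf : C.down f 1 = const C X M)
    (hsq : j ≫ f = p ≫ i) {r s : ℕ} (hs : 0 < s) {w h : C.A E} {N : ℚ} {β : ℕ → C.A E}
    (hD : IsTowerDatum C p j r s w h N) (hβ : IsRelativeBasis C p w h r N β)
    (hX : HasSelfDualCK H X) (hZ : ∃ π, IsCK H Z π) (hZ' : Odd r ∨ HasSelfDualCK H Z) :
    Pieces H Y (cross C M (C.cograph f) (C.cograph f) +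
      towerProjector C r N (relativeTower C p j β)) := by
  have hA := isTower_relative hD hβ
  have hdim := hD.1
  have h0 : ∀ l ≤ r, C.push p (β l) = 0 := fun l hl =>
    push_eq_zero_of_deg p (hβ l hl).1 (by omega)
  have hf' : C.push f 1 = const C X M := hf
  have h1 : Pieces H Y (cross C M (C.cograph f) (C.cograph f)) :=
    Pieces.similar (H := H) (Y := Y) X (0 : ℤ) (C.cograph f) M (by rw [hYX]; ring)
      (by rw [add_zero]; exact cograph_mem f) hM
      (by rw [Pairs, tp_cograph, cograph_graph, hf', mulCorr_const]) hX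
  have h3 := tower_orth (C := C) (A := relativeTower C p j β) (r := r) (N := N)
    (x := cross C M (C.cograph f) (C.cograph f))
    (fun l hl => by
      rw [cross, tp_cograph, comp_smul', ← comp_assoc, relativeTower_graph hsq (h0 l hl),
        zero_comp, smul_zero])
    (fun l hl => by
      rw [cross, tp_cograph, smul_comp', comp_assoc, cograph_tp_relativeTower hsq (h0 l hl),
        comp_zero, smul_zero])
  exact Pieces.add _ _ h1 (pieces_tower hA hZ hZ') h3.2 h3.1

lemma smallComplement_dg : SmallComplement H (dg C Y) := by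
  rw [SmallComplement, sub_self]
  constructor
  · intro γ _ hγ _
    refine ⟨1, ?_⟩
    rw [zero_comp, zero_comp] at hγ
    rw [← hγ]
    exact comp_zero _ _
  · intro n
    refine ⟨0, Submodule.zero_mem _, fun m a _ => ?_⟩
    rw [map_zero, TheoryData.act_zero, ite_self]

/-- The statement of the result. -/
theorem result_aux :
    (∀ (Y : 𝒱.Obj) (q : C.A (Y.prod Y)), Pieces H Y q → SmallComplement H q →
      HasSelfDualCK H Y) ∧
    (∀ (Y Z : 𝒱.Obj) (e : ℤ) (r : ℕ) (N : ℚ) (A : ℕ → C.A (Z.prod Y)), IsTower C e r N A →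
      (∃ π, IsCK H Z π) → (Odd r ∨ HasSelfDualCK H Z) → Pieces H Y (towerProjector C r N A)) ∧
    (∀ (X Y : 𝒱.Obj) (f : Y ⟶ X) (r : ℕ) (h : C.A Y) (N : ℚ), Y.dim = X.dim + r →
      C.Deg 1 h → N ≠ 0 → C.down f (h ^ r) = const C X N →
      ∃ β : ℕ → C.A Y, IsRelativeBasis C f 1 h r N β ∧ IsTower C 0 r N (relativeTower C f (𝟙 Y) β) ∧
        (SmallComplement H (towerProjector C r N (relativeTower C f (𝟙 Y) β)) →
          (∃ π, IsCK H X π) → (Odd r ∨ HasSelfDualCK H X) → HasSelfDualCK H Y)) ∧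
    (∀ (X Y Z E : 𝒱.Obj) (f : Y ⟶ X) (j : E ⟶ Y) (p : E ⟶ Z) (i : Z ⟶ X) (r s : ℕ)
      (w h : C.A E) (M N : ℚ), Y.dim = X.dim → M ≠ 0 → C.down f 1 = const C X M → j ≫ f = p ≫ i →
      0 < s → IsTowerDatum C p j r s w h N →
      ∃ β : ℕ → C.A E, IsRelativeBasis C p w h r N β ∧ IsTower C s r N (relativeTower C p j β) ∧
        (SmallComplement H (cross C M (C.cograph f) (C.cograph f) +
            towerProjector C r N (relativeTower C p j β)) →
          HasSelfDualCK H X → (∃ π, IsCK H Z π) → (Odd r ∨ HasSelfDualCK H Z) →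
          HasSelfDualCK H Y)) ∧
    (∀ Y : 𝒱.Obj, SmallComplement H (dg C Y)) := by
  have h1 : ∀ (Y : 𝒱.Obj) (q : C.A (Y.prod Y)), Pieces H Y q → SmallComplement H q →
      HasSelfDualCK H Y :=
    fun Y q hq h => selfDual_of_pieces hq h
  refine ⟨h1, fun Y Z e r N A hA hZ hZ' => pieces_tower hA hZ hZ', ?_, ?_,
    fun Y => smallComplement_dg (H := H)⟩
  · intro X Y f r h N hY hh hN hf
    have hD := isTowerDatum_id hY hh hN hf
    obtain ⟨β, hβ⟩ := exists_relativeBasis hD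
    have hA := isTower_relative hD hβ
    rw [Nat.cast_zero] at hA
    exact ⟨β, hβ, hA, fun hsm hX hX' => h1 _ _ (pieces_tower hA hX hX') hsm⟩
  · intro X Y Z E f j p i r s w h M N hYX hM hf hsq hs hD
    obtain ⟨β, hβ⟩ := exists_relativeBasis hD
    exact ⟨β, hβ, isTower_relative hD hβ,
      fun hsm hX hZ hZ' => h1 _ _ (pieces_modification hYX hM hf hsq hs hD hβ hX hZ hZ') hsm⟩

end Pool.Agent.K3h19.CKD
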