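import Pool.Agent.K3h19.CKD.Hyp

/-!
# Morphisms
-/

open CategoryTheory AlgebraicGeometry

universe u v w

namespace Pool.Agent.K3h19.CKD

open Pool.Agent.H914 Pool.Agent.H914.VarClass Pool.Agent.H914.VarClass.Obj Pool.Agent.W492.BB
  Pool.Agent.W550.Corr Pool.Agent.TH133 Pool.Agent.Y107 Pool.Agent.K3h96.SD

set_option linter.unusedSectionVars false

variable {k : Type u} [Field k] {𝒱 : VarClass k}
  {C : TheoryData.{u, v, 0} 𝒱 ℚ} [hC : IsChowProj C] {X Y : 𝒱.Obj}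

include hC

lemma tp_cograph (f : Y ⟶ X) : tp C (C.cograph f) = C.graph f := by
  rw [tp_eq_push, TheoryData.cograph, TheoryData.graph, ← C.push_comp]
  have e1 : Obj.lift f (𝟙 Y) ≫ sw X Y = Obj.lift (𝟙 Y) f := by
    apply prod_ext <;> simp [sw, comp_lift]
  rw [e1]

lemma tp_graph (f : Y ⟶ X) : tp C (C.graph f) = C.cograph f := by
  rw [← tp_cograph, tp_tp]

lemma mulCorr_smul (q : ℚ) (D : C.A X) : C.mulCorr (q • D) = q • C.mulCorr D := map_smul _ _ _

lemma mulCorr_one : C.mulCorr (1 : C.A X) = dg C X := rfl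

lemma mulCorr_mem {D : C.A X} {i : ℤ} (hD : C.Deg i D) :
    C.mulCorr D ∈ C.gr (X.prod X) (X.dim + i) := by
  have h := C.push_mem (Obj.lift (𝟙 X) (𝟙 X)) hD
  have e1 : i + 1 * (((X.prod X).dim : ℤ) - (X.dim : ℤ)) = X.dim + i := by
    rw [dim_prod]; push_cast; ring
  rwa [e1] at h

/-- `f_* ∘ (ξ ·) ∘ f^* = (f_* ξ) ·`. -/
lemma cograph_mulCorr_graph (f : Y ⟶ X) (ξ : C.A Y) :
    C.comp (C.cograph f) (C.comp (C.mulCorr ξ) (C.graph f)) = C.mulCorr (C.push f ξ) := by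
  have e1 : Obj.lift f (𝟙 Y) ≫ prodMap (𝟙 X) f = f ≫ Obj.lift (𝟙 X) (𝟙 X) := by
    apply prod_ext <;> simp
  rw [← comp_assoc, comp_mulCorr, comp_eq_extR, extR_graph, TheoryData.cograph, ← C.proj_left,
    ← C.pull_comp, lift_snd, C.pull_id, ← C.push_comp, e1, C.push_comp]
  rw [mul_one]
  rfl

lemma push_one_eq_zero (f : Y ⟶ X) (hd : X.dim < Y.dim) : C.push f 1 = 0 := by
  have h := C.push_mem f (C.one_mem Y)
  rw [C.gr_neg X _ (by omega)] at h
  exact (Submodule.mem_bot _).1 h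

variable {K : Type w} [Field K] {H : WeilTheoryData.{u, v, w} C K} [hH : IsWeilProj H]

include hH

/-- The equivalences for a generically finite morphism. -/
theorem iff_cover (f : Y ⟶ X) (hd : Y.dim = X.dim) {N : ℚ} (hN : N ≠ 0)
    (hf : C.push f 1 = N • 1)
    (hnil : NilpotentEnd H (dg C Y - N⁻¹ • C.comp (C.graph f) (C.cograph f))) :
    ((∃ π, IsCK H Y π) ↔
      (∃ π, IsCK H X π) ∧
        AlgebraicKunneth H (dg C Y - N⁻¹ • C.comp (C.graph f) (C.cograph f))) ∧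
    (HasSelfDualCK H Y ↔
      HasSelfDualCK H X ∧
        AlgebraicKunneth H (dg C Y - N⁻¹ • C.comp (C.graph f) (C.cograph f))) := by
  rw [← tp_cograph] at hnil ⊢
  refine iff_similitude (a := C.cograph f) (e := 0) (by rw [hd]; ring) ?_ hN ?_ hnil
  · rw [add_zero]; exact cograph_mem f
  · rw [tp_cograph, cograph_graph, hf, mulCorr_smul]
    rfl

/-- Morphisms with positive dimensional fibres. -/
theorem selfDual_of_fibration (f : Y ⟶ X) (hd : X.dim < Y.dim) (ξ : C.A Y)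
    (hξ : C.Deg ((Y.dim : ℤ) - X.dim) ξ) {N : ℚ} (hN : N ≠ 0) (hf : C.push f ξ = N • 1)
    (a b : C.A (X.prod Y)) (ha : a = C.cograph f) (hb : b = C.comp a (C.mulCorr ξ) -
      (2 * N)⁻¹ • C.comp (C.mulCorr (C.push f (ξ * ξ))) a)
    (hnil : NilpotentEnd H (dg C Y - N⁻¹ • (C.comp (tp C b) a + C.comp (tp C a) b)))
    (hK : AlgebraicKunneth H (dg C Y - N⁻¹ • (C.comp (tp C b) a + C.comp (tp C a) b)))
    (hX : ∃ π, IsCK H X π) : HasSelfDualCK H Y := by
  obtain ⟨π, hπ⟩ := hX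
  obtain ⟨W, hW⟩ : ∃ W : C.A (X.prod X), W = C.mulCorr (C.push f (ξ * ξ)) := ⟨_, rfl⟩
  rw [← hW] at hb
  have hta : tp C a = C.graph f := by rw [ha, tp_cograph]
  have htW : tp C W = W := by rw [hW, tp_mulCorr]
  have haa : C.comp a (tp C a) = 0 := by
    rw [hta, ha, cograph_graph, push_one_eq_zero f hd]
    exact map_zero _
  have htb : tp C b = C.comp (C.mulCorr ξ) (tp C a) - (2 * N)⁻¹ • C.comp (tp C a) W := by
    rw [hb, tp_sub, tp_smul, tp_comp C (ch_comm C), tp_comp C (ch_comm C), tp_mulCorr, htW]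
  have h1 : C.comp a (C.comp (C.mulCorr ξ) (tp C a)) = N • dg C X := by
    rw [hta, ha, cograph_mulCorr_graph, hf, mulCorr_smul]
    rfl
  have h2 : C.comp a (C.comp (C.mulCorr ξ) (C.comp (C.mulCorr ξ) (tp C a))) = W := by
    have h3 : C.comp (C.mulCorr ξ) (C.mulCorr ξ) = C.mulCorr (ξ * ξ) := by
      have := mulCorr_pow (C := C) ξ 2
      rw [pow_two] at this
      rw [← this]
      change _ = C.comp (C.comp (dg C Y) (C.mulCorr ξ)) (C.mulCorr ξ)
      rw [dg_comp]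
    rw [← comp_assoc C (C.mulCorr ξ), h3, hta, ha, cograph_mulCorr_graph, hW]
  have hab : C.comp a (tp C b) = N • dg C X := by
    rw [htb, comp_sub, comp_smul', h1, ← comp_assoc C a (tp C a), haa, zero_comp, smul_zero,
      sub_zero]
  have hbb : C.comp b (tp C b) = 0 := by
    have h4 : C.comp (C.comp a (C.mulCorr ξ)) (tp C b) = W - (2 * N)⁻¹ • (N • W) := by
      rw [comp_assoc, htb, comp_sub, comp_sub, h2, comp_smul', comp_smul',
        ← comp_assoc C (C.mulCorr ξ) (tp C a), ← comp_assoc C a, h1, smul_comp', dg_comp]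
    have h5 : C.comp ((2 * N)⁻¹ • C.comp W a) (tp C b) = (2 * N)⁻¹ • (N • W) := by
      rw [smul_comp', comp_assoc C W, hab, comp_smul', comp_dg]
    have h6 : C.comp b (tp C b) = C.comp (C.comp a (C.mulCorr ξ)) (tp C b) -
        C.comp ((2 * N)⁻¹ • C.comp W a) (tp C b) := by
      rw [← sub_comp, ← hb]
    rw [h6, h4, h5, sub_sub, ← two_smul ℚ, smul_smul, smul_smul,
      show (2 : ℚ) * (2 * N)⁻¹ * N = 1 by field_simp, one_smul, sub_self]
  refine selfDual_of_hyperbolic (e := 0) (e' := (Y.dim : ℤ) - X.dim) (by ring) ?_ ?_ hN haa hbb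
    hab hπ hnil hK
  · rw [add_zero, ha]; exact cograph_mem f
  · have ha0 : a ∈ C.gr (X.prod Y) (X.dim + 0) := by rw [add_zero, ha]; exact cograph_mem f
    have h7 := comp_mem C ha0 (mulCorr_mem hξ)
    rw [zero_add] at h7
    have h8 : C.push f (ξ * ξ) ∈ C.gr X ((Y.dim : ℤ) - X.dim) := by
      have h9 := C.push_mem f (C.mul_mem hξ hξ)
      rwa [show (Y.dim : ℤ) - X.dim + (Y.dim - X.dim) + 1 * ((X.dim : ℤ) - Y.dim) =
        Y.dim - X.dim by ring] at h9
    have h9 := comp_mem C (mulCorr_mem h8) ha0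
    rw [add_zero, ← hW] at h9
    rw [hb]
    exact Submodule.sub_mem _ h7 (Submodule.smul_mem _ _ h9)

end Pool.Agent.K3h19.CKD
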