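import Pool.Agent.K3h19.CKD.Ascend

/-!
# Cancellation of a motive with nilpotent homologically trivial endomorphisms
-/

open CategoryTheory AlgebraicGeometry

universe u v w

namespace Pool.Agent.K3h19.CKD

open Pool.Agent.H914 Pool.Agent.H914.VarClass Pool.Agent.H914.VarClass.Obj Pool.Agent.W492.BB
  Pool.Agent.W550.Corr Pool.Agent.TH133 Pool.Agent.Y107 Pool.Agent.K3h96.SD

set_option linter.unusedSectionVars false

variable {k : Type u} [Field k] {𝒱 : VarClass k}
  {C : TheoryData.{u, v, 0} 𝒱 ℚ} [hC : IsChowProj C] {X Y : 𝒱.Obj}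
  {K : Type w} [Field K] {H : WeilTheoryData.{u, v, w} C K} [hH : IsWeilProj H]

include hC hH

lemma IsCKOf.mul_eq {q : Cor C Y} {P : ℕ → Cor C Y} (h : IsCKOf H (Y := Y) q P) (i j : ℕ) :
    P i * P j = if i = j then P i else 0 := by
  by_cases h2 : i = j
  · rw [if_pos h2, ← h2]
    exact h.idem i
  · rw [if_neg h2]
    exact h.orth j i (Ne.symm h2)

lemma IsCKOf.sum_eq {q : Cor C Y} {P : ℕ → Cor C Y} (h : IsCKOf H (Y := Y) q P) :
    ∑ i ∈ Finset.range (2 * Y.dim + 1), P i = q := h.sum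

lemma IsCKOf.mul_left {q : Cor C Y} {P : ℕ → Cor C Y} (h : IsCKOf H (Y := Y) q P) (i : ℕ) :
    q * P i = P i := by
  by_cases hi : i < 2 * Y.dim + 1
  · rw [← h.sum_eq, Finset.sum_mul, Finset.sum_eq_single i]
    · rw [h.mul_eq, if_pos rfl]
    · intro j _ hj; rw [h.mul_eq, if_neg hj]
    · intro h; exact absurd (Finset.mem_range.2 hi) h
  · have : P i = 0 := h.out i (by omega)
    rw [this, mul_zero]

lemma IsCKOf.mul_right {q : Cor C Y} {P : ℕ → Cor C Y} (h : IsCKOf H (Y := Y) q P) (i : ℕ) :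
    P i * q = P i := by
  by_cases hi : i < 2 * Y.dim + 1
  · rw [← h.sum_eq, Finset.mul_sum, Finset.sum_eq_single i]
    · rw [h.mul_eq, if_pos rfl]
    · intro j _ hj; rw [h.mul_eq, if_neg hj.symm]
    · intro h; exact absurd (Finset.mem_range.2 hi) h
  · have : P i = 0 := h.out i (by omega)
    rw [this, zero_mul]

/-- The weight of a Chow-Kunneth decomposition of a motive. -/
lemma exists_weight_of {q : Cor C Y} {P : ℕ → Cor C Y}
    (h : IsCKOf H (Y := Y) q P) : ∃ s ∈ cor0 C Y, q * s = s ∧ s * q = s ∧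
      (∀ (m : ℤ) (v : H.A Y), v ∈ H.gr Y m →
        actH C Y H s v = (((Y.dim : ℤ) - m : ℤ) : K) • actH C Y H q v) ∧
      IsAlgebraic ℚ s ∧ (IsSelfDual C (X := Y) P → tpR C Y s = -s) := by
  refine ⟨∑ n ∈ Finset.range (2 * Y.dim + 1), ((Y.dim : ℚ) - n) • P n, ?_, ?_, ?_, ?_, ?_, ?_⟩
  · exact (cor0 C Y).sum_mem fun n _ => (cor0 C Y).smul_mem (h.deg n) _
  · rw [Finset.mul_sum]
    exact Finset.sum_congr rfl fun n _ => by rw [mul_smul_comm, h.mul_left]
  · rw [Finset.sum_mul]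
    exact Finset.sum_congr rfl fun n _ => by rw [smul_mul_assoc, h.mul_right]
  · intro m b hb
    have hact : ∀ n : ℕ, actH C Y H (P n) b = if m = n then actH C Y H q b else 0 := fun n =>
      h.act n m b hb
    rw [map_sum, LinearMap.sum_apply]
    by_cases hb0 : b = 0
    · subst hb0
      rw [map_zero, smul_zero]
      exact Finset.sum_eq_zero fun n _ => map_zero _
    have hm0 := nonneg_of_mem H hb hb0
    have hm1 : m ≤ 2 * Y.dim := by
      by_contra hcon
      have hb' : b ∈ H.gr Y m := hb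
      rw [gr_top H (by omega)] at hb'
      exact hb0 ((Submodule.mem_bot _).1 hb')
    obtain ⟨m, rfl⟩ := Int.eq_ofNat_of_zero_le hm0
    rw [Finset.sum_eq_single m]
    · rw [actH_smul, hact m, if_pos rfl,
        show ((Y.dim : ℚ) - m : ℚ) = (((Y.dim : ℤ) - m : ℤ) : ℚ) by push_cast; rfl,
        Rat.cast_intCast]
    · intro n _ hn
      rw [actH_smul, hact n, if_neg, smul_zero]
      intro h5
      apply hn
      exact_mod_cast h5.symm
    · intro h5
      exfalso
      apply h5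
      rw [Finset.mem_range]
      omega
  · let p : Fin (2 * Y.dim + 1) → Cor C Y := fun i => P i
    have hpp : ∀ i j, p i * p j = if i = j then p i else 0 := by
      intro i j
      change P i * P j = _
      rw [h.mul_eq]
      by_cases hij : i = j
      · rw [if_pos hij, if_pos (by rw [hij])]
      · rw [if_neg hij, if_neg (fun h => hij (Fin.ext h))]
    have h2 : ∑ n ∈ Finset.range (2 * Y.dim + 1), ((Y.dim : ℚ) - n) • P n =
        ∑ i : Fin (2 * Y.dim + 1), ((Y.dim : ℚ) - (i : ℕ)) • p i :=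
      (Fin.sum_univ_eq_sum_range (fun n => ((Y.dim : ℚ) - n) • P n) _).symm
    rw [h2]
    exact isAlgebraic_sum_orth _ hpp
  · intro hsd
    rw [map_sum, ← Finset.sum_neg_distrib, ← Finset.sum_range_reflect]
    apply Finset.sum_congr rfl
    intro n hn
    rw [Finset.mem_range] at hn
    have e1 : tpR C Y (P (2 * Y.dim + 1 - 1 - n)) = P (2 * Y.dim - (2 * Y.dim + 1 - 1 - n)) :=
      hsd _ (by omega)
    rw [tpR_smul, e1, show 2 * Y.dim - (2 * Y.dim + 1 - 1 - n) = n by omega, ← neg_smul,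
      show 2 * Y.dim + 1 - 1 - n = 2 * Y.dim - n by omega, Nat.cast_sub (by omega)]
    congr 1
    push_cast
    ring

/-- The restriction of a compatible decomposition to `(Y, q)`. -/
lemma isCKOf_of_commute {q : Cor C Y} (hq0 : q ∈ cor0 C Y) (hqq : q * q = q) {P : ℕ → Cor C Y}
    (h : IsCK H Y P) (hc : ∀ n, P n * q = q * P n) :
    IsCKOf H (Y := Y) q (fun n => P n * q : ℕ → Cor C Y) := by
  have hmul : ∀ i j, (P i * q) * (P j * q) = if i = j then P i * q else 0 := by
    intro i j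
    calc (P i * q) * (P j * q) = P i * (q * P j) * q := by simp only [mul_assoc]
      _ = P i * P j * (q * q) := by rw [← hc]; simp only [mul_assoc]
      _ = _ := by
        rw [hqq, h.mul_eq]
        split_ifs
        · rfl
        · rw [zero_mul]
  refine ⟨?_, ?_, ?_, ?_, ?_, ?_⟩
  · intro i
    exact (cor0 C Y).mul_mem (h.deg i) hq0
  · intro i hi
    have h1 : P i = 0 := h.out i hi
    change P i * q = 0
    rw [h1, zero_mul]
  · intro i
    have := hmul i i
    rw [if_pos rfl] at this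
    exact this
  · intro i j hij
    have := hmul j i
    rw [if_neg hij.symm] at this
    exact this
  · change ∑ i ∈ Finset.range (2 * Y.dim + 1), P i * q = q
    rw [← Finset.sum_mul, h.sum_eq, one_mul]
  · intro i m v hv
    change actH C Y H (P i * q) v = if m = i then actH C Y H q v else 0
    rw [map_mul, Module.End.mul_apply, h.actH_eq' i m (actH_mem0 hq0 hv)]

/-- **Cancellation.** -/
theorem iff_motive {q : Cor C Y} (hq0 : q ∈ cor0 C Y) (hqq : q * q = q)
    (hnil : NilpotentEnd H (Y := Y) ((1 : Cor C Y) - q)) :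
    ((∃ π, IsCK H Y π) ↔ (∃ π, IsCKOf H (Y := Y) q π) ∧
      AlgebraicKunneth H (Y := Y) ((1 : Cor C Y) - q)) ∧
    (tpR C Y q = q → (HasSelfDualCK H Y ↔ (∃ π, IsCKOf H (Y := Y) q π ∧ IsSelfDual C π) ∧
      AlgebraicKunneth H (Y := Y) ((1 : Cor C Y) - q))) := by
  have hf0 : (1 : Cor C Y) - q ∈ cor0 C Y := (cor0 C Y).sub_mem (cor0 C Y).one_mem hq0
  constructor
  · constructor
    · rintro ⟨π, h1⟩
      obtain ⟨P, h3, h4, _⟩ := exists_compatible (P := π) h1 hq0 hqq hnil
      exact ⟨⟨_, isCKOf_of_commute hq0 hqq h3 h4⟩, algebraicKunneth_of_isCK (π := π) h1 hf0⟩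
    · rintro ⟨⟨π, h1⟩, h2⟩
      obtain ⟨s, hs0, hqs, hsq, hw, halg, _⟩ := exists_weight_of (P := π) h1
      obtain ⟨s', h11, h12, h13, _⟩ := ascend hq0 hqq hs0 hqs hsq hw halg hnil h2
      exact exists_CK_of_weight h11 h12 h13
  · intro htq
    constructor
    · rintro ⟨π, h1, h2⟩
      obtain ⟨P, h3, h4, h5⟩ := exists_compatible (P := π) h1 hq0 hqq hnil
      refine ⟨⟨_, isCKOf_of_commute hq0 hqq h3 h4, ?_⟩,
        algebraicKunneth_of_isCK (π := π) h1 hf0⟩
      intro n hn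
      have h6 : tpR C Y (P n) = P (2 * Y.dim - n) := h5 htq h2 n hn
      change tpR C Y (P n * q) = P (2 * Y.dim - n) * q
      rw [tpR_mul, htq, h6, h4]
    · rintro ⟨⟨π, h1, h3⟩, h2⟩
      obtain ⟨s, hs0, hqs, hsq, hw, halg, hskew⟩ := exists_weight_of (P := π) h1
      obtain ⟨s', h11, h12, h13, h14⟩ := ascend hq0 hqq hs0 hqs hsq hw halg hnil h2
      exact exists_of_skew _ h11 (h14 htq (hskew h3)) h12 h13

variable {a : C.A (X.prod Y)} {N : ℚ} {e : ℤ}

/-- The equivalences for a similitude `a`. -/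
theorem iff_similitude (he : 2 * e = (Y.dim : ℤ) - X.dim) (ha : C.Deg ((X.dim : ℤ) + e) a)
    (hN : N ≠ 0) (haa : C.comp a (tp C a) = N • dg C X)
    (hnil : NilpotentEnd H (dg C Y - N⁻¹ • C.comp (tp C a) a)) :
    ((∃ π, IsCK H Y π) ↔
      (∃ π, IsCK H X π) ∧ AlgebraicKunneth H (dg C Y - N⁻¹ • C.comp (tp C a) a)) ∧
    (HasSelfDualCK H Y ↔
      HasSelfDualCK H X ∧ AlgebraicKunneth H (dg C Y - N⁻¹ • C.comp (tp C a) a)) := by
  have hfe : (dg C Y - N⁻¹ • C.comp (tp C a) a : C.A (Y.prod Y)) =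
      ((1 : Cor C Y) - phi a N 1 : Cor C Y) := by
    have h1 : (phi a N 1 : Cor C Y) = phiA a N (dg C X) := rfl
    rw [h1, phiA_dg]
    rfl
  have hq0 : phi a N 1 ∈ cor0 C Y := phi_mem he ha (cor0 C X).one_mem
  have hqq : phi a N 1 * phi a N 1 = phi a N 1 := by rw [← phi_mul hN haa, one_mul]
  have htq : tpR C Y (phi a N 1) = phi a N 1 := by rw [phi_tp, tpR_one]
  rw [hfe] at hnil ⊢
  have hf0 : (1 : Cor C Y) - phi a N 1 ∈ cor0 C Y := (cor0 C Y).sub_mem (cor0 C Y).one_mem hq0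
  -- descent
  have hdes : ∀ π, IsCK H Y π → ∃ s ∈ cor0 C X, ActsByWeight H (X := X) s ∧ IsAlgebraic ℚ s ∧
      (IsSelfDual C π → tpR C X s = -s) := by
    intro π h1
    obtain ⟨P, h3, h4, h5⟩ := exists_compatible (P := π) h1 hq0 hqq hnil
    obtain ⟨s, h6, h7, h8, h9, h10⟩ := exists_weight h3 h4
    obtain ⟨h11, h12, h13, h14⟩ := descend he ha hN haa h6 h7 h8 h9
    exact ⟨_, h11, h12, h13, fun h => h14 (h10 (h5 htq h))⟩
  -- ascent
  have hasc : ∀ π, IsCK H X π → AlgebraicKunneth H (Y := Y) ((1 : Cor C Y) - phi a N 1) →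
      ∃ s ∈ cor0 C Y, ActsByWeight H (X := Y) s ∧ IsAlgebraic ℚ s ∧
      (IsSelfDual C π → tpR C Y s = -s) := by
    intro π h1 h2
    obtain ⟨s, h6, _, h8, h9, h10⟩ := exists_weight (q := 1) (P := π) h1
      (fun n => (Commute.one_right (show Cor C X from π n)).eq)
    obtain ⟨s', h11, h12, h13, h14⟩ := ascend (s := phi a N s) hq0 hqq (phi_mem he ha h6)
      (by rw [← phi_mul hN haa, one_mul]) (by rw [← phi_mul hN haa, mul_one])
      (by
        intro m v hv
        apply act_phi_scalar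
        have h2 := h8 (m - 2 * e) _ (act_ta_mem (H := H) he ha hv)
        rw [he, show (X.dim : ℤ) - (m - (Y.dim - X.dim)) = Y.dim - m by ring] at h2
        exact h2)
      (isAlgebraic_map _ (fun n => by
        induction n with
        | zero => rw [zero_add, pow_one, pow_one]
        | succ n ih => rw [pow_succ, phi_mul hN haa, ih, ← pow_succ]) h9) hnil h2
    exact ⟨s', h11, h12, h13, fun h => h14 htq (by rw [phi_tp, h10 h, map_neg])⟩
  constructor
  · constructor
    · rintro ⟨π, h1⟩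
      obtain ⟨s, h2, h3, h4, _⟩ := hdes π h1
      exact ⟨exists_CK_of_weight h2 h3 h4, algebraicKunneth_of_isCK (π := π) h1 hf0⟩
    · rintro ⟨⟨π, h1⟩, h2⟩
      obtain ⟨s, h3, h4, h5, _⟩ := hasc π h1 h2
      exact exists_CK_of_weight h3 h4 h5
  · constructor
    · rintro ⟨π, h1, h0⟩
      obtain ⟨s, h2, h3, h4, h5⟩ := hdes π h1
      exact ⟨exists_of_skew s h2 (h5 h0) h3 h4, algebraicKunneth_of_isCK (π := π) h1 hf0⟩
    · rintro ⟨⟨π, h1, h0⟩, h2⟩
      obtain ⟨s, h3, h4, h5, h6⟩ := hasc π h1 h2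
      exact exists_of_skew s h3 (h6 h0) h4 h5

end Pool.Agent.K3h19.CKD
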