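import Pool.Agent.K3h19.CKD.Defs
import Pool.Agent.Y107.SDMul

/-!
# Orthogonal sums of similar and hyperbolic pieces; towers: definitions
-/

open CategoryTheory AlgebraicGeometry

universe u v w

namespace Pool.Agent.K3h19.CKD

open Pool.Agent.H914 Pool.Agent.H914.VarClass Pool.Agent.H914.VarClass.Obj Pool.Agent.W492.BB
  Pool.Agent.W550.Corr Pool.Agent.TH133 Pool.Agent.Y107 Pool.Agent.K3h96.SD

variable {k : Type u} [Field k] {𝒱 : VarClass k}

section chow

variable (C : TheoryData.{u, v, 0} 𝒱 ℚ) {X Y Z E : 𝒱.Obj}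

/-- `b^t ∘ a = q · id` on `h(Z)`, for correspondences `a`, `b` from `Z` to `Y`. -/
def Pairs (a b : C.A (Z.prod Y)) (q : ℚ) : Prop := C.comp a (tp C b) = q • dg C Z

/-- The self-correspondence `q⁻¹ a ∘ b^t` of `Y`, for correspondences `a`, `b` from `Z` to `Y`. -/
noncomputable def cross (q : ℚ) (a b : C.A (Z.prod Y)) : C.A (Y.prod Y) :=
  q⁻¹ • C.comp (tp C b) a

/-- The class `q · 1` on `X`. -/
def const (X : 𝒱.Obj) (q : ℚ) : C.A X := q • (1 : C.A X)

/-- The correspondences `A 0, …, A r` from `Z` to `Y`, `A i : h(Z)(-(e + i)) → h(Y)`, are a tower: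
`(A j)^t ∘ A i` is `N ≠ 0` times the identity of `h(Z)` if `i + j = r`, and zero otherwise, and the
motives `h(Z)(-(e + i))` and `h(Z)(-(e + r - i))` are dual to each other in the dimension of `Y`. -/
def IsTower (e : ℤ) (r : ℕ) (N : ℚ) (A : ℕ → C.A (Z.prod Y)) : Prop :=
  2 * e + r = (Y.dim : ℤ) - Z.dim ∧ N ≠ 0 ∧ ∀ i ≤ r, C.Deg ((Z.dim : ℤ) + (e + i)) (A i) ∧
    ∀ j ≤ r, Pairs C (A i) (A j) (if i + j = r then N else 0)

/-- The projector `N⁻¹ ∑ A i ∘ (A (r - i))^t`, `i = 0, …, r`, on the sum of the images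
`h(Z)(-(e + i))` of a tower. -/
noncomputable def towerProjector (r : ℕ) (N : ℚ) (A : ℕ → C.A (Z.prod Y)) : C.A (Y.prod Y) :=
  ∑ i ∈ Finset.range (r + 1), cross C N (A i) (A (r - i))

/-- The classes `∑ p^* x_l · h^l`, `l < i`. -/
def lowerClasses (p : E ⟶ Z) (h : C.A E) (i : ℕ) : Submodule ℚ (C.A E) :=
  Submodule.span ℚ {y | ∃ (x : C.A Z) (l : ℕ), l < i ∧ y = C.mul (C.up p x) (h ^ l)}

/-- The classes `β 0, …, β r` on `E`, `β i ∈ CH^i(E)`, are a relative basis of `p : E → Z` with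
respect to the class `w` on `E`: `p_* (w · β i · β j)` is `N` if `i + j = r` and `0` otherwise, and
`β i = h^i + (a combination of the p^* x · h^l, l < i)`. -/
def IsRelativeBasis (p : E ⟶ Z) (w h : C.A E) (r : ℕ) (N : ℚ) (β : ℕ → C.A E) : Prop :=
  ∀ i ≤ r, C.Deg i (β i) ∧ β i - h ^ i ∈ lowerClasses C p h i ∧
    ∀ j ≤ r, C.down p (C.mul w (C.mul (β i) (β j))) = const C Z (if i + j = r then N else 0)

/-- The correspondences `x ↦ j_* (β i · p^* x)` from `Z` to `Y`, for morphisms `p : E → Z` and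
`j : E → Y`. -/
noncomputable def relativeTower (p : E ⟶ Z) (j : E ⟶ Y) (β : ℕ → C.A E) (i : ℕ) :
    C.A (Z.prod Y) :=
  C.comp (C.comp (C.cograph p) (C.mulCorr (β i))) (C.graph j)

/-- The variety `E` has dimension `dim Z + r + s` and codimension `s` in `Y`, the correspondence
`j^* ∘ j_*` is the multiplication by a class `w ∈ CH^s(E)`, and `p_* (w · h^r) = N ≠ 0` for a
divisor class `h` on `E`. Examples: `E = Y`, `j = id`, `s = 0`, `w = 1` and `p : Y → Z` of relative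
dimension `r` with `p_* (h^r) = N ≠ 0`; or the exceptional divisor `E` of a blow-up in a centre `Z` of
codimension `r + 2`, `s = 1`, `w = -h`. -/
def IsTowerDatum (p : E ⟶ Z) (j : E ⟶ Y) (r s : ℕ) (w h : C.A E) (N : ℚ) : Prop :=
  E.dim = Z.dim + (r + s) ∧ Y.dim = E.dim + s ∧ C.Deg s w ∧ C.Deg 1 h ∧ N ≠ 0 ∧
    C.comp (C.graph j) (C.cograph j) = C.mulCorr w ∧ C.down p (C.mul w (h ^ r)) = const C Z N

end chow

variable {C : TheoryData.{u, v, 0} 𝒱 ℚ} {K : Type w} [Field K] (H : WeilTheoryData.{u, v, w} C K)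

/-- The projector `q` of `Y` is an orthogonal sum of pieces of two kinds:

* `similar`: the image of a similitude `a : h(Z)(-e) → h(Y)`, `a^t ∘ a = N · 1`, `N ≠ 0`, for a
  variety `Z` with a self-dual Chow-Kunneth decomposition;
* `hyperbolic`: the image of a hyperbolic pair `a : h(Z)(-e) → h(Y)`, `b : h(Z)(-e') → h(Y)`,
  `a^t ∘ a = 0`, `b^t ∘ b = 0`, `b^t ∘ a = N · 1`, for a variety `Z` with a Chow-Kunneth
  decomposition, which need not be self-dual. -/
inductive Pieces (Y : 𝒱.Obj) : C.A (Y.prod Y) → Prop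
  | zero : Pieces Y 0
  | similar (Z : 𝒱.Obj) (e : ℤ) (a : C.A (Z.prod Y)) (N : ℚ)
      (he : 2 * e = (Y.dim : ℤ) - Z.dim) (ha : C.Deg ((Z.dim : ℤ) + e) a) (hN : N ≠ 0)
      (haa : Pairs C a a N) (hZ : HasSelfDualCK H Z) : Pieces Y (cross C N a a)
  | hyperbolic (Z : 𝒱.Obj) (e e' : ℤ) (a b : C.A (Z.prod Y)) (N : ℚ)
      (he : e + e' = (Y.dim : ℤ) - Z.dim) (ha : C.Deg ((Z.dim : ℤ) + e) a)
      (hb : C.Deg ((Z.dim : ℤ) + e') b) (hN : N ≠ 0) (haa : Pairs C a a 0) (hbb : Pairs C b b 0)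
      (hab : Pairs C a b N) (hZ : ∃ π, IsCK H Z π) : Pieces Y (cross C N a b + cross C N b a)
  | add (q q' : C.A (Y.prod Y)) (hq : Pieces Y q) (hq' : Pieces Y q')
      (h1 : C.comp q q' = 0) (h2 : C.comp q' q = 0) : Pieces Y (q + q')

/-- The complement `(Y, Δ - q)` of `(Y, q)` in `h(Y)` is small: its homologically trivial
endomorphisms are nilpotent and its Kunneth components are algebraic. -/
def SmallComplement {Y : 𝒱.Obj} (q : C.A (Y.prod Y)) : Prop :=
  NilpotentEnd H (dg C Y - q) ∧ AlgebraicKunneth H (dg C Y - q)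

end Pool.Agent.K3h19.CKD
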