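import Pool.Agent.K3h19.CKD.Morph
import Pool.Agent.K3h19.CKD.PDefs
import Pool.Agent.K3h19.CKD.Gram

/-!
# Self-dual Chow-Kunneth decompositions from pieces
-/

open CategoryTheory AlgebraicGeometry

universe u v w

namespace Pool.Agent.K3h19.CKD

open Pool.Agent.H914 Pool.Agent.H914.VarClass Pool.Agent.H914.VarClass.Obj Pool.Agent.W492.BB
  Pool.Agent.W550.Corr Pool.Agent.TH133 Pool.Agent.Y107 Pool.Agent.K3h96.SD

set_option linter.unusedSectionVars false

variable {k : Type u} [Field k] {𝒱 : VarClass k}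
  {C : TheoryData.{u, v, 0} 𝒱 ℚ} [hC : IsChowProj C] {X Y : 𝒱.Obj}
  {K : Type w} [Field K] {H : WeilTheoryData.{u, v, w} C K} [hH : IsWeilProj H]

include hC

variable (H) in
/-- The projector `q` is equal to its transpose and there is an algebraic skew element acting by the
weight on `(Y, q)`. -/
def HasWeight (q : Cor C Y) : Prop :=
  q ∈ cor0 C Y ∧ q * q = q ∧ tpR C Y q = q ∧ ∃ s ∈ cor0 C Y, q * s = s ∧ s * q = s ∧
    (∀ (m : ℤ) (v : H.A Y), v ∈ H.gr Y m →
      H.act (H.cl (X := Y.prod Y) s) v =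
        (((Y.dim : ℤ) - m : ℤ) : K) • H.act (H.cl (X := Y.prod Y) q) v) ∧
    IsAlgebraic ℚ s ∧ tpR C Y s = -s

include hH

lemma hasWeight_zero : HasWeight H (0 : Cor C Y) := by
  refine ⟨(cor0 C Y).zero_mem, mul_zero _, map_zero _, 0, (cor0 C Y).zero_mem, mul_zero _,
    zero_mul _, ?_, isAlgebraic_zero, by rw [map_zero, neg_zero]⟩
  intro m v hv
  change actH C Y H 0 v = _ • actH C Y H 0 v
  rw [map_zero, LinearMap.zero_apply, smul_zero]

lemma HasWeight.add {q q' : Cor C Y} (h : HasWeight H q) (h' : HasWeight H q')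
    (h1 : q * q' = 0) (h2 : q' * q = 0) : HasWeight H (q + q') := by
  obtain ⟨hq0, hqq, htq, s, hs0, hqs, hsq, hw, ha, ht⟩ := h
  obtain ⟨hq0', hqq', htq', s', hs0', hqs', hsq', hw', ha', ht'⟩ := h'
  have e1 : q * s' = 0 := by rw [← hqs', ← mul_assoc, h1, zero_mul]
  have e2 : q' * s = 0 := by rw [← hqs, ← mul_assoc, h2, zero_mul]
  have e3 : s * q' = 0 := by rw [← hsq, mul_assoc, h1, mul_zero]
  have e4 : s' * q = 0 := by rw [← hsq', mul_assoc, h2, mul_zero]
  refine ⟨(cor0 C Y).add_mem hq0 hq0', ?_, ?_, s + s', (cor0 C Y).add_mem hs0 hs0', ?_, ?_, ?_,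
    ?_, ?_⟩
  · rw [add_mul, mul_add, mul_add, hqq, hqq', h1, h2, add_zero, zero_add]
  · rw [map_add, htq, htq']
  · rw [add_mul, mul_add, mul_add, hqs, hqs', e1, e2, add_zero, zero_add]
  · rw [add_mul, mul_add, mul_add, hsq, hsq', e3, e4, add_zero, zero_add]
  · intro m v hv
    change actH C Y H (s + s') v = _ • actH C Y H (q + q') v
    have h5 : actH C Y H s v = _ := hw m v hv
    have h6 : actH C Y H s' v = _ := hw' m v hv
    rw [map_add, map_add, LinearMap.add_apply, LinearMap.add_apply, h5, h6, smul_add]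
    rfl
  · apply isAlgebraic_add_orth _ _ ha ha'
    · rw [← hqs', ← mul_assoc, ← hsq, mul_assoc s, h1, mul_zero, zero_mul]
    · rw [← hqs, ← mul_assoc, ← hsq', mul_assoc s', h2, mul_zero, zero_mul]
  · rw [map_add, ht, ht', neg_add]

/-- **Assembly.** -/
theorem selfDual_of_hasWeight {q : Cor C Y} (h : HasWeight H q)
    (hnil : NilpotentEnd H (Y := Y) ((1 : Cor C Y) - q))
    (hK : AlgebraicKunneth H (Y := Y) ((1 : Cor C Y) - q)) : HasSelfDualCK H Y := by
  obtain ⟨hq0, hqq, htq, s, hs0, hqs, hsq, hw, ha, ht⟩ := h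
  obtain ⟨s', h11, h12, h13, h14⟩ := ascend hq0 hqq hs0 hqs hsq hw ha hnil hK
  exact exists_of_skew _ h11 (h14 htq ht) h12 h13

variable {a b : C.A (X.prod Y)} {N : ℚ} {e e' : ℤ}

lemma hasWeight_similar (he : 2 * e = (Y.dim : ℤ) - X.dim) (ha : C.Deg ((X.dim : ℤ) + e) a)
    (hN : N ≠ 0) (haa : C.comp a (tp C a) = N • dg C X) (hX : HasSelfDualCK H X) :
    HasWeight H (show Cor C Y from (N⁻¹ • C.comp (tp C a) a : C.A (Y.prod Y))) := by
  have hfe : (show Cor C Y from (N⁻¹ • C.comp (tp C a) a : C.A (Y.prod Y))) = phi a N 1 := by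
    have h1 : (phi a N 1 : Cor C Y) = phiA a N (dg C X) := rfl
    rw [h1, phiA_dg]
  rw [hfe]
  obtain ⟨π, h1, h0⟩ := hX
  obtain ⟨s, h6, _, h8, h9, h10⟩ := exists_weight (q := 1) (P := π) h1
    (fun n => (Commute.one_right (show Cor C X from π n)).eq)
  refine ⟨phi_mem he ha (cor0 C X).one_mem, by rw [← phi_mul hN haa, one_mul],
    by rw [phi_tp, tpR_one], phi a N s, phi_mem he ha h6, by rw [← phi_mul hN haa, one_mul],
    by rw [← phi_mul hN haa, mul_one], ?_, ?_, by rw [phi_tp, h10 h0, map_neg]⟩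
  · intro m v hv
    refine act_phi_scalar s v _ ?_
    have h2 := h8 (m - 2 * e) _ (act_ta_mem (H := H) he ha hv)
    rw [he, show (X.dim : ℤ) - (m - (Y.dim - X.dim)) = Y.dim - m by ring] at h2
    exact h2
  · refine isAlgebraic_map _ (fun n => ?_) h9
    induction n with
    | zero => rw [zero_add, pow_one, pow_one]
    | succ n ih => rw [pow_succ, phi_mul hN haa, ih, ← pow_succ]

lemma hasWeight_hyperbolic (he : e + e' = (Y.dim : ℤ) - X.dim)
    (ha : C.Deg ((X.dim : ℤ) + e) a) (hb : C.Deg ((X.dim : ℤ) + e') b) (hN : N ≠ 0)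
    (haa : C.comp a (tp C a) = 0) (hbb : C.comp b (tp C b) = 0)
    (hab : C.comp a (tp C b) = N • dg C X) (hX : ∃ π, IsCK H X π) :
    HasWeight H (show Cor C Y from
      (N⁻¹ • (C.comp (tp C b) a + C.comp (tp C a) b) : C.A (Y.prod Y))) := by
  obtain ⟨π, hπ⟩ := hX
  have hba : C.comp b (tp C a) = N • dg C X := by
    have h1 := congrArg (tp C) hab
    rw [tp_comp C (ch_comm C), tp_tp, tp_smul, tp_dg] at h1
    exact h1
  obtain ⟨q, hq⟩ : ∃ q : Cor C Y, q = th a b N 1 + th b a N 1 := ⟨_, rfl⟩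
  have hfe : (show Cor C Y from
      (N⁻¹ • (C.comp (tp C b) a + C.comp (tp C a) b) : C.A (Y.prod Y))) = q := by
    have h1 : (th a b N 1 : Cor C Y) = thA a b N (dg C X) := rfl
    have h2 : (th b a N 1 : Cor C Y) = thA b a N (dg C X) := rfl
    rw [hq, h1, h2, thA, thA, dg_comp, dg_comp, smul_add]
    rfl
  rw [hfe]
  have he' : e' + e = (Y.dim : ℤ) - X.dim := by rw [add_comm]; exact he
  have hq0 : q ∈ cor0 C Y := by
    rw [hq]
    exact (cor0 C Y).add_mem (th_mem he ha hb (cor0 C X).one_mem)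
      (th_mem he' hb ha (cor0 C X).one_mem)
  have hqa : ∀ x : Cor C X, q * th a b N x = th a b N x := by
    intro x
    rw [hq, add_mul, ← th_mul hN hab, one_mul, th_zero haa, add_zero]
  have haq : ∀ x : Cor C X, th a b N x * q = th a b N x := by
    intro x
    rw [hq, mul_add, ← th_mul hN hab, mul_one, th_zero hbb, add_zero]
  have hqb : ∀ x : Cor C X, q * th b a N x = th b a N x := by
    intro x
    rw [hq, add_mul, ← th_mul hN hba, one_mul, th_zero hbb, zero_add]
  have hbq : ∀ x : Cor C X, th b a N x * q = th b a N x := by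
    intro x
    rw [hq, mul_add, ← th_mul hN hba, mul_one, th_zero haa, zero_add]
  have hqq : q * q = q := by
    have h1 : (th a b N 1 + th b a N 1) * q = q := by rw [add_mul, haq, hbq, ← hq]
    rwa [← hq] at h1
  have htq : tpR C Y q = q := by
    rw [hq, map_add, th_tp, th_tp, tpR_one, add_comm]
  obtain ⟨s, hs0, _, hsw, hsa, _⟩ := exists_weight (q := 1) (P := π) hπ
    (fun n => (Commute.one_right (show Cor C X from π n)).eq)
  -- the shifted weight
  obtain ⟨r, hr⟩ : ∃ r : Cor C X, r = s + (algebraMap ℚ (Cor C X)) ((e' : ℚ) - e) := ⟨_, rfl⟩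
  have hr0 : r ∈ cor0 C X := by
    rw [hr]; exact (cor0 C X).add_mem hs0 ((cor0 C X).algebraMap_mem _)
  have hra : IsAlgebraic ℚ r := by
    rw [hr]
    obtain ⟨P, hP, hPs⟩ := hsa
    refine ⟨P.comp (Polynomial.X - Polynomial.C ((e' : ℚ) - e)), ?_, ?_⟩
    · intro h0
      apply hP
      have h1 : (P.comp (Polynomial.X - Polynomial.C ((e' : ℚ) - e))).comp
          (Polynomial.X + Polynomial.C ((e' : ℚ) - e)) = P := by
        rw [Polynomial.comp_assoc]; simp
      rw [← h1, h0, Polynomial.zero_comp]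
    · rw [Polynomial.aeval_comp, map_sub, Polynomial.aeval_X, Polynomial.aeval_C,
        add_sub_cancel_right, hPs]
  have hract : ∀ (m : ℤ) (v : H.A X), v ∈ H.gr X m →
      actH C X H r v = (((X.dim : ℤ) - m + (e' - e) : ℤ) : K) • v := by
    intro m v hv
    have h1 : actH C X H s v = (((X.dim : ℤ) - m : ℤ) : K) • v := hsw m v hv
    have h2 : actH C X H (algebraMap ℚ (Cor C X) ((e' : ℚ) - e)) v =
        (((e' - e : ℤ) : ℤ) : K) • v := by
      rw [Algebra.algebraMap_eq_smul_one, actH_smul, map_one, Module.End.one_apply,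
        show ((e' : ℚ) - e) = ((e' - e : ℤ) : ℚ) by push_cast; rfl, Rat.cast_intCast]
    rw [hr, map_add, LinearMap.add_apply, h1, h2, ← add_smul]
    congr 1
    push_cast
    rfl
  have hrtact : ∀ (m : ℤ) (v : H.A X), v ∈ H.gr X m →
      actH C X H (tpR C X r) v = (((X.dim : ℤ) - (2 * X.dim - m) + (e' - e) : ℤ) : K) • v :=
    fun m v hv => act_tp_scalar (H := H) (Γ := (r : C.A (X.prod X)))
      (fun m => (((X.dim : ℤ) - m + (e' - e) : ℤ) : K)) (fun m a ha => hract m a ha) m v hv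
  -- the weight on the hyperbolic part
  obtain ⟨s', hs'⟩ : ∃ s' : Cor C Y, s' = th a b N r + -tpR C Y (th a b N r) := ⟨_, rfl⟩
  have hts' : tpR C Y (th a b N r) = th b a N (tpR C X r) := th_tp _
  have h1 : s' ∈ cor0 C Y := by
    rw [hs']
    exact (cor0 C Y).add_mem (th_mem he ha hb hr0)
      ((cor0 C Y).neg_mem (tpR_mem (th_mem he ha hb hr0)))
  have h2 : tpR C Y s' = -s' := by
    rw [hs', map_add, map_neg, tpR_tpR]; abel
  have h3 : q * s' = s' := by rw [hs', mul_add, mul_neg, hts', hqa, hqb]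
  have h4 : s' * q = s' := by rw [hs', add_mul, neg_mul, hts', haq, hbq]
  have h6 : IsAlgebraic ℚ (th a b N r) := isAlgebraic_map _ (fun n => by
    induction n with
    | zero => rw [zero_add, pow_one, pow_one]
    | succ n ih => rw [pow_succ, th_mul hN hab, ih, ← pow_succ]) hra
  have h5 : IsAlgebraic ℚ s' := by
    rw [hs']
    apply isAlgebraic_add_orth
    · rw [mul_neg, hts', th_zero hbb, neg_zero]
    · rw [neg_mul, hts', th_zero haa, neg_zero]
    · exact h6
    · obtain ⟨P, hP, hPs⟩ := h6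
      have hanti : AntiInv (tpR C Y) := ⟨tpR_mul, tpR_one, tpR_tpR⟩
      refine ⟨P.comp (-Polynomial.X), ?_, ?_⟩
      · intro h0
        apply hP
        have h1 : (P.comp (-Polynomial.X)).comp (-Polynomial.X) = P := by
          rw [Polynomial.comp_assoc]; simp
        rw [← h1, h0, Polynomial.zero_comp]
      · rw [Polynomial.aeval_comp, map_neg, Polynomial.aeval_X, neg_neg, ← hanti.aeval, hPs,
          map_zero]
  refine ⟨hq0, hqq, htq, s', h1, h3, h4, ?_, h5, h2⟩
  intro m v hv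
  have hv1 : H.act (H.cl (tp C b)) v ∈ H.gr X (m + 2 * -e) := actH_mem H (tp_deg he hb) hv
  have hv2 : H.act (H.cl (tp C a)) v ∈ H.gr X (m + 2 * -e') := actH_mem H (tp_deg he' ha) hv
  have h7 := act_th_scalar (N := N) (a := a) r v _ (hract _ _ hv1)
  have h8 := act_th_scalar (N := N) (a := b) (tpR C X r) v _ (hrtact _ _ hv2)
  rw [show (X.dim : ℤ) - (m + 2 * -e) + (e' - e) = Y.dim - m by linarith] at h7
  rw [show (X.dim : ℤ) - (2 * X.dim - (m + 2 * -e')) + (e' - e) = -((Y.dim : ℤ) - m) by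
    linarith] at h8
  change actH C Y H s' v = _ • actH C Y H q v
  rw [hs', map_add, map_neg, LinearMap.add_apply, LinearMap.neg_apply, hts', h7, h8, hq,
    map_add, LinearMap.add_apply, smul_add, ← neg_smul, ← Int.cast_neg, neg_neg]

/-- Pieces have weights. -/
theorem Pieces.hasWeight {q : C.A (Y.prod Y)} (h : Pieces H Y q) :
    HasWeight H (show Cor C Y from q) := by
  induction h with
  | zero => exact hasWeight_zero
  | similar Z e a N he ha hN haa hZ => exact hasWeight_similar he ha hN haa hZ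
  | hyperbolic Z e e' a b N he ha hb hN haa hbb hab hZ =>
    have h1 := hasWeight_hyperbolic he ha hb hN (by rw [haa, zero_smul]) (by rw [hbb, zero_smul])
      hab hZ
    rw [smul_add] at h1
    exact h1
  | add q q' _ _ h1 h2 ih ih' => exact ih.add ih' h2 h1

end Pool.Agent.K3h19.CKD
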