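import Mathlib

/-!
# Systems of idempotent polynomials
-/

set_option autoImplicit false

namespace Pool.Agent.K3h19.CKD

open Polynomial

section poly

variable {ι : Type*} [Fintype ι] [DecidableEq ι]

/-- Polynomials with sum one, the `i`-th one divisible by `(T - c j)^k` for `j ≠ i`. -/
lemma exists_eps [Nonempty ι] (c : ι → ℚ) (hc : Function.Injective c) (k : ℕ) :
    ∃ ε : ι → ℚ[X], (∑ i, ε i = 1) ∧
      ∀ i, (∏ j ∈ Finset.univ.erase i, (X - C (c j)) ^ k) ∣ ε i := by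
  have h1 : Pairwise (Function.onFun IsCoprime (fun i => (X - C (c i)) ^ k : ι → ℚ[X])) := by
    intro i j hij
    apply IsCoprime.pow
    apply Polynomial.isCoprime_X_sub_C_of_isUnit_sub
    apply IsUnit.mk0
    rw [sub_ne_zero]
    intro h
    exact hij (hc h)
  obtain ⟨μ, hμ⟩ := (exists_sum_eq_one_iff_pairwise_coprime' (R := ℚ[X]) (I := ι)
    (s := fun i => (X - C (c i)) ^ k)).2 h1
  refine ⟨fun i => μ i * ∏ j ∈ {i}ᶜ, (X - C (c j)) ^ k, hμ, fun i => ?_⟩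
  have e1 : ({i}ᶜ : Finset ι) = Finset.univ.erase i := by
    ext j; simp
  rw [← e1]
  exact dvd_mul_left _ _

variable {c : ι → ℚ} {k : ℕ} {ε : ι → ℚ[X]}

lemma prod_eq_mul (i : ι) : (∏ j, (X - C (c j)) ^ k : ℚ[X]) =
    (X - C (c i)) ^ k * ∏ j ∈ Finset.univ.erase i, (X - C (c j)) ^ k :=
  (Finset.mul_prod_erase _ _ (Finset.mem_univ i)).symm

lemma pow_dvd_eps (h : ∀ i, (∏ j ∈ Finset.univ.erase i, (X - C (c j)) ^ k) ∣ ε i) {i j : ι}
    (hij : j ≠ i) : (X - C (c j)) ^ k ∣ ε i := by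
  refine Dvd.dvd.trans ?_ (h i)
  exact Finset.dvd_prod_of_mem (fun j => (X - C (c j)) ^ k)
    (Finset.mem_erase.2 ⟨hij, Finset.mem_univ j⟩)

lemma dvd_mul_eps (h : ∀ i, (∏ j ∈ Finset.univ.erase i, (X - C (c j)) ^ k) ∣ ε i) {i j : ι}
    (hij : i ≠ j) : (∏ j, (X - C (c j)) ^ k) ∣ ε i * ε j := by
  rw [prod_eq_mul i, mul_comm]
  exact mul_dvd_mul (h i) (pow_dvd_eps h hij)

lemma eval_eps_ne (hk : k ≠ 0) (h : ∀ i, (∏ j ∈ Finset.univ.erase i, (X - C (c j)) ^ k) ∣ ε i)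
    {i j : ι} (hij : j ≠ i) : (ε i).eval (c j) = 0 := by
  obtain ⟨r, hr⟩ := pow_dvd_eps h hij
  rw [hr, eval_mul, eval_pow, eval_sub, eval_X, eval_C, sub_self, zero_pow hk, zero_mul]

lemma eval_eps (hk : k ≠ 0) (h : ∀ i, (∏ j ∈ Finset.univ.erase i, (X - C (c j)) ^ k) ∣ ε i)
    (hs : ∑ i, ε i = 1) (i : ι) : (ε i).eval (c i) = 1 := by
  have h1 := congrArg (fun P => eval (c i) P) hs
  simp only [eval_finsetSum, eval_one] at h1
  rw [Finset.sum_eq_single i] at h1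
  · exact h1
  · intro j _ hj
    exact eval_eps_ne hk h hj.symm
  · intro h2
    exact absurd (Finset.mem_univ i) h2

lemma dvd_mul_eps_comp (h : ∀ i, (∏ j ∈ Finset.univ.erase i, (X - C (c j)) ^ k) ∣ ε i)
    {σ : ι → ι} (hσ : ∀ i, c (σ i) = -c i) {i j : ι} (hij : σ i ≠ j) :
    (∏ j, (X - C (c j)) ^ k) ∣ ε i * (ε j).comp (-X) := by
  rw [prod_eq_mul i, mul_comm]
  refine mul_dvd_mul (h i) ?_
  obtain ⟨r, hr⟩ := pow_dvd_eps h hij
  rw [hr, mul_comp, pow_comp, sub_comp, X_comp, C_comp, hσ]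
  refine dvd_mul_of_dvd_left ?_ _
  have e1 : (-X - C (-c i) : ℚ[X]) = (-1) * (X - C (c i)) := by
    rw [C_neg]; ring
  rw [e1, mul_pow]
  exact dvd_mul_left _ _

end poly

/-- Approximations of `(1 - T)^(-1/2)`. -/
lemma exists_invsqrt (n : ℕ) :
    ∃ P Q : ℚ[X], P ^ 2 * (1 - X) = 1 + X ^ (n + 1) * Q ∧ P.eval 0 = 1 := by
  induction n with
  | zero => exact ⟨1, -1, by ring, by simp⟩
  | succ n ih =>
    obtain ⟨P, Q, h1, h2⟩ := ih
    refine ⟨P * (1 - C (1 / 2) * (X ^ (n + 1) * Q)),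
      X ^ n * Q ^ 2 * (-C (3 / 4) + C (1 / 4) * (X ^ (n + 1) * Q)), ?_, ?_⟩
    · have e1 : (P * (1 - C (1 / 2) * (X ^ (n + 1) * Q))) ^ 2 * (1 - X) =
          (P ^ 2 * (1 - X)) * (1 - C (1 / 2) * (X ^ (n + 1) * Q)) ^ 2 := by ring
      have e2 : X ^ (n + 1 + 1) * (X ^ n * Q ^ 2 * (-C (3 / 4) + C (1 / 4) * (X ^ (n + 1) * Q))) =
          (X ^ (n + 1) * Q) ^ 2 * (-C (3 / 4) + C (1 / 4) * (X ^ (n + 1) * Q)) := by ring
      rw [e1, h1, e2]
      generalize X ^ (n + 1) * Q = Y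
      have e3 : (C (3 / 4) : ℚ[X]) = C (1 / 2) * 2 - C (1 / 2) * C (1 / 2) := by
        rw [show (2 : ℚ[X]) = C 2 from rfl, ← C_mul, ← C_mul, ← C_sub]; norm_num
      have e4 : (C (1 / 4) : ℚ[X]) = C (1 / 2) * C (1 / 2) := by
        rw [← C_mul]; norm_num
      have e5 : (C (1 / 2) : ℚ[X]) * 2 = 1 := by
        rw [show (2 : ℚ[X]) = C 2 from rfl, ← C_mul]; norm_num
      rw [e3, e4]
      linear_combination (-Y + 0 * Y) * e5
    · simp [h2]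

end Pool.Agent.K3h19.CKD
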