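import Pool.Agent.K3h19.CKD.Pieces

/-!
# Towers
-/

open CategoryTheory AlgebraicGeometry

universe u v w

namespace Pool.Agent.K3h19.CKD

open Pool.Agent.H914 Pool.Agent.H914.VarClass Pool.Agent.H914.VarClass.Obj Pool.Agent.W492.BB
  Pool.Agent.W550.Corr Pool.Agent.TH133 Pool.Agent.Y107 Pool.Agent.K3h96.SD

set_option linter.unusedSectionVars false

lemma sum_split {M : Type*} [AddCommMonoid M] (T : ℕ → M) (m l : ℕ) :
    ∑ i ∈ Finset.range (m + (l + m)), T i =
      ∑ i ∈ Finset.range m, (T i + T (m + (l + m) - 1 - i)) +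
        ∑ i ∈ Finset.range l, T (m + i) := by
  rw [Finset.sum_range_add, Finset.sum_range_add, Finset.sum_add_distrib, add_assoc]
  congr 1
  rw [add_comm]
  congr 1
  rw [← Finset.sum_range_reflect]
  apply Finset.sum_congr rfl
  intro i hi
  rw [Finset.mem_range] at hi
  congr 1
  omega

variable {k : Type u} [Field k] {𝒱 : VarClass k}
  {C : TheoryData.{u, v, 0} 𝒱 ℚ} [hC : IsChowProj C] {X Y Z E : 𝒱.Obj}

include hC

variable {e : ℤ} {r : ℕ} {N : ℚ} {A : ℕ → C.A (Z.prod Y)}

/-- The terms of the projector of a tower. -/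
noncomputable def twT (C : TheoryData.{u, v, 0} 𝒱 ℚ) {Z Y : 𝒱.Obj} (r : ℕ) (N : ℚ)
    (A : ℕ → C.A (Z.prod Y)) (i : ℕ) : C.A (Y.prod Y) := cross C N (A i) (A (r - i))

lemma orth_smul {a b : C.A (Y.prod Y)} (q q' : ℚ) (h : C.comp a b = 0) :
    C.comp (q • a) (q' • b) = 0 := by
  rw [smul_comp', comp_smul', h, smul_zero, smul_zero]

lemma twT_mul (hA : IsTower C e r N A) {i j : ℕ} (hij : i ≠ j) (hi : i ≤ r) (hj : j ≤ r) :
    C.comp (twT C r N A i) (twT C r N A j) = 0 := by
  rw [twT, twT, cross, cross]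
  apply orth_smul
  have h1 : C.comp (A i) (tp C (A (r - j))) = _ := (hA.2.2 i hi).2 (r - j) (by omega)
  rw [comp_assoc, ← comp_assoc C (A i), h1, if_neg (by omega), zero_smul, zero_comp, comp_zero]

lemma add_comp4 (a b c d : C.A (Y.prod Y)) :
    C.comp (a + b) (c + d) = C.comp a c + C.comp a d + (C.comp b c + C.comp b d) := by
  rw [add_comp, comp_add, comp_add]

/-- The pair of terms `i` and `r - i`. -/
lemma twT_pair (hA : IsTower C e r N A) {i j : ℕ} (hij : i < j) (hj : 2 * j < r) :
    C.comp (twT C r N A i + twT C r N A (r - i)) (twT C r N A j + twT C r N A (r - j)) = 0 ∧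
    C.comp (twT C r N A j + twT C r N A (r - j)) (twT C r N A i + twT C r N A (r - i)) = 0 := by
  constructor
  · rw [add_comp4, twT_mul hA (by omega) (by omega) (by omega),
      twT_mul hA (by omega) (by omega) (by omega), twT_mul hA (by omega) (by omega) (by omega),
      twT_mul hA (by omega) (by omega) (by omega)]
    simp
  · rw [add_comp4, twT_mul hA (by omega) (by omega) (by omega),
      twT_mul hA (by omega) (by omega) (by omega), twT_mul hA (by omega) (by omega) (by omega),
      twT_mul hA (by omega) (by omega) (by omega)]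
    simp

variable {K : Type w} [Field K] {H : WeilTheoryData.{u, v, w} C K}

lemma pieces_pair (hA : IsTower C e r N A) (hZ : ∃ π, IsCK H Z π) {i : ℕ} (hi : 2 * i < r) :
    Pieces H Y (twT C r N A i + twT C r N A (r - i)) := by
  have hd := hA.1
  have hdeg := fun i hi => (hA.2.2 i hi).1
  have hdual := fun i hi => (hA.2.2 i hi).2
  have h1 := hdual i (by omega) i (by omega)
  have h2 := hdual (r - i) (by omega) (r - i) (by omega)
  have h3 := hdual i (by omega) (r - i) (by omega)
  rw [if_neg (by omega)] at h1 h2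
  rw [if_pos (by omega)] at h3
  have h := Pieces.hyperbolic (H := H) (Y := Y) Z (e + i : ℤ) (e + (r - i : ℕ) : ℤ)
    (A i) (A (r - i)) N (by omega) (hdeg i (by omega)) (hdeg (r - i) (by omega)) hA.2.1 h1 h2 h3 hZ
  rw [twT, twT, show r - (r - i) = i by omega]
  exact h

lemma pieces_middle {m : ℕ} (hA : IsTower C e (m + m) N A) (hZ : HasSelfDualCK H Z) :
    Pieces H Y (twT C (m + m) N A m) := by
  have hd := hA.1
  have h1 := (hA.2.2 m (by omega)).2 m (by omega)
  rw [if_pos (by omega)] at h1
  have h := Pieces.similar (H := H) (Y := Y) Z (e + m : ℤ) (A m) N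
    (by push_cast at hd; omega) (hA.2.2 m (by omega)).1 hA.2.1 h1 hZ
  rw [twT, show m + m - m = m by omega]
  exact h

lemma pieces_partial (hA : IsTower C e r N A) (hZ : ∃ π, IsCK H Z π) (m : ℕ)
    (hm : 2 * m ≤ r + 1) :
    Pieces H Y (∑ i ∈ Finset.range m, (twT C r N A i + twT C r N A (r - i))) := by
  induction m with
  | zero =>
    rw [Finset.range_zero, Finset.sum_empty]
    exact Pieces.zero
  | succ m ih =>
    rw [Finset.sum_range_succ]
    refine Pieces.add _ _ (ih (by omega)) (pieces_pair hA hZ (by omega)) ?_ ?_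
    · rw [sum_comp]
      apply Finset.sum_eq_zero
      intro i hi
      rw [Finset.mem_range] at hi
      exact (twT_pair hA hi (by omega)).1
    · rw [comp_sum]
      apply Finset.sum_eq_zero
      intro i hi
      rw [Finset.mem_range] at hi
      exact (twT_pair hA hi (by omega)).2

/-- The projectors of towers are orthogonal sums of pieces. -/
theorem pieces_tower (hA : IsTower C e r N A) (hZ : ∃ π, IsCK H Z π)
    (hZ' : Odd r ∨ HasSelfDualCK H Z) : Pieces H Y (towerProjector C r N A) := by
  have e0 : towerProjector C r N A = ∑ i ∈ Finset.range (r + 1), twT C r N A i := rfl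
  rw [e0]
  rcases Nat.even_or_odd r with ⟨m, hm⟩ | ⟨m, hm⟩
  · have hZ'' : HasSelfDualCK H Z := by
      rcases hZ' with h | h
      · exact absurd h (Nat.not_odd_iff_even.2 ⟨m, hm⟩)
      · exact h
    subst hm
    have e1 := sum_split (twT C (m + m) N A) m 1
    rw [show m + (1 + m) = m + m + 1 by ring, Finset.sum_range_one, add_zero,
      Nat.add_sub_cancel] at e1
    rw [e1]
    refine Pieces.add _ _ (pieces_partial hA hZ m (by omega))
      (pieces_middle hA hZ'') ?_ ?_
    · rw [sum_comp]
      apply Finset.sum_eq_zero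
      intro i hi
      rw [Finset.mem_range] at hi
      rw [add_comp, twT_mul hA (by omega) (by omega) (by omega),
        twT_mul hA (by omega) (by omega) (by omega), add_zero]
    · rw [comp_sum]
      apply Finset.sum_eq_zero
      intro i hi
      rw [Finset.mem_range] at hi
      rw [comp_add, twT_mul hA (by omega) (by omega) (by omega),
        twT_mul hA (by omega) (by omega) (by omega), add_zero]
  · have e1 := sum_split (twT C r N A) (m + 1) 0
    rw [Finset.range_zero, Finset.sum_empty, add_zero, zero_add,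
      show m + 1 + (m + 1) = r + 1 by omega, Nat.add_sub_cancel] at e1
    rw [e1]
    exact pieces_partial hA hZ (m + 1) (by omega)

/-- Orthogonality of the projector of a tower to a correspondence. -/
lemma tower_orth {x : C.A (Y.prod Y)} (h : ∀ i ≤ r, C.comp (A i) x = 0)
    (h' : ∀ i ≤ r, C.comp x (tp C (A i)) = 0) :
    C.comp (towerProjector C r N A) x = 0 ∧ C.comp x (towerProjector C r N A) = 0 := by
  rw [towerProjector]
  constructor
  · rw [sum_comp, Finset.sum_eq_zero]
    intro i hi
    rw [Finset.mem_range] at hi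
    rw [cross, smul_comp', comp_assoc, h i (by omega), comp_zero, smul_zero]
  · rw [comp_sum, Finset.sum_eq_zero]
    intro i hi
    rw [cross, comp_smul', ← comp_assoc, h' (r - i) (by omega), zero_comp, smul_zero]

lemma mulCorr_mul (D E : C.A X) : C.comp (C.mulCorr D) (C.mulCorr E) = C.mulCorr (D * E) := by
  rw [mulCorr_comp, TheoryData.mulCorr, TheoryData.mulCorr, ← C.proj_left, ← C.pull_comp,
    lift_fst, C.pull_id]

lemma mulCorr_const (q : ℚ) : C.mulCorr (const C X q) = q • dg C X := mulCorr_smul q _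

lemma graph_graph (f : X ⟶ Y) (g : Y ⟶ Z) : C.comp (C.graph f) (C.graph g) = C.graph (f ≫ g) := by
  have e1 : Obj.lift (𝟙 X) f ≫ prodMap (𝟙 X) g = Obj.lift (𝟙 X) (f ≫ g) := by
    apply prod_ext <;> simp
  rw [comp_eq_extR, extR_graph, TheoryData.graph, ← C.push_comp, e1]
  rfl

/-- The tower of a relative basis. -/
theorem isTower_relative {p : E ⟶ Z} {j : E ⟶ Y} {w h : C.A E} {r s : ℕ} {N : ℚ} {β : ℕ → C.A E}
    (hD : IsTowerDatum C p j r s w h N) (hβ : IsRelativeBasis C p w h r N β) :
    IsTower C s r N (relativeTower C p j β) := by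
  obtain ⟨hE, hY, hw, hh, hN, hj, hp⟩ := hD
  refine ⟨by omega, hN, fun i hi => ⟨?_, fun l hl => ?_⟩⟩
  · have h0 : C.cograph p ∈ C.gr (Z.prod E) (Z.dim + 0) := by rw [add_zero]; exact cograph_mem p
    have h7 := comp_mem C h0 (mulCorr_mem (hβ i hi).1)
    have h1 : C.graph j ∈ C.gr (E.prod Y) (E.dim + s) := by
      have := graph_mem' (C := C) j
      rwa [show (Y.dim : ℤ) = E.dim + s by omega] at this
    have h2 := comp_mem C h7 h1
    rwa [show (0 : ℤ) + i + s = s + i by ring] at h2
  · have h3 := (hβ i hi).2.2 l hl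
    have h4 : C.push p (w * (β i * β l)) = const C Z (if i + l = r then N else 0) := h3
    change C.comp (relativeTower C p j β i) (tp C (relativeTower C p j β l)) = _
    rw [relativeTower, relativeTower, tp_comp C (ch_comm C), tp_comp C (ch_comm C), tp_mulCorr,
      tp_cograph, tp_graph, comp_assoc, ← comp_assoc C (C.graph j), hj, comp_assoc,
      ← comp_assoc C (C.mulCorr (β i)), mulCorr_mul, ← comp_assoc C (C.mulCorr (β i * w)),
      mulCorr_mul, cograph_mulCorr_graph, ch_comm C (β i) w, mul_assoc, h4, mulCorr_const]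

/-- **Existence of relative bases.** -/
theorem exists_relativeBasis {p : E ⟶ Z} {j : E ⟶ Y} {w h : C.A E} {r s : ℕ} {N : ℚ}
    (hD : IsTowerDatum C p j r s w h N) : ∃ β : ℕ → C.A E, IsRelativeBasis C p w h r N β := by
  obtain ⟨hd, _, hw, hh, hN, _, hr⟩ := hD
  let iX : CommRing (C.A Z) := { (inferInstance : Ring (C.A Z)) with mul_comm := ch_comm C }
  let iY : CommRing (C.A E) := { (inferInstance : Ring (C.A E)) with mul_comm := ch_comm C }
  obtain ⟨p', hp'⟩ : ∃ p' : C.A E →ₗ[ℚ] C.A Z, ∀ y, p' y = C.push p (w * y) :=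
    ⟨(C.push p) ∘ₗ LinearMap.mulLeft ℚ w, fun _ => rfl⟩
  obtain ⟨β, hβ⟩ := gram_schmidt (R := C.A Z) (S := C.A E) (g := C.pull p) (p := p')
    (DR := C.gr Z) (DS := C.gr E) (r := r) (fun x y => by
      rw [hp', hp', ← C.proj_left, ← mul_assoc, ← mul_assoc, mul_comm w])
    (fun i j x y hx hy => C.mul_mem hx hy) (C.one_mem E) (fun i x hx => C.pull_mem p hx)
    (fun i y hy hi => by
      have h1 := C.push_mem p (C.mul_mem hw hy)
      rw [C.gr_neg Z _ (by rw [hd]; push_cast; omega)] at h1
      rw [hp']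
      exact (Submodule.mem_bot _).1 h1)
    (fun i y hy => by
      have h1 := C.push_mem p (C.mul_mem hw hy)
      rw [show (s : ℤ) + i + 1 * ((Z.dim : ℤ) - E.dim) = i - r by rw [hd]; push_cast; ring] at h1
      rw [hp']
      exact h1)
    (h := h) hh hN (by rw [hp']; exact hr) (r + 1) le_rfl
  refine ⟨β, fun i hi => ⟨(hβ i (by omega)).1, (hβ i (by omega)).2.2.1, fun j hj => ?_⟩⟩
  have h1 : p' (β i * β j) = _ := (hβ i (by omega)).2.2.2 j (by omega)
  rw [hp'] at h1
  change C.push p (w * (β i * β j)) = _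
  rw [h1, const]
  split_ifs
  · rfl
  · rw [zero_smul]

end Pool.Agent.K3h19.CKD
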