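import Pool.Agent.K3h19.CKD.Poly

/-!
# Complete systems of idempotents compatible with a projector
-/

set_option autoImplicit false

namespace Pool.Agent.K3h19.CKD

open Polynomial

section anti

variable {A : Type*} [Ring A]

/-- `t` is an involution reversing the products. -/
structure AntiInv (t : A →+ A) : Prop where
  mul : ∀ a b, t (a * b) = t b * t a
  one : t 1 = 1
  inv : ∀ a, t (t a) = a

lemma AntiInv.pow {t : A →+ A} (ht : AntiInv t) (s : A) (n : ℕ) : t (s ^ n) = t s ^ n := by
  induction n with
  | zero => simp [ht.one]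
  | succ n ih => rw [pow_succ, ht.mul, ih, ← pow_succ']

variable [Algebra ℚ A]

lemma AntiInv.smul {t : A →+ A} (_ : AntiInv t) (q : ℚ) (a : A) : t (q • a) = q • t a :=
  map_rat_smul t q a

lemma AntiInv.aeval {t : A →+ A} (ht : AntiInv t) (s : A) (P : ℚ[X]) :
    t (aeval s P) = aeval (t s) P := by
  induction P using Polynomial.induction_on' with
  | add f g hf hg => rw [map_add, map_add, map_add, hf, hg]
  | monomial n a =>
    rw [aeval_monomial, aeval_monomial, ← Algebra.smul_def, ← Algebra.smul_def, ht.smul, ht.pow]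

lemma aeval_neg' (s : A) (P : ℚ[X]) : aeval (-s) P = aeval s (P.comp (-X)) := by
  rw [aeval_comp, map_neg, aeval_X]

end anti

section spec

variable {A : Type*} [Ring A] [Algebra ℚ A] {S : Type*} [Ring S] {φ : A →+* S} {f : A}
  {ι : Type*} [Fintype ι] [DecidableEq ι] {p : ι → A} {c : ι → ℚ}

lemma aeval_sum_idem (hpp : ∀ i j, p i * p j = if i = j then p i else 0) (hp1 : ∑ i, p i = 1)
    (Q : ℚ[X]) : aeval (∑ i, c i • p i) Q = ∑ i, Q.eval (c i) • p i := by
  induction Q using Polynomial.induction_on' with
  | add f g hf hg =>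
    rw [map_add, hf, hg, ← Finset.sum_add_distrib]
    exact Finset.sum_congr rfl fun i _ => by rw [eval_add, add_smul]
  | monomial n a =>
    have h1 : ∀ n : ℕ, (∑ i, c i • p i) ^ n = ∑ i, (c i) ^ n • p i := by
      intro n
      induction n with
      | zero => simp [hp1]
      | succ n ih =>
        rw [pow_succ, ih, Finset.sum_mul]
        apply Finset.sum_congr rfl
        intro i _
        rw [Finset.mul_sum, Finset.sum_eq_single i]
        · rw [smul_mul_smul_comm, hpp, if_pos rfl, pow_succ]
        · intro j _ hj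
          rw [smul_mul_smul_comm, hpp, if_neg hj.symm, smul_zero]
        · intro h; exact absurd (Finset.mem_univ i) h
    rw [aeval_monomial, ← Algebra.smul_def, h1, Finset.smul_sum]
    apply Finset.sum_congr rfl
    intro i _
    rw [smul_smul, eval_monomial]

/-- Idempotents of the corner `f A f` lifting the `f p_i`. -/
lemma exists_spectral [Nonempty ι] (hf : f * f = f)
    (hpp : ∀ i j, p i * p j = if i = j then p i else 0) (hp1 : ∑ i, p i = 1)
    (hcomm : ∀ i, φ (p i) * φ f = φ f * φ (p i))
    (hnil : ∀ x, f * x * f = x → φ x = 0 → IsNilpotent x) (hc : Function.Injective c) :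
    ∃ F : ι → A, (∀ i j, F i * F j = if i = j then F i else 0) ∧ ∑ i, F i = f ∧
      (∀ i, φ (F i) = φ f * φ (p i)) ∧
      ∀ (t : A →+ A) (σ : ι → ι), AntiInv t → t f = f → (∀ i, t (p i) = p (σ i)) →
        (∀ i, c (σ i) = -c i) → ∀ i, t (F i) = F (σ i) := by
  obtain ⟨s, hs⟩ : ∃ s : A, s = ∑ i, c i • p i := ⟨_, rfl⟩
  obtain ⟨u, hu⟩ : ∃ u : A, u = f * s * f := ⟨_, rfl⟩
  have hfu : f * u = u := by rw [hu, ← mul_assoc, ← mul_assoc, hf]
  have huf : u * f = u := by rw [hu, mul_assoc, hf]
  have hG : φ f * φ f = φ f := by rw [← map_mul, hf]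
  have hφs : φ s * φ f = φ f * φ s := by
    have h1 : ∀ q : ℚ, ∀ x : A, φ x * φ f = φ f * φ x → φ (q • x) * φ f = φ f * φ (q • x) := by
      intro q x hx
      have h2 : φ (algebraMap ℚ A q) * φ f = φ f * φ (algebraMap ℚ A q) := by
        rw [← map_mul, ← map_mul, Algebra.commutes]
      rw [Algebra.smul_def, map_mul, mul_assoc, hx, ← mul_assoc, h2, mul_assoc]
    rw [hs, map_sum, Finset.sum_mul, Finset.mul_sum]
    exact Finset.sum_congr rfl fun i _ => h1 _ _ (hcomm i)
  have hcf : ∀ Q : ℚ[X], f * aeval u Q = aeval u Q * f := by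
    intro Q
    induction Q using Polynomial.induction_on' with
    | add f g hf hg => rw [map_add, mul_add, add_mul, hf, hg]
    | monomial n a =>
      have h1 : Commute f (u ^ n) := Commute.pow_right (by rw [commute_iff_eq, hfu, huf]) n
      rw [aeval_monomial, ← Algebra.smul_def, mul_smul_comm, smul_mul_assoc, h1.eq]
  have hff : ∀ Q R : ℚ[X], (f * aeval u Q) * (f * aeval u R) = f * aeval u (Q * R) := by
    intro Q R
    rw [map_mul, hcf Q, mul_assoc, ← mul_assoc f f, hf, ← mul_assoc, ← hcf Q, mul_assoc]
  have hφu : ∀ Q : ℚ[X], φ (f * aeval u Q) = φ (f * aeval s Q) := by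
    intro Q
    induction Q using Polynomial.induction_on' with
    | add f g hf hg => rw [map_add, map_add, mul_add, mul_add, map_add, map_add, hf, hg]
    | monomial n a =>
      have h0 : φ u = φ s * φ f := by
        rw [hu, map_mul, map_mul, mul_assoc, hφs, ← mul_assoc, hG]
      have h1 : ∀ n : ℕ, φ (f * u ^ n) = φ (f * s ^ n) := by
        intro n
        induction n with
        | zero => rw [pow_zero, pow_zero]
        | succ n ih =>
          have h2 : Commute (φ s) (φ f) := hφs
          have h3 : φ (f * s ^ n) = φ s ^ n * φ f := by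
            rw [map_mul, map_pow, (h2.pow_left n).eq]
          have h4 : φ (f * s ^ (n + 1)) = φ s ^ (n + 1) * φ f := by
            rw [map_mul, map_pow, (h2.pow_left (n + 1)).eq]
          rw [pow_succ, ← mul_assoc, map_mul, ih, h3, h4, h0, mul_assoc, ← mul_assoc (φ f), ← hφs,
            mul_assoc (φ s), hG, pow_succ, mul_assoc]
      rw [aeval_monomial, aeval_monomial, Algebra.left_comm, Algebra.left_comm, map_mul, h1,
        ← map_mul]
  -- the nilpotent element
  obtain ⟨k, hk0, hk⟩ : ∃ k : ℕ, k ≠ 0 ∧ f * aeval u (∏ i, (X - C (c i)) ^ k) = 0 := by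
    have h1 : IsNilpotent (f * aeval u (∏ i, (X - C (c i)))) := by
      apply hnil
      · rw [hcf, mul_assoc, mul_assoc, hf, ← hcf, ← mul_assoc, hf]
      · rw [hφu, hs, aeval_sum_idem hpp hp1, Finset.sum_eq_zero, mul_zero, map_zero]
        intro i _
        rw [eval_prod, Finset.prod_eq_zero (Finset.mem_univ i), zero_smul]
        rw [eval_sub, eval_X, eval_C, sub_self]
    obtain ⟨k, hk⟩ := h1
    have h2 : ∀ (k : ℕ) (Q : ℚ[X]), (f * aeval u Q) ^ (k + 1) = f * aeval u (Q ^ (k + 1)) := by
      intro k Q
      induction k with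
      | zero => rw [zero_add, pow_one, pow_one]
      | succ k ih => rw [pow_succ, ih, hff, ← pow_succ]
    refine ⟨k + 1, by omega, ?_⟩
    rw [Finset.prod_pow, ← h2, pow_succ, hk, zero_mul]
  have hdvd : ∀ Q : ℚ[X], (∏ i, (X - C (c i)) ^ k) ∣ Q → f * aeval u Q = 0 := by
    rintro Q ⟨R, rfl⟩
    rw [map_mul, ← mul_assoc, hk, zero_mul]
  obtain ⟨ε, hε1, hε⟩ := exists_eps c hc k
  have hsum : ∑ i, f * aeval u (ε i) = f := by
    rw [← Finset.mul_sum, ← map_sum, hε1, map_one, mul_one]
  have horth : ∀ i j, i ≠ j → (f * aeval u (ε i)) * (f * aeval u (ε j)) = 0 := by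
    intro i j hij
    rw [hff]
    exact hdvd _ (dvd_mul_eps hε hij)
  have hFf : ∀ i, f * aeval u (ε i) * f = f * aeval u (ε i) := by
    intro i
    rw [mul_assoc, ← hcf, ← mul_assoc, hf]
  have hfF : ∀ i, f * (f * aeval u (ε i)) = f * aeval u (ε i) := by
    intro i
    rw [← mul_assoc, hf]
  refine ⟨fun i => f * aeval u (ε i), ?_, hsum, ?_, ?_⟩
  · intro i j
    by_cases hij : i = j
    · rw [if_pos hij, ← hij]
      have h1 := congrArg (fun x => (f * aeval u (ε i)) * x) hsum
      simp only [Finset.mul_sum] at h1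
      rw [Finset.sum_eq_single i, hFf] at h1
      · exact h1
      · intro j _ hj
        exact horth i j hj.symm
      · intro h; exact absurd (Finset.mem_univ i) h
    · rw [if_neg hij]
      exact horth i j hij
  · intro i
    change φ (f * aeval u (ε i)) = _
    rw [hφu, map_mul, hs, aeval_sum_idem hpp hp1, Finset.sum_eq_single i]
    · rw [eval_eps hk0 hε hε1, one_smul]
    · intro j _ hj
      rw [eval_eps_ne hk0 hε hj, zero_smul]
    · intro h; exact absurd (Finset.mem_univ i) h
  · intro t σ ht htf htp hσ
    have hσσ : ∀ i, σ (σ i) = i := by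
      intro i
      apply hc
      rw [hσ, hσ, neg_neg]
    have hts : t s = -s := by
      rw [hs, map_sum, ← Finset.sum_neg_distrib]
      have hbij : Function.Bijective σ := ⟨fun i j hij => by
        have := congrArg σ hij
        rwa [hσσ, hσσ] at this, fun i => ⟨σ i, hσσ i⟩⟩
      rw [← Function.Bijective.sum_comp hbij (fun i => -(c i • p i))]
      apply Finset.sum_congr rfl
      intro i _
      rw [ht.smul, htp, hσ, neg_smul, neg_neg]
    have htu : t u = -u := by
      rw [hu, ht.mul, ht.mul, htf, hts, neg_mul, mul_neg, mul_assoc]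
    have htF : ∀ i, t (f * aeval u (ε i)) = f * aeval u ((ε i).comp (-X)) := by
      intro i
      rw [ht.mul, ht.aeval, htf, htu, aeval_neg', hcf]
    have hz : ∀ i j, σ i ≠ j → (f * aeval u (ε i)) * t (f * aeval u (ε j)) = 0 := by
      intro i j hij
      rw [htF, hff]
      exact hdvd _ (dvd_mul_eps_comp hε hσ hij)
    have htsum : ∑ i, t (f * aeval u (ε i)) = f := by
      rw [← map_sum, hsum, htf]
    have hftF : ∀ i, f * t (f * aeval u (ε i)) = t (f * aeval u (ε i)) := by
      intro i
      rw [htF, ← mul_assoc, hf]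
    have key : ∀ i, f * aeval u (ε i) = t (f * aeval u (ε (σ i))) := by
      intro i
      have h1 : f * aeval u (ε i) = (f * aeval u (ε i)) * t (f * aeval u (ε (σ i))) := by
        have h2 := congrArg (fun x => (f * aeval u (ε i)) * x) htsum
        simp only [Finset.mul_sum] at h2
        rw [Finset.sum_eq_single (σ i), hFf] at h2
        · exact h2.symm
        · intro j _ hj
          exact hz i j hj.symm
        · intro h; exact absurd (Finset.mem_univ _) h
      have h3 : t (f * aeval u (ε (σ i))) =
          (f * aeval u (ε i)) * t (f * aeval u (ε (σ i))) := by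
        have h2 := congrArg (fun x => x * t (f * aeval u (ε (σ i)))) hsum
        simp only [Finset.sum_mul] at h2
        rw [Finset.sum_eq_single i, hftF] at h2
        · exact h2.symm
        · intro j _ hj
          apply hz
          intro h
          apply hj
          have := congrArg σ h
          rwa [hσσ, hσσ] at this
        · intro h; exact absurd (Finset.mem_univ _) h
      rw [h1, ← h3]
    intro i
    change t (f * aeval u (ε i)) = f * aeval u (ε (σ i))
    rw [key (σ i), hσσ]

end spec

end Pool.Agent.K3h19.CKD
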