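import Pool.Agent.K3h19.CKD.Compat
import Pool.Agent.Y107.SDMul

/-!
# Transport of correspondences along a similitude
-/

open CategoryTheory AlgebraicGeometry

universe u v w

namespace Pool.Agent.K3h19.CKD

open Pool.Agent.H914 Pool.Agent.H914.VarClass Pool.Agent.H914.VarClass.Obj Pool.Agent.W492.BB
  Pool.Agent.W550.Corr Pool.Agent.TH133 Pool.Agent.Y107 Pool.Agent.K3h96.SD

set_option linter.unusedSectionVars false

variable {k : Type u} [Field k] {𝒱 : VarClass k}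
  {C : TheoryData.{u, v, 0} 𝒱 ℚ} {X Y Z : 𝒱.Obj}

lemma comp_smul' (Γ : C.A (X.prod Y)) (q : ℚ) (Δ : C.A (Y.prod Z)) :
    C.comp Γ (q • Δ) = q • C.comp Γ Δ := map_smul (compL C Γ) q Δ

lemma smul_comp' (Γ : C.A (X.prod Y)) (q : ℚ) (Δ : C.A (Y.prod Z)) :
    C.comp (q • Γ) Δ = q • C.comp Γ Δ := LinearMap.map_smul₂ (compL C) q Γ Δ

/-- `x ↦ N⁻¹ a^t ∘ x ∘ a`. -/
noncomputable def psiA (a : C.A (X.prod Y)) (N : ℚ) (x : C.A (Y.prod Y)) : C.A (X.prod X) :=
  N⁻¹ • C.comp a (C.comp x (tp C a))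

/-- `x ↦ N⁻¹ a ∘ x ∘ a^t`. -/
noncomputable def phiA (a : C.A (X.prod Y)) (N : ℚ) (x : C.A (X.prod X)) : C.A (Y.prod Y) :=
  N⁻¹ • C.comp (tp C a) (C.comp x a)

/-- `x ↦ N⁻¹ a^t ∘ x ∘ a`. -/
noncomputable def psi (a : C.A (X.prod Y)) (N : ℚ) : Cor C Y →ₗ[ℚ] Cor C X where
  toFun x := psiA a N x
  map_add' x y := by
    have h1 : ∀ x y : C.A (Y.prod Y), psiA a N (x + y) = psiA a N x + psiA a N y := by
      intro x y
      rw [psiA, add_comp, comp_add, smul_add]; rfl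
    exact h1 x y
  map_smul' q x := by
    have h1 : ∀ x : C.A (Y.prod Y), psiA a N (q • x) = q • psiA a N x := by
      intro x
      rw [psiA, smul_comp', comp_smul', smul_comm]; rfl
    exact h1 x

/-- `x ↦ N⁻¹ a ∘ x ∘ a^t`. -/
noncomputable def phi (a : C.A (X.prod Y)) (N : ℚ) : Cor C X →ₗ[ℚ] Cor C Y where
  toFun x := phiA a N x
  map_add' x y := by
    have h1 : ∀ x y : C.A (X.prod X), phiA a N (x + y) = phiA a N x + phiA a N y := by
      intro x y
      rw [phiA, add_comp, comp_add, smul_add]; rfl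
    exact h1 x y
  map_smul' q x := by
    have h1 : ∀ x : C.A (X.prod X), phiA a N (q • x) = q • phiA a N x := by
      intro x
      rw [phiA, smul_comp', comp_smul', smul_comm]; rfl
    exact h1 x

lemma psi_apply (a : C.A (X.prod Y)) (N : ℚ) (x : Cor C Y) : psi a N x = psiA a N x := rfl

lemma phi_apply (a : C.A (X.prod Y)) (N : ℚ) (x : Cor C X) : phi a N x = phiA a N x := rfl

variable [hC : IsChowProj C]

include hC

variable {a : C.A (X.prod Y)} {N : ℚ}

lemma phiA_dg : phiA a N (dg C X) = N⁻¹ • C.comp (tp C a) a := by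
  rw [phiA, dg_comp]

lemma psiA_dg (hN : N ≠ 0) (haa : C.comp a (tp C a) = N • dg C X) :
    psiA a N (dg C Y) = dg C X := by
  rw [psiA, dg_comp, haa, smul_smul, inv_mul_cancel₀ hN, one_smul]

lemma psi_one (hN : N ≠ 0) (haa : C.comp a (tp C a) = N • dg C X) : psi a N 1 = 1 :=
  psiA_dg hN haa

lemma comp_phi_one (hN : N ≠ 0) (haa : C.comp a (tp C a) = N • dg C X) :
    C.comp a (phiA a N (dg C X)) = a := by
  rw [phiA_dg, comp_smul', ← comp_assoc C, haa, smul_comp', smul_smul, inv_mul_cancel₀ hN,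
    one_smul, dg_comp]

lemma comp_tp_self (hN : N ≠ 0) : C.comp (tp C a) a = N • phiA a N (dg C X) := by
  rw [phiA_dg, smul_smul, mul_inv_cancel₀ hN, one_smul]

lemma psiA_comp (hN : N ≠ 0) (haa : C.comp a (tp C a) = N • dg C X) (x y : C.A (Y.prod Y))
    (hy : C.comp (phiA a N (dg C X)) y = C.comp y (phiA a N (dg C X))) :
    psiA a N (C.comp y x) = C.comp (psiA a N y) (psiA a N x) := by
  have h3 : ∀ T : C.A (Y.prod X), C.comp a (C.comp y (C.comp (phiA a N (dg C X)) T)) =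
      C.comp a (C.comp y T) := by
    intro T
    rw [← comp_assoc C y, ← hy, comp_assoc C _ y, ← comp_assoc C a, comp_phi_one hN haa]
  rw [psiA, psiA, psiA, smul_comp', comp_smul', comp_assoc C a, comp_assoc C y (tp C a),
    ← comp_assoc C (tp C a) a, comp_tp_self hN, smul_comp', comp_smul', comp_smul',
    comp_assoc C y x, h3]
  rw [smul_smul N⁻¹ N, inv_mul_cancel₀ hN, one_smul]

lemma psi_mul (hN : N ≠ 0) (haa : C.comp a (tp C a) = N • dg C X) (x y : Cor C Y)
    (hy : y * phi a N 1 = phi a N 1 * y) : psi a N (x * y) = psi a N x * psi a N y :=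
  psiA_comp hN haa x y hy

lemma phiA_comp (hN : N ≠ 0) (haa : C.comp a (tp C a) = N • dg C X) (x y : C.A (X.prod X)) :
    phiA a N (C.comp y x) = C.comp (phiA a N y) (phiA a N x) := by
  rw [phiA, phiA, phiA, smul_comp', comp_smul', comp_assoc C (tp C a), comp_assoc C y a,
    ← comp_assoc C a (tp C a), haa, smul_comp', dg_comp, comp_smul', comp_smul',
    comp_assoc C y x]
  rw [smul_smul N⁻¹ N, inv_mul_cancel₀ hN, one_smul]

lemma phi_mul (hN : N ≠ 0) (haa : C.comp a (tp C a) = N • dg C X) (x y : Cor C X) :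
    phi a N (x * y) = phi a N x * phi a N y := phiA_comp hN haa x y

lemma phiA_tp (x : C.A (X.prod X)) : tp C (phiA a N x) = phiA a N (tp C x) := by
  rw [phiA, phiA, tp_smul, tp_comp C (ch_comm C), tp_comp C (ch_comm C), tp_tp, comp_assoc C]

lemma psiA_tp (x : C.A (Y.prod Y)) : tp C (psiA a N x) = psiA a N (tp C x) := by
  rw [psiA, psiA, tp_smul, tp_comp C (ch_comm C), tp_comp C (ch_comm C), tp_tp, comp_assoc C]

lemma phi_tp (x : Cor C X) : tpR C Y (phi a N x) = phi a N (tpR C X x) := phiA_tp _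

lemma psi_tp (x : Cor C Y) : tpR C X (psi a N x) = psi a N (tpR C Y x) := psiA_tp _

variable {e : ℤ}

lemma psi_mem (he : 2 * e = (Y.dim : ℤ) - X.dim) (ha : C.Deg ((X.dim : ℤ) + e) a) {x : Cor C Y}
    (hx : x ∈ cor0 C Y) : psi a N x ∈ cor0 C X := by
  have h1 : (x : C.A (Y.prod Y)) ∈ C.gr (Y.prod Y) (Y.dim + 0) := by rw [add_zero]; exact hx
  have h2 : tp C a ∈ C.gr (Y.prod X) (Y.dim + -e) := by
    have := tp_mem C (X := X) (Y := Y) ha
    rwa [show (X.dim : ℤ) + e = Y.dim + -e by linarith] at this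
  have h3 := comp_mem C (X := X) (Y := Y) ha (comp_mem C h1 h2)
  rw [show (X.dim : ℤ) + (e + (0 + -e)) = X.dim by ring] at h3
  exact Submodule.smul_mem (C.gr (X.prod X) X.dim) _ h3

lemma phi_mem (he : 2 * e = (Y.dim : ℤ) - X.dim) (ha : C.Deg ((X.dim : ℤ) + e) a) {x : Cor C X}
    (hx : x ∈ cor0 C X) : phi a N x ∈ cor0 C Y := by
  have h1 : (x : C.A (X.prod X)) ∈ C.gr (X.prod X) (X.dim + 0) := by rw [add_zero]; exact hx
  have h2 : tp C a ∈ C.gr (Y.prod X) (Y.dim + -e) := by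
    have := tp_mem C (X := X) (Y := Y) ha
    rwa [show (X.dim : ℤ) + e = Y.dim + -e by linarith] at this
  have h3 := comp_mem C (X := Y) (Y := X) h2 (comp_mem C h1 ha)
  rw [show (Y.dim : ℤ) + (-e + (0 + e)) = Y.dim by ring] at h3
  exact Submodule.smul_mem (C.gr (Y.prod Y) Y.dim) _ h3

end Pool.Agent.K3h19.CKD
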